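import Pool.Agent.Y545.HM.Ora

/-!
Colourings with bounded one-way memory at infinitely many cuts.
-/

namespace Pool.Agent.Y545.HM

open Encodable Pool.Agent.Helper446 Pool.Agent.Helper446.Defs Pool.Agent.Helper446.Oracle

theorem pr_pow2 : Primrec (fun i : ℕ => 2 ^ i) := by
  refine (Primrec.nat_rec₁ (f := fun _ n => n * 2) 1
    (Primrec.nat_mul.comp Primrec.snd (Primrec.const 2))).of_eq fun n => ?_
  induction n with
  | zero => rfl
  | succ n ih =>
    rw [pow_succ, ← ih]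

@[fun_prop] theorem c_pow2 {α : Type*} [Primcodable α] {f : α → ℕ} (hf : Computable f) :
    Computable (fun x => 2 ^ f x) := pr_pow2.to_comp.comp hf

variable {k : ℕ}

/-- The colouring `c` can be read with a one-way memory of `W` states at the cut `m`. -/
def Mem (c : ℕ → Fin k) (m W : ℕ) : Prop :=
  ∃ f : ℕ → Fin W, ∀ a < 2 ^ m, ∀ b < 2 ^ m, f a = f b →
    ∀ t, 1 ≤ t → c (a + 2 ^ m * t) = c (b + 2 ^ m * t)

/-- `x` and `y` are separated at the cut `m`. -/
def Dd (c : ℕ → Fin k) (m x y : ℕ) : Prop := ∃ t, 1 ≤ t ∧ c (x + 2 ^ m * t) ≠ c (y + 2 ^ m * t)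

/-- There are `n` pairwise separated numbers at the cut `m`. -/
def Sp (c : ℕ → Fin k) (m n : ℕ) : Prop :=
  ∃ v : Fin n → ℕ, (∀ i, v i < 2 ^ m) ∧ ∀ i j, i ≠ j → Dd c m (v i) (v j)

/-- Solutions of Hindman's theorem. -/
def Sol (c : ℕ → Fin k) (X : Set ℕ) : Prop :=
  X.Infinite ∧ 0 ∉ X ∧ ∃ j, ∀ F : Finset ℕ, (F : Set ℕ) ⊆ X → F.Nonempty → c (∑ x ∈ F, x) = j

variable {c : ℕ → Fin k}

theorem ndd_iff {m x y : ℕ} :
    ¬ Dd c m x y ↔ ∀ t, 1 ≤ t → c (x + 2 ^ m * t) = c (y + 2 ^ m * t) := by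
  unfold Dd
  push Not
  rfl

theorem Dd.symm {m x y : ℕ} (h : Dd c m x y) : Dd c m y x := by
  obtain ⟨t, h1, h2⟩ := h
  exact ⟨t, h1, h2.symm⟩

theorem dd_irrefl {m x : ℕ} : ¬ Dd c m x x := by
  rintro ⟨t, h1, h2⟩
  exact h2 rfl

theorem ndd_symm {m x y : ℕ} (h : ¬ Dd c m x y) : ¬ Dd c m y x := fun h2 => h h2.symm

theorem ndd_trans {m x y z : ℕ} (h1 : ¬ Dd c m x y) (h2 : ¬ Dd c m y z) : ¬ Dd c m x z := by
  rw [ndd_iff] at *
  intro t ht
  rw [h1 t ht, h2 t ht]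

/-- `¬ Dd` at `m` gives equality after adding a multiple of `2 ^ m`. -/
theorem ndd_add {m m' x y r : ℕ} (hm : m ≤ m') (h : ¬ Dd c m x y) :
    ¬ Dd c m' (x + 2 ^ m * r) (y + 2 ^ m * r) := by
  rw [ndd_iff] at *
  intro t ht
  have h1 : (2 : ℕ) ^ m' = 2 ^ m * 2 ^ (m' - m) := by
    rw [← pow_add]
    congr 1
    omega
  have h2 := h (r + 2 ^ (m' - m) * t) (by
    have : 1 ≤ 2 ^ (m' - m) * t := Nat.mul_pos (by positivity) ht
    omega)
  have h3 : ∀ z : ℕ, z + 2 ^ m * r + 2 ^ m' * t = z + 2 ^ m * (r + 2 ^ (m' - m) * t) := by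
    intro z
    rw [h1]
    ring
  rw [h3, h3, h2]

theorem ndd_mono {m m' x y : ℕ} (hm : m ≤ m') (h : ¬ Dd c m x y) : ¬ Dd c m' x y := by
  have := ndd_add (r := 0) hm h
  simpa using this

theorem sp_one (m : ℕ) : Sp c m 1 :=
  ⟨fun _ => 0, fun _ => by positivity, fun i j hij => absurd (Subsingleton.elim i j) hij⟩

theorem not_sp_of_mem {m W : ℕ} (h : Mem c m W) : ¬ Sp c m (W + 1) := by
  rintro ⟨v, h1, h2⟩
  obtain ⟨f, hf⟩ := h
  obtain ⟨i, j, hij, he⟩ := Fintype.exists_ne_map_eq_of_card_lt (fun i => f (v i)) (by simp)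
  obtain ⟨t, ht, hne⟩ := h2 i j hij
  exact hne (hf _ (h1 i) _ (h1 j) he t ht)

/-- Eventual equivalence. -/
def evs (c : ℕ → Fin k) : Setoid ℕ where
  r a b := ∃ m, ¬ Dd c m a b
  iseqv := by
    refine ⟨fun x => ⟨0, dd_irrefl⟩, fun h => ?_, fun h1 h2 => ?_⟩
    · obtain ⟨m, hm⟩ := h
      exact ⟨m, ndd_symm hm⟩
    · obtain ⟨m, hm⟩ := h1
      obtain ⟨m', hm'⟩ := h2
      exact ⟨max m m', ndd_trans (ndd_mono (le_max_left _ _) hm)
        (ndd_mono (le_max_right _ _) hm')⟩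

/-- The eventual classes. -/
abbrev Qt (c : ℕ → Fin k) := Quotient (evs c)

theorem exists_ge_mem {C : Set ℕ} (h : C.Infinite) (n : ℕ) : ∃ m ∈ C, n ≤ m := by
  obtain ⟨m, hm, hn⟩ := h.exists_gt n
  exact ⟨m, hm, hn.le⟩

theorem finite_qt {C : Set ℕ} (hinf : C.Infinite) {W : ℕ} (hW : ∀ m ∈ C, ¬ Sp c m (W + 1)) :
    Finite (Qt c) := by
  by_contra hcon
  rw [not_finite_iff_infinite] at hcon
  let e := Infinite.natEmbedding (Qt c)
  let v : Fin (W + 1) → ℕ := fun i => (e i).out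
  obtain ⟨m, hmC, hm⟩ := exists_ge_mem hinf (Finset.univ.sup v)
  refine hW m hmC ⟨v, fun i => ?_, fun i j hij => ?_⟩
  · have h1 : v i ≤ Finset.univ.sup v := Finset.le_sup (f := v) (Finset.mem_univ i)
    exact lt_of_le_of_lt (h1.trans hm) Nat.lt_two_pow_self
  · by_contra hd
    apply hij
    have h1 : (⟦v i⟧ : Qt c) = ⟦v j⟧ := Quotient.sound ⟨m, hd⟩
    simp only [v, Quotient.out_eq] at h1
    exact Fin.ext (e.injective h1)

/-- A positive certificate for equivalence at the cut `m`. -/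
def Ce (c : ℕ → Fin k) (n m a b : ℕ) : Prop :=
  a < 2 ^ m ∧ b < 2 ^ m ∧ ∃ v : Fin n → ℕ, (∀ i, v i < 2 ^ m) ∧
    (∀ i j, i ≠ j → Dd c m (v i) (v j)) ∧ (∀ i, Dd c m a (v i)) ∧ ∀ i, Dd c m b (v i)

theorem ce_sound {n m a b : ℕ} (hs : ¬ Sp c m (n + 2)) (h : Ce c n m a b) : ¬ Dd c m a b := by
  obtain ⟨ha, hb, v, h1, h2, h3, h4⟩ := h
  intro hd
  apply hs
  refine ⟨Fin.cons a (Fin.cons b v), ?_, ?_⟩
  · intro i
    refine Fin.cases ?_ (fun i => ?_) i
    · simpa using ha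
    · refine Fin.cases ?_ (fun i => ?_) i
      · simpa using hb
      · simpa using h1 i
  · intro i j
    refine Fin.cases ?_ (fun i => ?_) i
    · refine Fin.cases ?_ (fun j => ?_) j
      · intro h; exact absurd rfl h
      · intro _
        refine Fin.cases ?_ (fun j => ?_) j
        · simpa using hd
        · simpa using h3 j
    · refine Fin.cases ?_ (fun j => ?_) j
      · intro _
        refine Fin.cases ?_ (fun i => ?_) i
        · simpa using hd.symm
        · simpa using (h3 i).symm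
      · refine Fin.cases ?_ (fun i => ?_) i
        · refine Fin.cases ?_ (fun j => ?_) j
          · intro h; exact absurd rfl h
          · intro _
            simpa using h4 j
        · refine Fin.cases ?_ (fun j => ?_) j
          · intro _
            simpa using (h4 i).symm
          · intro h
            simp only [Fin.cons_succ]
            exact h2 i j fun he => h (by rw [he])

theorem ce_complete {n m a b : ℕ} (hs : ¬ Sp c m (n + 2)) (h1 : Sp c m (n + 1))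
    (ha : a < 2 ^ m) (hb : b < 2 ^ m) (hd : ¬ Dd c m a b) : Ce c n m a b := by
  obtain ⟨v, hv1, hv2⟩ := h1
  have h3 : ∃ i, ¬ Dd c m a (v i) := by
    by_contra hcon
    push Not at hcon
    apply hs
    refine ⟨Fin.cons a v, ?_, ?_⟩
    · intro i
      refine Fin.cases ?_ (fun i => ?_) i
      · simpa using ha
      · simpa using hv1 i
    · intro i j
      refine Fin.cases ?_ (fun i => ?_) i
      · refine Fin.cases ?_ (fun j => ?_) j
        · intro h; exact absurd rfl h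
        · intro _
          simpa using hcon j
      · refine Fin.cases ?_ (fun j => ?_) j
        · intro _
          simpa using (hcon i).symm
        · intro h
          simp only [Fin.cons_succ]
          exact hv2 i j fun he => h (by rw [he])
  obtain ⟨i0, hi0⟩ := h3
  have key : ∀ j, j ≠ i0 → Dd c m a (v j) := by
    intro j hj
    by_contra hcon
    exact ndd_trans (ndd_symm hcon) hi0 (hv2 j i0 hj)
  refine ⟨ha, hb, fun i => v (i0.succAbove i), fun i => hv1 _, fun i j hij => ?_, fun i => ?_,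
    fun i => ?_⟩
  · exact hv2 _ _ fun h => hij (Fin.succAbove_right_injective h)
  · exact key _ (Fin.succAbove_ne i0 i)
  · have h4 := key _ (Fin.succAbove_ne i0 i)
    by_contra hcon
    exact ndd_trans hd hcon h4

section oracle

variable {A : Set ℕ}

theorem re_dd (hc : Gr A c) : REIn A fun x : ℕ × (ℕ × ℕ) => Dd c x.1 x.2.1 x.2.2 := by
  unfold Dd
  refine REIn.ex (S := fun (x : ℕ × (ℕ × ℕ)) (t : ℕ) => 1 ≤ t ∧
    c (x.2.1 + 2 ^ x.1 * t) ≠ c (x.2.2 + 2 ^ x.1 * t)) ?_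
  refine REIn.and (REIn.of_re (RE.le (by fun_prop) (by fun_prop))) ?_
  refine re_gr (S := fun u : Fin k × Fin k => u.1 ≠ u.2)
    (f := fun x : (ℕ × (ℕ × ℕ)) × ℕ => (c (x.1.2.1 + 2 ^ x.1.1 * x.2),
      c (x.1.2.2 + 2 ^ x.1.1 * x.2))) (REIn.of_re (RE.ne (by fun_prop) (by fun_prop))) ?_
  refine Gr.pair ?_ ?_
  · exact hc.pre (g := fun x : (ℕ × (ℕ × ℕ)) × ℕ => x.1.2.1 + 2 ^ x.1.1 * x.2) (by fun_prop)
  · exact hc.pre (g := fun x : (ℕ × (ℕ × ℕ)) × ℕ => x.1.2.2 + 2 ^ x.1.1 * x.2) (by fun_prop)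

theorem c_app {α : Type*} [Primcodable α] {n : ℕ} (i : Fin n) {f : α → (Fin n → ℕ)}
    (hf : Computable f) : Computable fun a => f a i :=
  (Primrec.fin_app.comp Primrec.id (Primrec.const i)).to_comp.comp hf

theorem re_ce (hc : Gr A c) (n : ℕ) :
    REIn A fun x : ℕ × (ℕ × ℕ) => Ce c n x.1 x.2.1 x.2.2 := by
  unfold Ce
  refine REIn.and (REIn.of_re (RE.lt (by fun_prop) (by fun_prop)))
    (REIn.and (REIn.of_re (RE.lt (by fun_prop) (by fun_prop))) ?_)
  refine REIn.ex (S := fun (x : ℕ × (ℕ × ℕ)) (v : Fin n → ℕ) => (∀ i, v i < 2 ^ x.1) ∧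
    (∀ i j, i ≠ j → Dd c x.1 (v i) (v j)) ∧ (∀ i, Dd c x.1 x.2.1 (v i)) ∧
      ∀ i, Dd c x.1 x.2.2 (v i)) ?_
  have hv : ∀ i : Fin n, Computable fun x : (ℕ × (ℕ × ℕ)) × (Fin n → ℕ) => x.2 i := fun i =>
    c_app i Computable.snd
  refine REIn.and ?_ (REIn.and ?_ (REIn.and ?_ ?_))
  · refine re_all_fin fun i => ?_
    have := hv i
    exact REIn.of_re (RE.lt (by fun_prop) (by fun_prop))
  · refine re_all_fin fun i => re_all_fin fun j => ?_
    by_cases hij : i = j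
    · refine (REIn.of_re (RE.const True)).of_eq fun x => ?_
      simp [hij]
    · have h1 := hv i
      have h2 := hv j
      refine ((re_dd hc).comp (f := fun x : (ℕ × (ℕ × ℕ)) × (Fin n → ℕ) =>
        (x.1.1, (x.2 i, x.2 j))) (by fun_prop)).of_eq fun x => ?_
      simp [hij]
  · refine re_all_fin fun i => ?_
    have h1 := hv i
    exact (re_dd hc).comp (f := fun x : (ℕ × (ℕ × ℕ)) × (Fin n → ℕ) =>
        (x.1.1, (x.1.2.1, x.2 i))) (by fun_prop)
  · refine re_all_fin fun i => ?_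
    have h1 := hv i
    exact (re_dd hc).comp (f := fun x : (ℕ × (ℕ × ℕ)) × (Fin n → ℕ) =>
        (x.1.1, (x.1.2.2, x.2 i))) (by fun_prop)

theorem re_sp (hc : Gr A c) (n : ℕ) : REIn A fun m : ℕ => Sp c m n := by
  unfold Sp
  refine REIn.ex (S := fun (m : ℕ) (v : Fin n → ℕ) => (∀ i, v i < 2 ^ m) ∧
    (∀ i j, i ≠ j → Dd c m (v i) (v j))) ?_
  have hv : ∀ i : Fin n, Computable fun x : ℕ × (Fin n → ℕ) => x.2 i := fun i =>
    c_app i Computable.snd
  refine REIn.and ?_ ?_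
  · refine re_all_fin fun i => ?_
    have := hv i
    exact REIn.of_re (RE.lt (by fun_prop) (by fun_prop))
  · refine re_all_fin fun i => re_all_fin fun j => ?_
    by_cases hij : i = j
    · refine (REIn.of_re (RE.const True)).of_eq fun x => ?_
      simp [hij]
    · have h1 := hv i
      have h2 := hv j
      refine ((re_dd hc).comp (f := fun x : ℕ × (Fin n → ℕ) =>
        (x.1, (x.2 i, x.2 j))) (by fun_prop)).of_eq fun x => ?_
      simp [hij]

end oracle

end Pool.Agent.Y545.HM
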