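import Pool.Agent.Y545.HM.Low3

/-!
The dichotomy for memory bounds, one state at infinitely many cuts, and the jump, relative to an
arbitrary oracle.
-/

namespace Pool.Agent.Y545.HM

open Encodable Pool.Agent.Helper446 Pool.Agent.Helper446.Defs Pool.Agent.Helper446.Oracle

variable {A : Set ℕ}

/-- strictly increasing bound for a function -/
def Mu (u : ℕ → ℕ) : ℕ → ℕ
  | 0 => u 0 + 1
  | n + 1 => Mu u n + u (n + 1) + 1

theorem gr_Mu {u : ℕ → ℕ} (hu : Gr A u) : Gr A (Mu u) := by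
  have hF : Gr A fun y : ℕ × ℕ => (y.1 + 1, y.2 + u (y.1 + 1) + 1) := by
    have h1 : Gr A fun y : ℕ × ℕ => u (y.1 + 1) := hu.pre (g := fun y : ℕ × ℕ => y.1 + 1)
      (by fun_prop)
    have h2 := (Gr.of_comp (A := A) (f := fun y : ℕ × ℕ => y) (by fun_prop)).pair h1
    exact Gr.post (g := fun z : (ℕ × ℕ) × ℕ => (z.1.1 + 1, z.1.2 + z.2 + 1)) (by fun_prop) h2
  have h3 : Gr A fun n : ℕ => ((fun y : ℕ × ℕ => (y.1 + 1, y.2 + u (y.1 + 1) + 1))^[n]
      (0, u 0 + 1)).2 := Gr.post (g := fun z : ℕ × ℕ => z.2) (by fun_prop)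
        (hF.iter (0, u 0 + 1))
  refine h3.of_eq fun n => ?_
  have h4 : ∀ n, (fun y : ℕ × ℕ => (y.1 + 1, y.2 + u (y.1 + 1) + 1))^[n] (0, u 0 + 1) =
      (n, Mu u n) := by
    intro n
    induction n with
    | zero => rfl
    | succ n ih => rw [Function.iterate_succ_apply', ih]; rfl
  rw [h4]

/-- An unbounded inverse. -/
theorem exists_inv {u : ℕ → ℕ} (hu : Gr A u) :
    ∃ h : ℕ → ℕ, Gr A h ∧ Monotone h ∧ (∀ j, ∃ m, h m = j) ∧
      ∀ m n, h m = n + 1 → u n ≤ m := by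
  classical
  have hM : Gr A (Mu u) := gr_Mu hu
  have hM_succ : ∀ n, Mu u (n + 1) = Mu u n + u (n + 1) + 1 := fun n => rfl
  have hMmono : StrictMono (Mu u) := strictMono_nat_of_lt_succ fun n => by
    rw [hM_succ]; omega
  have hMu : ∀ n, u n ≤ Mu u n := by
    intro n
    cases n with
    | zero => exact Nat.le_succ _
    | succ n => rw [hM_succ]; omega
  have hex : ∀ m, ∃ n, m < Mu u n := fun m => ⟨m + 1, by
    have := hMmono.id_le (m + 1)
    simp only [id] at this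
    omega⟩
  let h : ℕ → ℕ := fun m => Nat.find (p := fun n => m < Mu u n) (hex m)
  have h1 : ∀ m, m < Mu u (h m) := fun m => Nat.find_spec (p := fun n => m < Mu u n) (hex m)
  have h2 : ∀ m i, i < h m → Mu u i ≤ m := fun m i hi => by
    have := Nat.find_min (p := fun n => m < Mu u n) (hex m) hi
    omega
  refine ⟨h, ?_, ?_, ?_, ?_⟩
  · have h3 : REIn A fun p : ℕ × ℕ => p.1 < Mu u p.2 ∧ ∀ i < p.2, Mu u i ≤ p.1 := by
      refine REIn.and ?_ ?_
      · refine re_gr (S := fun u : ℕ × ℕ => u.1 < u.2) (f := fun p : ℕ × ℕ => (p.1, Mu u p.2))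
          (REIn.of_re (RE.lt (by fun_prop) (by fun_prop))) ?_
        exact (Gr.of_comp (by fun_prop)).pair (hM.pre (g := fun p : ℕ × ℕ => p.2) (by fun_prop))
      · refine REIn.all_lt (S := fun (p : ℕ × ℕ) i => Mu u i ≤ p.1) ?_ (by fun_prop)
        refine re_gr (S := fun u : ℕ × ℕ => u.1 ≤ u.2) (f := fun x : (ℕ × ℕ) × ℕ =>
          (Mu u x.2, x.1.1)) (REIn.of_re (RE.le (by fun_prop) (by fun_prop))) ?_
        exact (hM.pre (g := fun x : (ℕ × ℕ) × ℕ => x.2) (by fun_prop)).pair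
          (Gr.of_comp (by fun_prop))
    refine h3.of_eq fun p => ?_
    constructor
    · rintro ⟨h4, h5⟩
      refine (Nat.find_eq_iff (p := fun n => p.1 < Mu u n) (hex p.1)).2 ⟨h4, fun i hi => ?_⟩
      have := h5 i hi
      omega
    · intro h4
      rw [← h4]
      exact ⟨h1 _, fun i hi => h2 _ i hi⟩
  · intro m m' hmm
    exact Nat.find_min' (p := fun n => m < Mu u n) (hex m) (lt_of_le_of_lt hmm (h1 m'))
  · intro j
    cases j with
    | zero =>
      refine ⟨0, Nat.le_zero.1 (Nat.find_min' (p := fun n => 0 < Mu u n) (hex 0) ?_)⟩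
      exact Nat.succ_pos _
    | succ j =>
      refine ⟨Mu u j, le_antisymm ?_ ?_⟩
      · exact Nat.find_min' (p := fun n => Mu u j < Mu u n) (hex (Mu u j))
          (hMmono (Nat.lt_succ_self j))
      · by_contra hcon
        have h3 := hMmono.monotone (show h (Mu u j) ≤ j by omega)
        have h4 := h1 (Mu u j)
        omega
  · intro m n hmn
    exact (hMu n).trans (h2 m n (by omega))

variable {k : ℕ} {c : ℕ → Fin k}

theorem sp_le_of_mem {m n W : ℕ} (hs : Sp c m n) (h : Mem c m W) : n ≤ W := by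
  obtain ⟨v, h1, h2⟩ := hs
  obtain ⟨f, hf⟩ := h
  have h3 : Function.Injective fun i => f (v i) := by
    intro i j hij
    by_contra hne
    obtain ⟨t, ht, h4⟩ := h2 i j hne
    exact h4 (hf _ (h1 i) _ (h1 j) hij t ht)
  simpa using Fintype.card_le_of_injective _ h3

/-- Colourings with too small memory have solutions decidable in the oracle. -/
theorem small {w : ℕ → ℕ} (hmono : Monotone w)
    (hw : ¬ ∃ w' : ℕ → ℕ, Gr A w' ∧ (∀ B, ∃ m, B ≤ w' m) ∧ ∀ m, w' m ≤ w m)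
    (hc : Gr A c) (hm : ∀ m, Mem c m (w m)) :
    ∃ X : Set ℕ, Sol c X ∧ Dec A X := by
  classical
  by_contra hcon
  have h1 : ∀ W, ∃ m, Sp c m (W + 1) := by
    intro W
    by_contra h1
    push Not at h1
    exact hcon (bounded hc (C := Set.univ)
      ((REIn.of_re (S := fun _ : ℕ => True) (RE.const True)).of_eq fun a => by simp)
      Set.infinite_univ (W := W) fun m _ => h1 m)
  have h2 : REIn A fun x : ℕ × ℕ => ∃ l : List ℕ, l.length = x.1 + 1 ∧
      (∀ z ∈ l, z < 2 ^ x.2) ∧ ∀ i < x.1 + 1, ∀ j < i, ∃ p : ℕ × ℕ, l[i]? = some p.1 ∧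
        l[j]? = some p.2 ∧ Dd c x.2 p.1 p.2 := by
    refine REIn.ex (S := fun (x : ℕ × ℕ) (l : List ℕ) => l.length = x.1 + 1 ∧
      (∀ z ∈ l, z < 2 ^ x.2) ∧ ∀ i < x.1 + 1, ∀ j < i, ∃ p : ℕ × ℕ, l[i]? = some p.1 ∧
        l[j]? = some p.2 ∧ Dd c x.2 p.1 p.2) ?_
    refine REIn.and (REIn.of_re (RE.eq (by fun_prop) (by fun_prop))) (REIn.and ?_ ?_)
    · refine REIn.of_re (RE.all_mem (p := fun (y : (ℕ × ℕ) × List ℕ) (z : ℕ) =>
        z < 2 ^ y.1.2) ?_ (by fun_prop))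
      exact RE.lt (by fun_prop) (by fun_prop)
    · refine REIn.all_lt (S := fun (y : (ℕ × ℕ) × List ℕ) (i : ℕ) => ∀ j < i, ∃ p : ℕ × ℕ,
        y.2[i]? = some p.1 ∧ y.2[j]? = some p.2 ∧ Dd c y.1.2 p.1 p.2) ?_ (by fun_prop)
      refine REIn.all_lt (S := fun (y : ((ℕ × ℕ) × List ℕ) × ℕ) (j : ℕ) => ∃ p : ℕ × ℕ,
        y.1.2[y.2]? = some p.1 ∧ y.1.2[j]? = some p.2 ∧ Dd c y.1.1.2 p.1 p.2) ?_ (by fun_prop)
      refine REIn.ex (S := fun (y : (((ℕ × ℕ) × List ℕ) × ℕ) × ℕ) (p : ℕ × ℕ) =>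
        y.1.1.2[y.1.2]? = some p.1 ∧ y.1.1.2[y.2]? = some p.2 ∧ Dd c y.1.1.1.2 p.1 p.2) ?_
      refine REIn.and (REIn.of_re (RE.eq (by fun_prop) (by fun_prop)))
        (REIn.and (REIn.of_re (RE.eq (by fun_prop) (by fun_prop))) ?_)
      exact (re_dd hc).comp
        (f := fun y : ((((ℕ × ℕ) × List ℕ) × ℕ) × ℕ) × (ℕ × ℕ) =>
          (y.1.1.1.1.2, (y.2.1, y.2.2))) (by fun_prop)
  obtain ⟨u, hu, huR⟩ := choice (R := fun n m : ℕ => ∃ l : List ℕ, l.length = n + 1 ∧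
      (∀ z ∈ l, z < 2 ^ m) ∧ ∀ i < n + 1, ∀ j < i, ∃ p : ℕ × ℕ, l[i]? = some p.1 ∧
        l[j]? = some p.2 ∧ Dd c m p.1 p.2) h2 (by
    intro n
    obtain ⟨m, v, hv1, hv2⟩ := h1 n
    refine ⟨m, List.ofFn v, List.length_ofFn, ?_, ?_⟩
    · intro z hz
      obtain ⟨i, rfl⟩ := (List.mem_ofFn' v z).1 hz
      exact hv1 i
    · intro i hi j hj
      refine ⟨(v ⟨i, hi⟩, v ⟨j, by omega⟩), ?_, ?_, ?_⟩
      · rw [List.getElem?_ofFn, dif_pos hi]
      · rw [List.getElem?_ofFn, dif_pos (show j < n + 1 by omega)]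
      · refine hv2 _ _ fun h => ?_
        have := congrArg Fin.val h
        simp only at this
        omega)
  have h3 : ∀ n, n + 1 ≤ w (u n) := by
    intro n
    obtain ⟨l, hl, hl1, hl2⟩ := huR n
    have hs : Sp c (u n) (n + 1) := by
      refine ⟨fun i => l[i.1]'(by omega), fun i => hl1 _ (List.getElem_mem _), ?_⟩
      have h4 : ∀ i j : Fin (n + 1), j.1 < i.1 →
          Dd c (u n) (l[i.1]'(by omega)) (l[j.1]'(by omega)) := by
        intro i j hji
        obtain ⟨p, hp1, hp2, hp3⟩ := hl2 i.1 i.2 j.1 hji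
        rw [List.getElem?_eq_getElem (by omega)] at hp1 hp2
        rw [← Option.some.inj hp1, ← Option.some.inj hp2] at hp3
        exact hp3
      intro i j hij
      rcases Nat.lt_or_gt_of_ne (fun h => hij (Fin.ext h)) with h5 | h5
      · exact (h4 j i h5).symm
      · exact h4 i j h5
    exact sp_le_of_mem hs (hm _)
  obtain ⟨h, hh1, hh2, hh3, hh4⟩ := exists_inv hu
  refine hw ⟨h, hh1, fun B => ?_, fun m => ?_⟩
  · obtain ⟨m, hm⟩ := hh3 B
    exact ⟨m, hm.ge⟩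
  · rcases hn : h m with _ | n
    · exact Nat.zero_le _
    · exact (h3 n).trans (hmono (hh4 m n hn))

/-- The digit map of a monotone surjective function has a digit map as right inverse. -/
theorem ph_ph {h e : ℕ → ℕ} (he : ∀ j, h (e j) = j) (n : ℕ) : ph h (ph e n) = n := by
  unfold ph
  rw [su_cd, Finset.image_image]
  have : h ∘ e = id := funext he
  rw [this, Finset.image_id, cd_su]

theorem exists_right {B : Set ℕ} {h : ℕ → ℕ} (hh : Gr B h) (hmono : Monotone h)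
    (hs : ∀ j, ∃ m, h m = j) : ∃ e : ℕ → ℕ, Gr B e ∧ StrictMono e ∧ ∀ j, h (e j) = j := by
  obtain ⟨e, he, he2⟩ := choice (R := fun j m : ℕ => h m = j)
    (REIn.comp hh (f := fun x : ℕ × ℕ => (x.2, x.1)) (by fun_prop)) hs
  refine ⟨e, he, fun a b hab => ?_, he2⟩
  by_contra hcon
  have h1 := hmono (Nat.le_of_not_lt hcon)
  rw [he2, he2] at h1
  omega

theorem transfer_back {B X : Set ℕ} {h : ℕ → ℕ} (hh : Gr B h) (hB : Dec B X)
    (hmono : Monotone h) (hs : ∀ j, ∃ m, h m = j) {k : ℕ} {c : ℕ → Fin k} (hX : Sol c X) :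
    ∃ Y : Set ℕ, Sol (c ∘ ph h) Y ∧ Dec B Y := by
  obtain ⟨e, he1, he2, he3⟩ := exists_right hh hmono hs
  have h1 : (c ∘ ph h) ∘ ph e = c := funext fun n => congrArg c (ph_ph he3 n)
  refine transfer he1 hB he2.monotone (fun B => ⟨B + 1, ?_⟩) (c := c ∘ ph h) (Y := X)
    (by rw [h1]; exact hX)
  have := he2.id_le (B + 1)
  simp only [id] at this
  omega

/-- Colourings with memory above an unbounded function decidable in the oracle have the full
strength. -/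
theorem large {w : ℕ → ℕ} (hmono : Monotone w) (h2 : 2 ≤ w 0)
    (hw : ∃ w' : ℕ → ℕ, Gr A w' ∧ (∀ B, ∃ m, B ≤ w' m) ∧ ∀ m, w' m ≤ w m) :
    ∃ φ : ℕ → ℕ, Gr A φ ∧ (∀ n, 0 < n → 0 < φ n) ∧ ∀ (k : ℕ) (c : ℕ → Fin k),
      (∀ m, Mem (c ∘ φ) m (w m)) ∧
      (∀ B Y, Dec B A → Dec B Y → Sol (c ∘ φ) Y → ∃ X : Set ℕ, Sol c X ∧ Dec B X) ∧
      ∀ B X, Dec B A → Dec B X → Sol c X → ∃ Y : Set ℕ, Sol (c ∘ φ) Y ∧ Dec B Y := by
  obtain ⟨w', hw1, hw2, hw3⟩ := hw
  have hR : REIn A fun x : ℕ × ℕ => 2 ^ (x.1 + 2) ≤ w' x.2 := by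
    refine re_gr (S := fun u : ℕ × ℕ => u.1 ≤ u.2) (f := fun x : ℕ × ℕ =>
      (2 ^ (x.1 + 2), w' x.2)) (REIn.of_re (RE.le (by fun_prop) (by fun_prop))) ?_
    exact (Gr.of_comp (by fun_prop)).pair (hw1.pre (g := fun x : ℕ × ℕ => x.2) (by fun_prop))
  obtain ⟨u, hu, huR⟩ := choice (R := fun n m : ℕ => 2 ^ (n + 2) ≤ w' m) hR (fun n => hw2 _)
  obtain ⟨h, hh1, hh2, hh3, hh4⟩ := exists_inv hu
  have h3 : ∀ m, 2 ^ (h m + 1) ≤ w m := by
    intro m
    rcases hn : h m with _ | n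
    · have := hmono (Nat.zero_le m)
      simp only [Nat.zero_add, pow_one]
      omega
    · exact (huR n).trans ((hw3 _).trans (hmono (hh4 m n hn)))
  refine ⟨ph h, gr_ph hh1, fun n hn => ph_pos hn, fun k c => ⟨fun m => ?_,
    fun B Y hBA hBY hY => ?_, fun B X hBA hBX hX => ?_⟩⟩
  · refine mem_ph c ?_ fun i hi => (h3 i).trans (hmono hi.le)
    have := hmono (Nat.zero_le m)
    omega
  · refine transfer (hh1.lift hBA) hBY hh2 (fun j => ?_) hY
    obtain ⟨m, hm⟩ := hh3 (j + 1)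
    exact ⟨m, by omega⟩
  · exact transfer_back (hh1.lift hBA) hBX hh2 hh3 hX

/-- One state at infinitely many cuts: solutions decidable in the oracle. -/
theorem one_state (hc : Gr A c) (hinf : {m | Mem c m 1}.Infinite) :
    ∃ X : Set ℕ, Sol c X ∧ Dec A X := by
  classical
  obtain ⟨j, hj⟩ := Finite.exists_infinite_fiber fun p : ℕ => c (2 ^ p)
  have hj' : ((fun p : ℕ => c (2 ^ p)) ⁻¹' {j}).Infinite := Set.infinite_coe_iff.1 hj
  have htot : ∀ m, ∃ p, m ≤ p ∧ ∀ a < 2 ^ m, c (a + 2 ^ p) = j := by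
    intro m
    obtain ⟨m', hm', hle⟩ := exists_ge_mem hinf m
    obtain ⟨p, hp, hmp⟩ := exists_ge_mem hj' m'
    refine ⟨p, by omega, fun a ha => ?_⟩
    obtain ⟨f, hf⟩ := hm'
    have h1 : a < 2 ^ m' := lt_of_lt_of_le ha (Nat.pow_le_pow_right (by norm_num) hle)
    have h2 := hf a h1 0 (by positivity) (Subsingleton.elim _ _) (2 ^ (p - m'))
      Nat.one_le_two_pow
    have h3 : (2 : ℕ) ^ m' * 2 ^ (p - m') = 2 ^ p := by
      rw [← pow_add]
      congr 1
      omega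
    rw [h3, Nat.zero_add] at h2
    rw [h2]
    exact hp
  have hre : REIn A fun x : ℕ × ℕ => x.1 ≤ x.2 ∧ ∀ a < 2 ^ x.1, c (a + 2 ^ x.2) = j := by
    refine REIn.and (REIn.of_re (RE.le (by fun_prop) (by fun_prop))) ?_
    refine REIn.all_lt (S := fun (x : ℕ × ℕ) a => c (a + 2 ^ x.2) = j) ?_ (by fun_prop)
    exact REIn.comp hc (f := fun x : (ℕ × ℕ) × ℕ => (x.2 + 2 ^ x.1.2, j)) (by fun_prop)
  obtain ⟨g, hg, hgR⟩ := choice hre htot
  let cut : ℕ → ℕ := fun n => (fun m => g m + 1)^[n] 0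
  have hcut : Gr A cut := Gr.iter (Gr.post (g := fun m : ℕ => m + 1) (by fun_prop) hg) 0
  have hcut_succ : ∀ n, cut (n + 1) = g (cut n) + 1 := fun n =>
    Function.iterate_succ_apply' (fun m => g m + 1) n 0
  let P : ℕ → ℕ := fun n => g (cut n)
  have h1 : ∀ n, cut n ≤ P n := fun n => (hgR (cut n)).1
  have h2 : ∀ n, P n < cut (n + 1) := fun n => by
    rw [hcut_succ]; exact Nat.lt_succ_self _
  have hPmono : StrictMono P := strictMono_nat_of_lt_succ fun n =>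
    lt_of_lt_of_le (h2 n) (h1 (n + 1))
  let x : ℕ → ℕ := fun n => 2 ^ P n
  have hx : Gr A x := Gr.post (g := fun m : ℕ => 2 ^ m) (by fun_prop) (hg.comp hcut)
  have hxmono : StrictMono x := fun a b hab =>
    Nat.pow_lt_pow_right (by norm_num) (hPmono hab)
  refine ⟨Set.range x, ⟨Set.infinite_range_of_injective hxmono.injective, ?_, j, ?_⟩,
    range_dec hx hxmono⟩
  · rintro ⟨n, hn⟩
    have : 0 < x n := by positivity
    omega
  · intro F hF hne
    rw [← Set.image_univ] at hF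
    obtain ⟨G, -, rfl⟩ := Finset.subset_set_image_iff.1 hF
    have hGne : G.Nonempty := Finset.image_nonempty.1 hne
    rw [Finset.sum_image (fun a _ b _ h => hxmono.injective h)]
    let n := G.max' hGne
    have hn : n ∈ G := G.max'_mem hGne
    have h5 : G.erase n ⊆ Finset.range n := by
      intro i hi
      have h6 := G.le_max' i (Finset.mem_of_mem_erase hi)
      have h7 := Finset.ne_of_mem_erase hi
      exact Finset.mem_range.2 (lt_of_le_of_ne h6 h7)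
    have h6 : ∑ i ∈ G.erase n, x i < 2 ^ cut n := sg_lt h1 h2 n _ h5
    rw [← Finset.sum_erase_add _ _ hn]
    exact (hgR (cut n)).2 _ h6

/-- Finite eventual index: one jump is enough. -/
theorem upper (hc : Gr A c) {W : ℕ} (hW : Ix c W) :
    ∃ S : Set ℕ, REIn A (· ∈ S) ∧ ∃ X : Set ℕ, Sol c X ∧ Dec (join A S) X := by
  refine ⟨{e | Dd c e.unpair.1 e.unpair.2.unpair.1 e.unpair.2.unpair.2}, ?_, ?_⟩
  · exact (re_dd hc).comp (f := fun e : ℕ => (e.unpair.1, (e.unpair.2.unpair.1,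
      e.unpair.2.unpair.2))) (by fun_prop)
  · refine of_index (hc.lift dec_left) ?_ hW
    have h1 := (dec_right (A := A)
      (B := {e : ℕ | Dd c e.unpair.1 e.unpair.2.unpair.1 e.unpair.2.unpair.2})).2
    refine (h1.comp (f := fun x : ℕ × (ℕ × ℕ) => Nat.pair x.1 (Nat.pair x.2.1 x.2.2))
      (by fun_prop)).of_eq fun x => ?_
    simp only [Set.mem_ofPred_eq, Nat.unpair_pair]

theorem exists_q {S : ℕ → Prop} (hS : REIn A S) : ∃ q : ℕ → ℕ → Bool,
    Gr A (fun p : ℕ × ℕ => q p.1 p.2) ∧ ∀ x, S x ↔ ∃ n, q x n = true := by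
  classical
  obtain ⟨R, hR, h0⟩ := hS
  obtain ⟨q, hq, hq2⟩ := RE.re_iff.1 hR
  let d : ℕ → (List ℕ × List ℕ) × ℕ := fun e =>
    (decode (α := (List ℕ × List ℕ) × ℕ) e).getD (([], []), 0)
  have hd : Computable d := Primrec.option_getD.to_comp.comp (by fun_prop) (by fun_prop)
  have hq' : Computable fun x : ℕ × ℕ => q (x.1, (d x.2).1) (d x.2).2 :=
    hq.comp (g := fun x : ℕ × ℕ => (x.1, (d x.2).1))
      (h := fun x : ℕ × ℕ => (d x.2).2) (by fun_prop) (by fun_prop)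
  have h1 : DP A fun x : ℕ × ℕ => q (x.1, (d x.2).1) (d x.2).2 = true ∧ Ok A (d x.2).1 :=
    DP.and (dp_eq hq' (by fun_prop)) ⟨re_ok (by fun_prop), re_not_ok (by fun_prop)⟩
  refine ⟨fun x n => decide (q (x, (d n).1) (d n).2 = true ∧ Ok A (d n).1), ?_, fun x => ?_⟩
  · have h2 : REIn A fun y : (ℕ × ℕ) × Bool =>
        ((q (y.1.1, (d y.1.2).1) (d y.1.2).2 = true ∧ Ok A (d y.1.2).1) ∧ y.2 = true) ∨
        (¬ (q (y.1.1, (d y.1.2).1) (d y.1.2).2 = true ∧ Ok A (d y.1.2).1) ∧ y.2 = false) := by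
      refine REIn.or (REIn.and ?_ (REIn.of_re (RE.eq (by fun_prop) (by fun_prop))))
        (REIn.and ?_ (REIn.of_re (RE.eq (by fun_prop) (by fun_prop))))
      · exact h1.1.comp (f := fun y : (ℕ × ℕ) × Bool => y.1) (by fun_prop)
      · exact h1.2.comp (f := fun y : (ℕ × ℕ) × Bool => y.1) (by fun_prop)
    refine h2.of_eq fun y => ?_
    by_cases hy : q (y.1.1, (d y.1.2).1) (d y.1.2).2 = true ∧ Ok A (d y.1.2).1
    · simp only [hy, true_and, and_self, not_true_eq_false, false_and, or_false, decide_true]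
      exact eq_comm
    · simp only [hy, false_and, not_false_eq_true, true_and, false_or, decide_false]
      exact eq_comm
  · rw [h0]
    constructor
    · rintro ⟨c, hc, hok⟩
      obtain ⟨t, ht⟩ := (hq2 (x, c)).1 hc
      refine ⟨encode (c, t), ?_⟩
      have : d (encode (c, t)) = (c, t) := by
        simp only [d]
        rw [encodek, Option.getD_some]
      rw [decide_eq_true_iff, this]
      exact ⟨ht, hok⟩
    · rintro ⟨n, hn⟩
      rw [decide_eq_true_iff] at hn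
      exact ⟨(d n).1, (hq2 (x, (d n).1)).2 ⟨_, hn.1⟩, hn.2⟩

/-- Two states at infinitely many cuts can code the jump. -/
theorem lower {S : Set ℕ} (hS : REIn A (· ∈ S)) : ∃ c : ℕ → Fin 2, Gr A c ∧
    {m | Mem c m 2}.Infinite ∧ ∀ B Y, Dec B A → Dec B Y → Sol c Y → Dec B S := by
  obtain ⟨q, hq, hq2⟩ := exists_q hS
  refine ⟨cl q, gr_cl hq, tc_infinite.mono fun m hm => mem_cl hm,
    fun B Y hBA hBY hY => ⟨re_lift hS hBA, ?_⟩⟩
  exact (re_not_k (hq.lift hBA) hBY hY).of_eq fun x => not_congr (hq2 x).symm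

end Pool.Agent.Y545.HM
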