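import Pool.Agent.Y545.HM.Dich

/-!
The classification over Turing ideals.
-/

namespace Pool.Agent.Y545.HM

open Encodable Pool.Agent.Helper446 Pool.Agent.Helper446.Defs Pool.Agent.Helper446.Oracle

/-- Turing ideals -/
def Idl (I : Set (Set ℕ)) : Prop :=
  (∃ A, A ∈ I) ∧ (∀ A ∈ I, ∀ B, Dec A B → B ∈ I) ∧ ∀ A ∈ I, ∀ B ∈ I, join A B ∈ I

/-- the function is computable from a member -/
def InI {k : Type*} [Primcodable k] (I : Set (Set ℕ)) (f : ℕ → k) : Prop := ∃ A ∈ I, Gr A f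

/-- closed under enumerability -/
def Jmp (I : Set (Set ℕ)) : Prop := ∀ A ∈ I, ∀ S : Set ℕ, REIn A (· ∈ S) → S ∈ I

/-- Hindman's theorem in `I` for the colourings with the property `P` -/
def HTI (I : Set (Set ℕ)) (P : ∀ k : ℕ, (ℕ → Fin k) → Prop) : Prop :=
  ∀ (k : ℕ) (c : ℕ → Fin k), InI I c → P k c → ∃ X ∈ I, Sol c X

/-- at most `W` eventual classes among the numbers below `2 ^ m` -/
def Evl {k : ℕ} (c : ℕ → Fin k) (m W : ℕ) : Prop :=
  ∀ v : Fin (W + 1) → ℕ, (∀ i, v i < 2 ^ m) → ∃ i j, i ≠ j ∧ ∃ n, ∀ t, 1 ≤ t →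
    c (v i + 2 ^ n * t) = c (v j + 2 ^ n * t)

variable {I : Set (Set ℕ)} {k : ℕ} {c : ℕ → Fin k} {w : ℕ → ℕ}

theorem evl_of_mem {m W : ℕ} (h : Mem c m W) : Evl c m W := by
  intro v hv
  obtain ⟨f, hf⟩ := h
  obtain ⟨i, j, hij, he⟩ := Fintype.exists_ne_map_eq_of_card_lt (fun i => f (v i)) (by simp)
  exact ⟨i, j, hij, m, hf _ (hv i) _ (hv j) he⟩

theorem evl_of_ix {m W : ℕ} (h : Ix c W) : Evl c m W := fun v _ => h v

theorem Evl.mono {m W W' : ℕ} (hW : W ≤ W') (h : Evl c m W) : Evl c m W' := by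
  intro v hv
  obtain ⟨i, j, hij, n, hn⟩ := h (fun i => v (Fin.castLE (by omega) i)) (fun i => hv _)
  exact ⟨_, _, fun h => hij (Fin.castLE_injective _ h), n, hn⟩

theorem ix_of_evl {W : ℕ} (h : ∀ m, Evl c m W) : Ix c W := by
  intro v
  refine h (Finset.univ.sup v) v fun i => ?_
  exact lt_of_le_of_lt (Finset.le_sup (f := v) (Finset.mem_univ i)) Nat.lt_two_pow_self

/-- unbounded function of the ideal below `w` -/
def Dom (I : Set (Set ℕ)) (w : ℕ → ℕ) : Prop :=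
  ∃ w' : ℕ → ℕ, InI I w' ∧ (∀ B, ∃ m, B ≤ w' m) ∧ ∀ m, w' m ≤ w m

theorem HTI.mono {P Q : ∀ k : ℕ, (ℕ → Fin k) → Prop} (h : HTI I Q)
    (hPQ : ∀ k (c : ℕ → Fin k), P k c → Q k c) : HTI I P :=
  fun k c hc hP => h k c hc (hPQ k c hP)

/-- Memory above an unbounded function of the ideal: full strength. -/
theorem idl_large (hI : Idl I) (hmono : Monotone w) (h2 : 2 ≤ w 0) (hw : Dom I w)
    (h : HTI I fun _ c => ∀ m, Mem c m (w m)) : HTI I fun _ _ => True := by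
  obtain ⟨w', ⟨A, hA, hw1⟩, hw2, hw3⟩ := hw
  obtain ⟨φ, hφ, -, hφ2⟩ := large hmono h2 ⟨w', hw1, hw2, hw3⟩
  rintro k c ⟨B, hB, hc⟩ -
  obtain ⟨hm, hY, -⟩ := hφ2 k c
  have hAB := hI.2.2 A hA B hB
  obtain ⟨Y, hYI, hYs⟩ := h k (c ∘ φ) ⟨join A B, hAB,
    (hc.lift dec_right).comp (hφ.lift dec_left)⟩ hm
  have hAY := hI.2.2 A hA Y hYI
  obtain ⟨X, hX, hXd⟩ := hY (join A Y) Y dec_left dec_right hYs
  exact ⟨X, hI.2.1 _ hAY _ hXd, hX⟩

/-- Memory above no unbounded function of the ideal: true in the ideal. -/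
theorem idl_small (hI : Idl I) (hmono : Monotone w) (hw : ¬ Dom I w) :
    HTI I fun _ c => ∀ m, Mem c m (w m) := by
  rintro k c ⟨A, hA, hc⟩ hm
  obtain ⟨X, hX, hXd⟩ := small hmono
    (fun ⟨w', h1, h2, h3⟩ => hw ⟨w', ⟨A, hA, h1⟩, h2, h3⟩) hc hm
  exact ⟨X, hI.2.1 A hA _ hXd, hX⟩

/-- finite eventual index: closure under the jump is enough -/
theorem idl_index (hI : Idl I) (hJ : Jmp I) : HTI I fun _ c => ∃ W, Ix c W := by
  rintro k c ⟨A, hA, hc⟩ ⟨W, hW⟩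
  obtain ⟨S, hS, X, hX, hXd⟩ := upper hc hW
  exact ⟨X, hI.2.1 _ (hI.2.2 A hA S (hJ A hA S hS)) _ hXd, hX⟩

/-- two states at infinitely many cuts: closure under the jump is needed -/
theorem idl_jump (hI : Idl I)
    (h : HTI I fun k c => k = 2 ∧ {m | Mem c m 2}.Infinite) : Jmp I := by
  intro A hA S hS
  obtain ⟨c, hc, hc2, hc3⟩ := lower hS
  obtain ⟨Y, hY, hYs⟩ := h 2 c ⟨A, hA, hc⟩ ⟨rfl, hc2⟩
  exact hI.2.1 _ (hI.2.2 A hA Y hY) _ (hc3 (join A Y) Y dec_left dec_right hYs)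

/-- eventual index above no unbounded function of a jump closed ideal is bounded -/
theorem idl_bdd (hJ : Jmp I) (hmono : Monotone w) (hw : ¬ Dom I w)
    (hc : InI I c) (he : ∀ m, Evl c m (w m)) : ∃ W, Ix c W := by
  classical
  by_contra hcon
  push Not at hcon
  have h1 : ∀ W, ∃ m, ¬ Evl c m W := by
    intro W
    by_contra h1
    push Not at h1
    exact hcon W (ix_of_evl h1)
  obtain ⟨A, hA, hc⟩ := hc
  let S : Set ℕ := {e | Dd c e.unpair.1 e.unpair.2.unpair.1 e.unpair.2.unpair.2}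
  have hS : REIn A (· ∈ S) := (re_dd hc).comp (f := fun e : ℕ => (e.unpair.1,
    (e.unpair.2.unpair.1, e.unpair.2.unpair.2))) (by fun_prop)
  have hSI : S ∈ I := hJ A hA S hS
  have hnS : REIn S fun x : ℕ × (ℕ × ℕ) => ¬ Dd c x.1 x.2.1 x.2.2 := by
    refine ((REIn.not_mem (A := S) (f := fun x : ℕ × (ℕ × ℕ) => Nat.pair x.1
      (Nat.pair x.2.1 x.2.2)) (by fun_prop))).of_eq fun x => ?_
    simp only [S, Set.mem_ofPred_eq, Nat.unpair_pair]
  let T : Set ℕ := {e | ∃ m, ¬ Dd c m e.unpair.1 e.unpair.2}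
  have hT : REIn S (· ∈ T) := by
    refine REIn.ex (S := fun (e m : ℕ) => ¬ Dd c m e.unpair.1 e.unpair.2) ?_
    exact hnS.comp (f := fun p : ℕ × ℕ => (p.2, (p.1.unpair.1, p.1.unpair.2))) (by fun_prop)
  have hTI : T ∈ I := hJ S hSI T hT
  have hnT : REIn T fun x : ℕ × ℕ => ∀ m, Dd c m x.1 x.2 := by
    refine ((REIn.not_mem (A := T) (f := fun x : ℕ × ℕ => Nat.pair x.1 x.2)
      (by fun_prop))).of_eq fun x => ?_
    simp only [T, Set.mem_ofPred_eq, Nat.unpair_pair]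
    push Not
    rfl
  have h2 : REIn T fun x : ℕ × ℕ => ∃ l : List ℕ, l.length = x.1 + 1 ∧
      (∀ z ∈ l, z < 2 ^ x.2) ∧ ∀ i < x.1 + 1, ∀ j < i, ∃ p : ℕ × ℕ, l[i]? = some p.1 ∧
        l[j]? = some p.2 ∧ ∀ m, Dd c m p.1 p.2 := by
    refine REIn.ex (S := fun (x : ℕ × ℕ) (l : List ℕ) => l.length = x.1 + 1 ∧
      (∀ z ∈ l, z < 2 ^ x.2) ∧ ∀ i < x.1 + 1, ∀ j < i, ∃ p : ℕ × ℕ, l[i]? = some p.1 ∧
        l[j]? = some p.2 ∧ ∀ m, Dd c m p.1 p.2) ?_
    refine REIn.and (REIn.of_re (RE.eq (by fun_prop) (by fun_prop))) (REIn.and ?_ ?_)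
    · refine REIn.of_re (RE.all_mem (p := fun (y : (ℕ × ℕ) × List ℕ) (z : ℕ) =>
        z < 2 ^ y.1.2) ?_ (by fun_prop))
      exact RE.lt (by fun_prop) (by fun_prop)
    · refine REIn.all_lt (S := fun (y : (ℕ × ℕ) × List ℕ) (i : ℕ) => ∀ j < i, ∃ p : ℕ × ℕ,
        y.2[i]? = some p.1 ∧ y.2[j]? = some p.2 ∧ ∀ m, Dd c m p.1 p.2) ?_ (by fun_prop)
      refine REIn.all_lt (S := fun (y : ((ℕ × ℕ) × List ℕ) × ℕ) (j : ℕ) => ∃ p : ℕ × ℕ,
        y.1.2[y.2]? = some p.1 ∧ y.1.2[j]? = some p.2 ∧ ∀ m, Dd c m p.1 p.2) ?_ (by fun_prop)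
      refine REIn.ex (S := fun (y : (((ℕ × ℕ) × List ℕ) × ℕ) × ℕ) (p : ℕ × ℕ) =>
        y.1.1.2[y.1.2]? = some p.1 ∧ y.1.1.2[y.2]? = some p.2 ∧ ∀ m, Dd c m p.1 p.2) ?_
      refine REIn.and (REIn.of_re (RE.eq (by fun_prop) (by fun_prop)))
        (REIn.and (REIn.of_re (RE.eq (by fun_prop) (by fun_prop))) ?_)
      exact hnT.comp (f := fun y : ((((ℕ × ℕ) × List ℕ) × ℕ) × ℕ) × (ℕ × ℕ) => y.2)
        (by fun_prop)
  obtain ⟨u, hu, huR⟩ := choice (R := fun n m : ℕ => ∃ l : List ℕ, l.length = n + 1 ∧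
      (∀ z ∈ l, z < 2 ^ m) ∧ ∀ i < n + 1, ∀ j < i, ∃ p : ℕ × ℕ, l[i]? = some p.1 ∧
        l[j]? = some p.2 ∧ ∀ m, Dd c m p.1 p.2) h2 (by
    intro n
    obtain ⟨m, hm⟩ := h1 n
    unfold Evl at hm
    push Not at hm
    obtain ⟨v, hv1, hv2⟩ := hm
    refine ⟨m, List.ofFn v, List.length_ofFn, ?_, ?_⟩
    · intro z hz
      obtain ⟨i, rfl⟩ := (List.mem_ofFn' v z).1 hz
      exact hv1 i
    · intro i hi j hj
      refine ⟨(v ⟨i, hi⟩, v ⟨j, by omega⟩), ?_, ?_, ?_⟩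
      · rw [List.getElem?_ofFn, dif_pos hi]
      · rw [List.getElem?_ofFn, dif_pos (show j < n + 1 by omega)]
      · intro m'
        refine hv2 _ _ (fun h => ?_) m'
        have := congrArg Fin.val h
        simp only at this
        omega)
  have h3 : ∀ n, n + 1 ≤ w (u n) := by
    intro n
    by_contra hlt
    have hlt' : w (u n) + 1 ≤ n + 1 := by omega
    obtain ⟨l, hl, hl1, hl2⟩ := huR n
    obtain ⟨i, j, hij, m, hm⟩ := he (u n) (fun i => l[i.1]'(by have := i.2; omega))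
      (fun i => hl1 _ (List.getElem_mem _))
    have h4 : ∀ i j : Fin (w (u n) + 1), j.1 < i.1 →
        Dd c m (l[i.1]'(by have := i.2; omega)) (l[j.1]'(by have := j.2; omega)) := by
      intro i j hji
      obtain ⟨p, hp1, hp2, hp3⟩ := hl2 i.1 (by have := i.2; omega) j.1 hji
      rw [List.getElem?_eq_getElem (by have := i.2; omega)] at hp1
      rw [List.getElem?_eq_getElem (by have := j.2; omega)] at hp2
      rw [← Option.some.inj hp1, ← Option.some.inj hp2] at hp3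
      exact hp3 m
    rcases Nat.lt_or_gt_of_ne (fun h => hij (Fin.ext h)) with h5 | h5
    · exact ndd_symm (ndd_iff.2 hm) (h4 j i h5)
    · exact (ndd_iff.2 hm) (h4 i j h5)
  obtain ⟨h, hh1, hh2, hh3, hh4⟩ := exists_inv hu
  refine hw ⟨h, ⟨T, hTI, hh1⟩, fun B => ?_, fun m => ?_⟩
  · obtain ⟨m, hm⟩ := hh3 B
    exact ⟨m, hm.ge⟩
  · rcases hn : h m with _ | n
    · exact Nat.zero_le _
    · exact (h3 n).trans (hmono (hh4 m n hn))

theorem two_states {w : ℕ → ℕ} (hmono : Monotone w) (h2 : 2 ≤ w 0) {k : ℕ} {c : ℕ → Fin k}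
    (h : {m | Mem c m 2}.Infinite) (m : ℕ) : Evl c m (w m) :=
  (evl_of_ix (ix_of_mem h)).mono (h2.trans (hmono (Nat.zero_le m)))

/-- The classification by memory at all cuts. -/
theorem class_mem (hI : Idl I) (hmono : Monotone w) (h2 : 2 ≤ w 0) :
    (HTI I fun _ c => ∀ m, Mem c m (w m)) ↔ (Dom I w → HTI I fun _ _ => True) := by
  constructor
  · intro h hw
    exact idl_large hI hmono h2 hw h
  · intro h
    by_cases hw : Dom I w
    · exact (h hw).mono fun _ _ _ => trivial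
    · exact idl_small hI hmono hw

/-- The classification by the eventual index. -/
theorem class_ev (hI : Idl I) (hmono : Monotone w) (h2 : 2 ≤ w 0) :
    (HTI I fun _ c => ∀ m, Evl c m (w m)) ↔ Jmp I ∧ (Dom I w → HTI I fun _ _ => True) := by
  constructor
  · intro h
    refine ⟨idl_jump hI (h.mono fun k c hc => fun m => two_states hmono h2 hc.2 m), fun hw => ?_⟩
    exact idl_large hI hmono h2 hw (h.mono fun k c hc => fun m => evl_of_mem (hc m))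
  · rintro ⟨hJ, h⟩
    by_cases hw : Dom I w
    · exact (h hw).mono fun _ _ _ => trivial
    · intro k c hc he
      exact idl_index hI hJ k c hc (idl_bdd hJ hmono hw hc he)

/-- Two states at infinitely many cuts, and finite eventual index. -/
theorem class_jump (hI : Idl I) :
    ((HTI I fun k c => k = 2 ∧ {m | Mem c m 2}.Infinite) ↔ Jmp I) ∧
      ((HTI I fun _ c => ∃ W, Ix c W) ↔ Jmp I) := by
  refine ⟨⟨idl_jump hI, fun hJ => ?_⟩, ⟨fun h => ?_, fun hJ => idl_index hI hJ⟩⟩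
  · exact (idl_index hI hJ).mono fun k c hc => ⟨2, ix_of_mem hc.2⟩
  · exact idl_jump hI (h.mono fun k c hc => ⟨2, ix_of_mem hc.2⟩)

end Pool.Agent.Y545.HM
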