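import Pool.Agent.Y545.HM.Slow

/-!
Counting the gaps of a finite set of numbers.
-/

namespace Pool.Agent.Y545.HM

open Encodable Pool.Agent.Helper446 Pool.Agent.Helper446.Defs Pool.Agent.Helper446.Oracle

section gaps

open Classical in
/-- The elements of `s` with a next element `b` in `s` such that `P a b`. -/
noncomputable def Gp (s : Finset ℕ) (P : ℕ → ℕ → Prop) : Finset ℕ :=
  s.filter fun a => ∃ b ∈ s, a < b ∧ (∀ j ∈ s, a < j → b ≤ j) ∧ P a b

variable {s t : Finset ℕ} {P Q : ℕ → ℕ → Prop}

theorem gp_congr (h : ∀ a ∈ s, ∀ b ∈ s, a < b → (P a b ↔ Q a b)) : Gp s P = Gp s Q := by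
  classical
  unfold Gp
  refine Finset.filter_congr fun a ha => ?_
  constructor
  · rintro ⟨b, hb, h1, h2, h3⟩
    exact ⟨b, hb, h1, h2, (h a ha b hb h1).1 h3⟩
  · rintro ⟨b, hb, h1, h2, h3⟩
    exact ⟨b, hb, h1, h2, (h a ha b hb h1).2 h3⟩

theorem gp_empty : Gp ∅ P = ∅ := by
  unfold Gp
  simp

theorem gp_union (hst : ∀ a ∈ s, ∀ b ∈ t, a < b) {u v : ℕ} (hu : u ∈ s) (hu' : ∀ a ∈ s, a ≤ u)
    (hv : v ∈ t) (hv' : ∀ b ∈ t, v ≤ b) [Decidable (P u v)] :
    (Gp (s ∪ t) P).card = (Gp s P).card + (if P u v then 1 else 0) + (Gp t P).card := by
  classical
  have h1 : Gp (s ∪ t) P = (Gp s P ∪ if P u v then {u} else ∅) ∪ Gp t P := by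
    ext a
    by_cases hat : a ∈ t
    · have has : a ∉ s := fun h => lt_irrefl a (hst a h a hat)
      have hau : a ≠ u := fun h => has (h ▸ hu)
      have e1 : a ∈ Gp t P → a ∈ Gp (s ∪ t) P := by
        unfold Gp
        simp only [Finset.mem_filter, Finset.mem_union]
        rintro ⟨-, b, hb, h1, h2, h3⟩
        refine ⟨Or.inr hat, b, Or.inr hb, h1, fun j hj haj => ?_, h3⟩
        rcases hj with hj | hj
        · exact absurd (hst j hj a hat) (by omega)
        · exact h2 j hj haj
      have e2 : a ∈ Gp (s ∪ t) P → a ∈ Gp t P := by
        unfold Gp
        simp only [Finset.mem_filter, Finset.mem_union]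
        rintro ⟨-, b, hb, h1, h2, h3⟩
        refine ⟨hat, b, ?_, h1, fun j hj haj => h2 j (Or.inr hj) haj, h3⟩
        rcases hb with hb | hb
        · exact absurd (hst b hb a hat) (by omega)
        · exact hb
      have e3 : a ∉ Gp s P := fun h => has (Finset.mem_filter.1 h).1
      have e4 : a ∉ (if P u v then {u} else ∅ : Finset ℕ) := by
        split_ifs <;> simp [hau]
      simp only [Finset.mem_union]
      constructor
      · intro h; exact Or.inr (e2 h)
      · rintro ((h | h) | h)
        exacts [absurd h e3, absurd h e4, e1 h]
    · have e0 : a ∉ Gp t P := fun h => hat (Finset.mem_filter.1 h).1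
      by_cases has : a ∈ s
      · by_cases hau : a = u
        · subst hau
          have e1 : a ∉ Gp s P := by
            unfold Gp
            simp only [Finset.mem_filter]
            rintro ⟨-, b, hb, h1, -, -⟩
            have := hu' b hb
            omega
          have e2 : a ∈ Gp (s ∪ t) P ↔ P a v := by
            unfold Gp
            simp only [Finset.mem_filter, Finset.mem_union]
            constructor
            · rintro ⟨-, b, hb, h1, h2, h3⟩
              rcases hb with hb | hb
              · exact absurd (hu' b hb) (by omega)
              · have h4 := h2 v (Or.inr hv) (hst a has v hv)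
                have h5 := hv' b hb
                have h6 : b = v := by omega
                rwa [h6] at h3
            · intro h3
              refine ⟨Or.inl has, v, Or.inr hv, hst a has v hv, fun j hj haj => ?_, h3⟩
              rcases hj with hj | hj
              · exact absurd (hu' j hj) (by omega)
              · exact hv' j hj
          simp only [Finset.mem_union]
          rw [e2]
          constructor
          · intro h
            left; right
            rw [if_pos h]
            exact Finset.mem_singleton_self a
          · rintro ((h | h) | h)
            · exact absurd h e1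
            · by_contra hcon
              rw [if_neg hcon] at h
              simp at h
            · exact absurd h e0
        · have hau' : a < u := lt_of_le_of_ne (hu' a has) hau
          have e1 : a ∈ Gp (s ∪ t) P ↔ a ∈ Gp s P := by
            unfold Gp
            simp only [Finset.mem_filter, Finset.mem_union]
            constructor
            · rintro ⟨-, b, hb, h1, h2, h3⟩
              refine ⟨has, b, ?_, h1, fun j hj haj => h2 j (Or.inl hj) haj, h3⟩
              rcases hb with hb | hb
              · exact hb
              · have h4 := h2 u (Or.inl hu) hau'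
                have h5 := hst u hu b hb
                omega
            · rintro ⟨-, b, hb, h1, h2, h3⟩
              refine ⟨Or.inl has, b, Or.inl hb, h1, fun j hj haj => ?_, h3⟩
              rcases hj with hj | hj
              · exact h2 j hj haj
              · exact (hst b hb j hj).le
          have e2 : a ∉ (if P u v then {u} else ∅ : Finset ℕ) := by
            split_ifs <;> simp [hau]
          simp only [Finset.mem_union]
          rw [e1]
          tauto
      · have e1 : a ∉ Gp (s ∪ t) P := fun h => by
          have := (Finset.mem_filter.1 h).1
          rw [Finset.mem_union] at this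
          tauto
        have e2 : a ∉ Gp s P := fun h => has (Finset.mem_filter.1 h).1
        have e3 : a ∉ (if P u v then {u} else ∅ : Finset ℕ) := by
          have : a ≠ u := fun h => has (h ▸ hu)
          split_ifs <;> simp [this]
        simp only [Finset.mem_union]
        tauto
  have h2 : Disjoint (Gp s P ∪ if P u v then {u} else ∅) (Gp t P) := by
    rw [Finset.disjoint_left]
    intro a ha hb
    have hb' := (Finset.mem_filter.1 hb).1
    have ha' : a ∈ s := by
      rcases Finset.mem_union.1 ha with h | h
      · exact (Finset.mem_filter.1 h).1
      · split_ifs at h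
        · rw [Finset.mem_singleton.1 h]; exact hu
        · simp at h
    exact lt_irrefl a (hst a ha' a hb')
  have h3 : Disjoint (Gp s P) (if P u v then {u} else ∅) := by
    rw [Finset.disjoint_right]
    intro a ha hb
    split_ifs at ha
    · rw [Finset.mem_singleton] at ha
      subst ha
      obtain ⟨-, b, hb, h4, -, -⟩ := Finset.mem_filter.1 hb
      have := hu' b hb
      omega
    · simp at ha
  rw [h1, Finset.card_union_of_disjoint h2, Finset.card_union_of_disjoint h3]
  split_ifs <;> simp

end gaps

end Pool.Agent.Y545.HM
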