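import Pool.Agent.Y545.HM.Low

/-!
The colouring by the parity of the number of very short gaps, along true stages.
-/

namespace Pool.Agent.Y545.HM

open Encodable Pool.Agent.Helper446 Pool.Agent.Helper446.Defs Pool.Agent.Helper446.Oracle

section stages

variable (q : ℕ → ℕ → Bool)

/-- enumerated before stage `s` -/
def Ks (s x : ℕ) : Prop := ∃ n, n < s ∧ q x n = true

/-- the least number which is `s` or is enumerated at stage `s` -/
noncomputable def fe (s : ℕ) : ℕ := by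
  classical
  exact Nat.find (⟨s, Or.inl rfl⟩ : ∃ y, y = s ∨ (Ks q (s + 1) y ∧ ¬ Ks q s y))

/-- approximations of the deficiency set -/
def Dm (m x : ℕ) : Prop := ∃ t, t < m ∧ x < t ∧ fe q t < fe q x

/-- the deficiency set -/
def Df (x : ℕ) : Prop := ∃ t, x < t ∧ fe q t < fe q x

variable {q}

theorem Ks.mono {s t x : ℕ} (hst : s ≤ t) (h : Ks q s x) : Ks q t x := by
  obtain ⟨n, h1, h2⟩ := h
  exact ⟨n, by omega, h2⟩

theorem Dm.mono {s t x : ℕ} (hst : s ≤ t) (h : Dm q s x) : Dm q t x := by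
  obtain ⟨n, h1, h2⟩ := h
  exact ⟨n, by omega, h2⟩

theorem Dm.df {s x : ℕ} (h : Dm q s x) : Df q x := by
  obtain ⟨n, _, h2⟩ := h
  exact ⟨n, h2⟩

theorem fe_spec (s : ℕ) : fe q s = s ∨ (Ks q (s + 1) (fe q s) ∧ ¬ Ks q s (fe q s)) := by
  classical
  unfold fe
  exact Nat.find_spec (⟨s, Or.inl rfl⟩ : ∃ y, y = s ∨ (Ks q (s + 1) y ∧ ¬ Ks q s y))

theorem fe_le {s y : ℕ} (h : y = s ∨ (Ks q (s + 1) y ∧ ¬ Ks q s y)) : fe q s ≤ y := by
  classical
  unfold fe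
  exact Nat.find_min' _ h

theorem fe_eq_iff {s y : ℕ} : fe q s = y ↔ (y = s ∨ (Ks q (s + 1) y ∧ ¬ Ks q s y)) ∧
    ∀ z, z < y → ¬ (z = s ∨ (Ks q (s + 1) z ∧ ¬ Ks q s z)) := by
  constructor
  · rintro rfl
    exact ⟨fe_spec s, fun z hz h => absurd (fe_le h) (by omega)⟩
  · rintro ⟨h1, h2⟩
    have h3 := fe_le h1
    by_contra hcon
    exact h2 (fe q s) (by omega) (fe_spec s)

variable {A : Set ℕ} (hq : Gr A fun p : ℕ × ℕ => q p.1 p.2)

theorem dp_su {α : Type*} [Primcodable α] {f g : α → ℕ} (hf : Computable f) (hg : Computable g) :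
    DP A fun a => g a ∈ su (f a) := DP.of_re (re_mem_su hf hg) (re_not_mem_su hf hg)

include hq in
theorem dp_ks {α : Type*} [Primcodable α] {f g : α → ℕ} (hf : Computable f) (hg : Computable g) :
    DP A fun a => Ks q (f a) (g a) := by
  unfold Ks
  refine DP.ex_lt (p := fun a n => q (g a) n = true) ?_ hf
  exact DP.gr (p := fun b : Bool => b = true) (f := fun x : α × ℕ => q (g x.1) x.2)
    (dp_eq (by fun_prop) (by fun_prop))
    (hq.pre (g := fun x : α × ℕ => (g x.1, x.2)) (by fun_prop))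

include hq in
theorem gr_fe : Gr A (fe q) := by
  have h2 : DP A fun p : ℕ × ℕ => (p.2 = p.1 ∨ (Ks q (p.1 + 1) p.2 ∧ ¬ Ks q p.1 p.2)) :=
    DP.or (dp_eq (by fun_prop) (by fun_prop)) (DP.and (dp_ks hq (by fun_prop) (by fun_prop))
      (dp_ks hq (by fun_prop) (by fun_prop)).not)
  have h1 : DP A fun p : ℕ × ℕ => (p.2 = p.1 ∨ (Ks q (p.1 + 1) p.2 ∧ ¬ Ks q p.1 p.2)) ∧
      ∀ z, z < p.2 → ¬ (z = p.1 ∨ (Ks q (p.1 + 1) z ∧ ¬ Ks q p.1 z)) := by
    refine h2.and ?_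
    refine DP.all_lt (p := fun (p : ℕ × ℕ) z => ¬ (z = p.1 ∨ (Ks q (p.1 + 1) z ∧
      ¬ Ks q p.1 z))) ?_ (by fun_prop)
    exact (h2.comp (f := fun x : (ℕ × ℕ) × ℕ => (x.1.1, x.2)) (by fun_prop)).not
  exact h1.1.of_eq fun p => fe_eq_iff.symm

include hq in
theorem dp_dm {α : Type*} [Primcodable α] {f g : α → ℕ} (hf : Computable f) (hg : Computable g) :
    DP A fun a => Dm q (f a) (g a) := by
  unfold Dm
  refine DP.ex_lt (p := fun a t => g a < t ∧ fe q t < fe q (g a)) ?_ hf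
  refine DP.and (dp_lt (by fun_prop) (by fun_prop)) ?_
  refine DP.gr (p := fun u : ℕ × ℕ => u.1 < u.2) (f := fun x : α × ℕ =>
    (fe q x.2, fe q (g x.1))) (dp_lt (by fun_prop) (by fun_prop)) ?_
  exact ((gr_fe hq).pre (g := fun x : α × ℕ => x.2) (by fun_prop)).pair
    ((gr_fe hq).pre (g := fun x : α × ℕ => g x.1) (by fun_prop))

/-- the function `fe` tends to infinity -/
theorem fe_large (x : ℕ) : ∃ s0, ∀ s, s0 ≤ s → x < fe q s := by
  have h1 : ∀ y, ∃ b, ∀ s, b ≤ s → Ks q (s + 1) y → Ks q s y := by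
    intro y
    by_cases h : ∃ s, Ks q s y
    · obtain ⟨b, hb⟩ := h
      exact ⟨b, fun s hs _ => hb.mono hs⟩
    · exact ⟨0, fun s _ h2 => absurd ⟨_, h2⟩ h⟩
  choose b hb using h1
  refine ⟨(Finset.range (x + 1)).sup b + x + 1, fun s hs => ?_⟩
  by_contra hcon
  have h2 : fe q s ≤ x := by omega
  rcases fe_spec (q := q) s with h3 | ⟨h3, h4⟩
  · omega
  · have h5 : b (fe q s) ≤ (Finset.range (x + 1)).sup b :=
      Finset.le_sup (f := b) (Finset.mem_range.2 (by omega))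
    exact h4 (hb _ s (by omega) h3)

/-- true stages -/
theorem exists_true (N : ℕ) : ∃ s, N ≤ s ∧ ∀ t, s ≤ t → fe q s ≤ fe q t := by
  classical
  have h1 : ∃ v, ∃ s, N ≤ s ∧ fe q s = v := ⟨_, N, le_rfl, rfl⟩
  obtain ⟨s, hs, hv⟩ := Nat.find_spec h1
  refine ⟨s, hs, fun t ht => ?_⟩
  rw [hv]
  exact Nat.find_min' h1 ⟨t, by omega, rfl⟩

/-- true cuts -/
def Tc (q : ℕ → ℕ → Bool) (m : ℕ) : Prop := ∀ x, x < m → Df q x → Dm q m x

theorem tc_infinite : {m | Tc q m}.Infinite := by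
  rw [Set.infinite_iff_exists_gt]
  intro N
  obtain ⟨s, hs, ht⟩ := exists_true (q := q) N
  refine ⟨s + 1, ?_, by omega⟩
  rintro x hx ⟨t, h1, h2⟩
  rcases Nat.lt_or_ge t (s + 1) with h3 | h3
  · exact ⟨t, h3, h1, h2⟩
  · have h4 := ht t (by omega)
    rcases Nat.lt_succ_iff_lt_or_eq.1 hx with h5 | h5
    · exact ⟨s, by omega, h5, by omega⟩
    · subst h5
      omega

/-- reading off the set from the deficiency set -/
theorem not_k_iff (x : ℕ) : (¬ ∃ n, q x n = true) ↔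
    ∃ s, ¬ Df q s ∧ x < fe q s ∧ ¬ Ks q s x := by
  constructor
  · intro h
    obtain ⟨s0, hs0⟩ := fe_large (q := q) x
    obtain ⟨s, hs, ht⟩ := exists_true (q := q) s0
    refine ⟨s, ?_, hs0 s hs, ?_⟩
    · rintro ⟨t, h1, h2⟩
      have := ht t h1.le
      omega
    · rintro ⟨n, -, h1⟩
      exact h ⟨n, h1⟩
  · rintro ⟨s, h1, h2, h3⟩ ⟨n, hn⟩
    have h4 : ∀ t, s ≤ t → ¬ Ks q t x := by
      intro t ht
      induction t, ht using Nat.le_induction with
      | base => exact h3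
      | succ t ht ih =>
        intro h5
        have h6 := fe_le (q := q) (s := t) (Or.inr ⟨h5, ih⟩)
        rcases Nat.eq_or_lt_of_le ht with h7 | h7
        · subst h7
          omega
        · exact h1 ⟨t, h7, by omega⟩
    exact h4 (max s (n + 1)) (le_max_left _ _) ⟨n, by omega, hn⟩

/-- `D` at large stages is right -/
theorem exists_modulus (n : ℕ) : ∃ M, ∀ x, x < n → Df q x → Dm q M x := by
  have h1 : ∀ x, ∃ M, Df q x → Dm q M x := by
    intro x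
    by_cases h : Df q x
    · obtain ⟨t, h1, h2⟩ := h
      exact ⟨t + 1, fun _ => ⟨t, by omega, h1, h2⟩⟩
    · exact ⟨0, fun h2 => absurd h2 h⟩
  choose M hM using h1
  refine ⟨(Finset.range n).sup M, fun x hx hd => (hM x hd).mono ?_⟩
  exact Finset.le_sup (f := M) (Finset.mem_range.2 hx)

end stages

section colouring

variable (q : ℕ → ℕ → Bool)

/-- enumerated by the stage given by an exponent of `n` -/
def En (n x : ℕ) : Prop := ∃ w, w < n ∧ w ∈ su n ∧ Dm q w x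

/-- gap predicates -/
def Vg (E : ℕ → Prop) (a b : ℕ) : Prop := ∃ x, x < a ∧ E x ∧ ¬ Dm q b x

/-- number of gaps -/
noncomputable def nG (E : ℕ → Prop) (n : ℕ) : ℕ := (Gp (su n) (Vg q E)).card

/-- the colouring -/
noncomputable def cl (n : ℕ) : Fin 2 := ⟨nG q (En q n) n % 2, Nat.mod_lt _ (by norm_num)⟩

variable {q}

theorem mem_gp {s : Finset ℕ} {P : ℕ → ℕ → Prop} {a : ℕ} : a ∈ Gp s P ↔
    a ∈ s ∧ ∃ b ∈ s, a < b ∧ (∀ j ∈ s, a < j → b ≤ j) ∧ P a b := by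
  classical
  unfold Gp
  exact Finset.mem_filter

theorem en_iff {n x : ℕ} : En q n x ↔ ∃ w ∈ su n, Dm q w x := by
  unfold En
  constructor
  · rintro ⟨w, _, h1, h2⟩; exact ⟨w, h1, h2⟩
  · rintro ⟨w, h1, h2⟩; exact ⟨w, lt_of_mem_su h1, h1, h2⟩

theorem gr_cl {A : Set ℕ} (hq : Gr A fun p : ℕ × ℕ => q p.1 p.2) : Gr A (cl q) := by
  classical
  have h1 : DP A fun p : ℕ × ℕ => ∃ b, b < p.1 ∧ (b ∈ su p.1 ∧ p.2 < b ∧
      (∀ j, j < b → (j ∉ su p.1 ∨ j ≤ p.2)) ∧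
      ∃ x, x < p.2 ∧ ((∃ w, w < p.1 ∧ (w ∈ su p.1 ∧ Dm q w x)) ∧ ¬ Dm q b x)) := by
    refine DP.ex_lt (p := fun (p : ℕ × ℕ) b => b ∈ su p.1 ∧ p.2 < b ∧
      (∀ j, j < b → (j ∉ su p.1 ∨ j ≤ p.2)) ∧
      ∃ x, x < p.2 ∧ ((∃ w, w < p.1 ∧ (w ∈ su p.1 ∧ Dm q w x)) ∧ ¬ Dm q b x)) ?_ (by fun_prop)
    refine DP.and (dp_su (by fun_prop) (by fun_prop)) (DP.and (dp_lt (by fun_prop) (by fun_prop))
      (DP.and ?_ ?_))
    · refine DP.all_lt (p := fun (y : (ℕ × ℕ) × ℕ) j => (j ∉ su y.1.1 ∨ j ≤ y.1.2)) ?_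
        (by fun_prop)
      exact DP.or (dp_su (by fun_prop) (by fun_prop)).not (dp_le (by fun_prop) (by fun_prop))
    · refine DP.ex_lt (p := fun (y : (ℕ × ℕ) × ℕ) x =>
        (∃ w, w < y.1.1 ∧ (w ∈ su y.1.1 ∧ Dm q w x)) ∧ ¬ Dm q y.2 x) ?_ (by fun_prop)
      refine DP.and ?_ (dp_dm hq (by fun_prop) (by fun_prop)).not
      refine DP.ex_lt (p := fun (y : ((ℕ × ℕ) × ℕ) × ℕ) w => w ∈ su y.1.1.1 ∧ Dm q w y.2) ?_
        (by fun_prop)
      exact DP.and (dp_su (by fun_prop) (by fun_prop)) (dp_dm hq (by fun_prop) (by fun_prop))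
  have h2 : DP A fun p : ℕ × ℕ => p.2 ∈ Gp (su p.1) (Vg q (En q p.1)) := by
    have h3 := (dp_su (f := fun p : ℕ × ℕ => p.1) (g := fun p : ℕ × ℕ => p.2)
      (by fun_prop) (by fun_prop)).and h1
    have h4 : ∀ p : ℕ × ℕ, (p.2 ∈ su p.1 ∧ ∃ b, b < p.1 ∧ (b ∈ su p.1 ∧ p.2 < b ∧
        (∀ j, j < b → (j ∉ su p.1 ∨ j ≤ p.2)) ∧
        ∃ x, x < p.2 ∧ ((∃ w, w < p.1 ∧ (w ∈ su p.1 ∧ Dm q w x)) ∧ ¬ Dm q b x))) ↔
        p.2 ∈ Gp (su p.1) (Vg q (En q p.1)) := by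
      intro p
      rw [mem_gp]
      unfold Vg En
      refine and_congr Iff.rfl ?_
      constructor
      · rintro ⟨b, -, h5, h6, h7, h8⟩
        refine ⟨b, h5, h6, fun j hj hpj => ?_, h8⟩
        by_contra hcon
        rcases h7 j (by omega) with h9 | h9
        · exact h9 hj
        · omega
      · rintro ⟨b, h5, h6, h7, h8⟩
        refine ⟨b, lt_of_mem_su h5, h5, h6, fun j hj => ?_, h8⟩
        by_cases h9 : j ∈ su p.1
        · right
          by_contra hcon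
          have := h7 j h9 (by omega)
          omega
        · exact Or.inl h9
    exact ⟨h3.1.of_eq h4, h3.2.of_eq fun p => not_congr (h4 p)⟩
  have h3 : Gr A fun n : ℕ => ((Finset.range n).filter
      (fun a => a ∈ Gp (su n) (Vg q (En q n)))).card :=
    gr_count (p := fun n a => a ∈ Gp (su n) (Vg q (En q n))) h2 Computable.id
  have h4 : ∀ n : ℕ, ((Finset.range n).filter
      (fun a => a ∈ Gp (su n) (Vg q (En q n)))).card = nG q (En q n) n := by
    intro n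
    unfold nG
    congr 1
    ext a
    rw [Finset.mem_filter, Finset.mem_range]
    constructor
    · exact fun h => h.2
    · intro h
      refine ⟨?_, h⟩
      unfold Gp at h
      exact lt_of_mem_su (Finset.mem_filter.1 h).1
  have h5 : Primrec fun n : ℕ => (⟨n % 2, Nat.mod_lt _ (by norm_num)⟩ : Fin 2) :=
    Primrec.fin_val_iff.1 (Primrec.nat_mod.comp Primrec.id (Primrec.const 2))
  refine (Gr.post h5.to_comp h3).of_eq fun n => ?_
  unfold cl
  simp only [h4]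

/-- Additivity of the number of gaps. -/
theorem nG_add (E : ℕ → Prop) {a m t : ℕ} (ha : a < 2 ^ m) (ha0 : 0 < a) (ht : 0 < t) :
    ∃ u ∈ su a, (∀ i ∈ su a, i ≤ u) ∧ ∃ v ∈ su (2 ^ m * t), m ≤ v ∧
      (∀ i ∈ su (2 ^ m * t), v ≤ i) ∧ (¬ Vg q E u v → nG q E (a + 2 ^ m * t) =
        nG q E a + nG q E (2 ^ m * t)) ∧ (Vg q E u v → nG q E (a + 2 ^ m * t) =
        nG q E a + 1 + nG q E (2 ^ m * t)) := by
  classical
  have h1 := su_nonempty ha0
  have h2 : (su (2 ^ m * t)).Nonempty := su_nonempty (by positivity)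
  have h3 : ∀ i ∈ su a, ∀ j ∈ su (2 ^ m * t), i < j := fun i hi j hj =>
    lt_of_lt_of_le (lt_of_mem_su_of_lt hi ha) (le_of_mem_su hj)
  refine ⟨(su a).max' h1, Finset.max'_mem _ _, fun i hi => Finset.le_max' _ _ hi,
    (su (2 ^ m * t)).min' h2, Finset.min'_mem _ _, le_of_mem_su (Finset.min'_mem _ _),
    fun i hi => Finset.min'_le _ _ hi, fun hn => ?_, fun hn => ?_⟩
  · unfold nG
    rw [su_add ha, gp_union h3 (Finset.max'_mem _ h1) (fun i hi => Finset.le_max' _ _ hi)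
      (Finset.min'_mem _ h2) (fun i hi => Finset.min'_le _ _ hi), if_neg hn, Nat.add_zero]
  · unfold nG
    rw [su_add ha, gp_union h3 (Finset.max'_mem _ h1) (fun i hi => Finset.le_max' _ _ hi)
      (Finset.min'_mem _ h2) (fun i hi => Finset.min'_le _ _ hi), if_pos hn]

theorem en_add {a m t : ℕ} (ha : a < 2 ^ m) (ht : 0 < t) (x : ℕ) :
    En q (a + 2 ^ m * t) x ↔ En q (2 ^ m * t) x := by
  rw [en_iff, en_iff, su_add ha]
  constructor
  · rintro ⟨w, hw, h1⟩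
    rcases Finset.mem_union.1 hw with h2 | h2
    · obtain ⟨w', hw'⟩ : (su (2 ^ m * t)).Nonempty := su_nonempty (by positivity)
      refine ⟨w', hw', h1.mono ?_⟩
      exact (lt_of_lt_of_le (lt_of_mem_su_of_lt h2 ha) (le_of_mem_su hw')).le
    · exact ⟨w, h2, h1⟩
  · rintro ⟨w, hw, h1⟩
    exact ⟨w, Finset.mem_union_right _ hw, h1⟩

theorem nG_congr {E E' : ℕ → Prop} {n m : ℕ} (hn : n < 2 ^ m) (h : ∀ x, x < m → (E x ↔ E' x)) :
    nG q E n = nG q E' n := by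
  unfold nG
  congr 1
  refine gp_congr fun a ha b _ _ => ?_
  have h1 := lt_of_mem_su_of_lt ha hn
  unfold Vg
  constructor
  · rintro ⟨x, h2, h3, h4⟩
    exact ⟨x, h2, (h x (by omega)).1 h3, h4⟩
  · rintro ⟨x, h2, h3, h4⟩
    exact ⟨x, h2, (h x (by omega)).2 h3, h4⟩

theorem mem_cl {m : ℕ} (hm : Tc q m) : Mem (cl q) m 2 := by
  classical
  have key : ∀ a < 2 ^ m, ∀ t, 1 ≤ t → nG q (En q (a + 2 ^ m * t)) (a + 2 ^ m * t) =
      nG q (Dm q m) a + nG q (En q (2 ^ m * t)) (2 ^ m * t) := by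
    intro a ha t ht
    have h0 : En q (a + 2 ^ m * t) = En q (2 ^ m * t) := funext fun x => propext (en_add ha ht x)
    rw [h0]
    have hne : (su (2 ^ m * t)).Nonempty := su_nonempty (by positivity)
    have h1 : ∀ x, x < m → (En q (2 ^ m * t) x ↔ Dm q m x) := by
      intro x hx
      rw [en_iff]
      constructor
      · rintro ⟨w, hw, h2⟩
        exact hm x hx h2.df
      · intro h2
        obtain ⟨w, hw⟩ := hne
        exact ⟨w, hw, h2.mono (le_of_mem_su hw)⟩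
    rcases Nat.eq_zero_or_pos a with h2 | h2
    · subst h2
      have h3 : nG q (Dm q m) 0 = 0 := by
        unfold nG su
        rw [Nat.bitIndices_zero]
        simp [gp_empty]
      rw [h3, Nat.zero_add, Nat.zero_add]
    · obtain ⟨u, hu, -, v, hv, hmv, -, h3, -⟩ := nG_add (q := q) (En q (2 ^ m * t)) ha h2 ht
      rw [h3, nG_congr ha h1]
      rintro ⟨x, hx, h4, h5⟩
      have h6 := lt_of_mem_su_of_lt hu ha
      exact h5 (((h1 x (by omega)).1 h4).mono hmv)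
  refine ⟨fun a => ⟨nG q (Dm q m) a % 2, Nat.mod_lt _ (by norm_num)⟩, fun a ha b hb hab t ht => ?_⟩
  have hab' : nG q (Dm q m) a % 2 = nG q (Dm q m) b % 2 := congrArg Fin.val hab
  apply Fin.ext
  show nG q (En q (a + 2 ^ m * t)) (a + 2 ^ m * t) % 2 =
    nG q (En q (b + 2 ^ m * t)) (b + 2 ^ m * t) % 2
  rw [key a ha t ht, key b hb t ht]
  omega

end colouring

end Pool.Agent.Y545.HM
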