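import Pool.Agent.Y545.HM.Low2

/-!
Solutions for the colouring by very short gaps along true stages compute the enumerated set.
-/

namespace Pool.Agent.Y545.HM

open Encodable Pool.Agent.Helper446 Pool.Agent.Helper446.Defs Pool.Agent.Helper446.Oracle

variable {q : ℕ → ℕ → Bool}

theorem sum_pos_of {Y : Set ℕ} (h0 : 0 ∉ Y) {F : Finset ℕ} (hF : (F : Set ℕ) ⊆ Y)
    (hne : F.Nonempty) : 0 < ∑ x ∈ F, x := by
  refine Finset.sum_pos (fun x hx => ?_) hne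
  rcases Nat.eq_zero_or_pos x with h | h
  · subst h
    exact absurd (hF hx) h0
  · exact h

theorem union_sum {F F' : Finset ℕ} (h : ∀ x ∈ F', ∑ x ∈ F, x < x) :
    ∑ x ∈ F ∪ F', x = ∑ x ∈ F, x + ∑ x ∈ F', x := by
  refine Finset.sum_union ?_
  rw [Finset.disjoint_left]
  intro x hx hx'
  have h1 := h x hx'
  have h2 : x ≤ ∑ x ∈ F, x :=
    Finset.single_le_sum (f := fun x => x) (fun _ _ => Nat.zero_le _) hx
  omega

/-- finite nonempty subsets, as lists -/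
theorem re_lst {B Y : Set ℕ} (hB : Dec B Y) {α : Type*} [Primcodable α] {f : α → List ℕ}
    (hf : Computable f) : REIn B fun a => f a ≠ [] ∧ (f a).Nodup ∧ ∀ x ∈ f a, x ∈ Y := by
  refine REIn.and (REIn.of_re (RE.ne (by fun_prop) (by fun_prop)))
    (REIn.and (REIn.of_re (RE.cp_nodup (by fun_prop))) ?_)
  exact REIn.all_mem (S := fun (_ : α) (x : ℕ) => x ∈ Y)
    (hB.1.comp (f := fun p : α × ℕ => p.2) (by fun_prop)) hf

section

variable {Y : Set ℕ} (hY : Sol (cl q) Y)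

include hY

theorem even_short {F : Finset ℕ} (hF : (F : Set ℕ) ⊆ Y) (hne : F.Nonempty) :
    nG q (Df q) (∑ x ∈ F, x) % 2 = 0 := by
  obtain ⟨hYi, hY0, j, hYc⟩ := hY
  have hn := sum_pos_of hY0 hF hne
  set n := ∑ x ∈ F, x with hndef
  obtain ⟨M0, hM0⟩ := exists_modulus (q := q) n
  obtain ⟨F', hF'1, hF'2, t, ht⟩ := exists_div hYi n (max n M0)
  set M := max n M0 with hM
  have hnM : n ≤ M := le_max_left _ _
  have hMM : M0 ≤ M := le_max_right _ _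
  have hF'Y : (F' : Set ℕ) ⊆ Y := fun x hx => (hF'2 x hx).1
  have ht0 : 0 < t := by
    have h1 := sum_pos_of hY0 hF'Y hF'1
    rw [ht] at h1
    exact Nat.pos_of_mul_pos_left h1
  have hlt : n < 2 ^ M := lt_of_lt_of_le Nat.lt_two_pow_self
    (Nat.pow_le_pow_right (by norm_num) hnM)
  have h1 : cl q (n + 2 ^ M * t) = j := by
    have h2 := hYc (F ∪ F') (by
      rw [Finset.coe_union]
      exact Set.union_subset hF hF'Y) (hne.mono Finset.subset_union_left)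
    rwa [union_sum (fun x hx => (hF'2 x hx).2), ht] at h2
  have h2 : cl q (2 ^ M * t) = j := by
    have h3 := hYc F' hF'Y hF'1
    rwa [ht] at h3
  have h3 : nG q (En q (n + 2 ^ M * t)) (n + 2 ^ M * t) % 2 =
      nG q (En q (2 ^ M * t)) (2 ^ M * t) % 2 := congrArg Fin.val (h1.trans h2.symm)
  have h0 : En q (n + 2 ^ M * t) = En q (2 ^ M * t) :=
    funext fun x => propext (en_add hlt ht0 x)
  rw [h0] at h3
  obtain ⟨u, hu, -, v, hv, hmv, -, h4, -⟩ := nG_add (q := q) (En q (2 ^ M * t)) hlt hn ht0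
  have h5 : ¬ Vg q (En q (2 ^ M * t)) u v := by
    rintro ⟨x, hx, h6, h7⟩
    obtain ⟨w, hw, h8⟩ := en_iff.1 h6
    have h9 := lt_of_mem_su hu
    exact h7 ((hM0 x (by omega) h8.df).mono (by omega))
  rw [h4 h5] at h3
  have h6 : nG q (En q (2 ^ M * t)) n = nG q (Df q) n := by
    refine nG_congr (m := n) Nat.lt_two_pow_self fun x hx => ?_
    constructor
    · intro h6
      obtain ⟨w, hw, h8⟩ := en_iff.1 h6
      exact h8.df
    · intro h6
      obtain ⟨w, hw⟩ : (su (2 ^ M * t)).Nonempty := su_nonempty (by positivity)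
      have := le_of_mem_su hw
      exact en_iff.2 ⟨w, hw, (hM0 x hx h6).mono (by omega)⟩
  rw [h6] at h3
  omega

theorem settled {F F' : Finset ℕ} (hF : (F : Set ℕ) ⊆ Y) (hne : F.Nonempty)
    (hF' : (F' : Set ℕ) ⊆ Y) (hne' : F'.Nonempty) (hlt : ∀ x ∈ F', ∑ x ∈ F, x < x) {M t : ℕ}
    (ht : ∑ x ∈ F', x = 2 ^ M * t) (hM : ∑ x ∈ F, x < 2 ^ M) {u' v' x : ℕ}
    (hu' : u' ∈ su (∑ x ∈ F, x)) (hx : x < u') (hv' : v' ∈ su (∑ x ∈ F', x)) (hD : Df q x) :
    Dm q v' x := by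
  have e1 := even_short hY hF hne
  have e2 := even_short hY hF' hne'
  have e3 := even_short hY (F := F ∪ F') (by
      rw [Finset.coe_union]
      exact Set.union_subset hF hF') (hne.mono Finset.subset_union_left)
  rw [union_sum hlt] at e3
  have hn := sum_pos_of hY.2.1 hF hne
  have hn' := sum_pos_of hY.2.1 hF' hne'
  rw [ht] at e2 e3 hn' hv'
  have ht0 : 0 < t := Nat.pos_of_mul_pos_left hn'
  obtain ⟨u, hu, hu2, v, hv, hmv, hv2, -, h4⟩ := nG_add (q := q) (Df q) hM hn ht0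
  have h5 : ¬ Vg q (Df q) u v := by
    intro h5
    have := h4 h5
    omega
  by_contra hcon
  apply h5
  have h6 := hu2 u' hu'
  refine ⟨x, by omega, hD, fun h7 => hcon (h7.mono (hv2 v' hv'))⟩

end

theorem re_not_df {B Y : Set ℕ} (hq : Gr B fun p : ℕ × ℕ => q p.1 p.2) (hB : Dec B Y)
    (hY : Sol (cl q) Y) : REIn B fun x => ¬ Df q x := by
  classical
  have h1 : REIn B fun x : ℕ => ∃ y : (List ℕ × List ℕ) × (ℕ × ℕ),
      (y.1.1 ≠ [] ∧ y.1.1.Nodup ∧ ∀ z ∈ y.1.1, z ∈ Y) ∧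
      (y.1.2 ≠ [] ∧ y.1.2.Nodup ∧ ∀ z ∈ y.1.2, z ∈ Y) ∧
      (∀ z ∈ y.1.2, y.1.1.sum < z) ∧ y.1.2.sum = 2 ^ y.2.1 * y.2.2 ∧ y.1.1.sum < 2 ^ y.2.1 ∧
      (∃ u, u ∈ su y.1.1.sum ∧ x < u) ∧ ∃ v, v ∈ su y.1.2.sum ∧ ¬ Dm q v x := by
    refine REIn.ex (S := fun (x : ℕ) (y : (List ℕ × List ℕ) × (ℕ × ℕ)) =>
      (y.1.1 ≠ [] ∧ y.1.1.Nodup ∧ ∀ z ∈ y.1.1, z ∈ Y) ∧
      (y.1.2 ≠ [] ∧ y.1.2.Nodup ∧ ∀ z ∈ y.1.2, z ∈ Y) ∧
      (∀ z ∈ y.1.2, y.1.1.sum < z) ∧ y.1.2.sum = 2 ^ y.2.1 * y.2.2 ∧ y.1.1.sum < 2 ^ y.2.1 ∧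
      (∃ u, u ∈ su y.1.1.sum ∧ x < u) ∧ ∃ v, v ∈ su y.1.2.sum ∧ ¬ Dm q v x) ?_
    refine REIn.and ?_ (REIn.and ?_ ?_)
    · exact re_lst hB (f := fun p : ℕ × ((List ℕ × List ℕ) × (ℕ × ℕ)) => p.2.1.1) (by fun_prop)
    · exact re_lst hB (f := fun p : ℕ × ((List ℕ × List ℕ) × (ℕ × ℕ)) => p.2.1.2) (by fun_prop)
    · refine REIn.and ?_ (REIn.and (REIn.of_re (RE.eq (by fun_prop) (by fun_prop)))
        (REIn.and (REIn.of_re (RE.lt (by fun_prop) (by fun_prop))) (REIn.and ?_ ?_)))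
      · refine REIn.of_re (RE.all_mem (p := fun (p : ℕ × ((List ℕ × List ℕ) × (ℕ × ℕ)))
          (z : ℕ) => p.2.1.1.sum < z) ?_ (by fun_prop))
        exact RE.lt (by fun_prop) (by fun_prop)
      · refine REIn.of_re (RE.exN (p := fun (p : ℕ × ((List ℕ × List ℕ) × (ℕ × ℕ))) (u : ℕ) =>
          u ∈ su p.2.1.1.sum ∧ p.1 < u) (RE.and (re_mem_su (by fun_prop) (by fun_prop))
          (RE.lt (by fun_prop) (by fun_prop))))
      · refine REIn.ex (S := fun (p : ℕ × ((List ℕ × List ℕ) × (ℕ × ℕ))) (v : ℕ) =>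
          v ∈ su p.2.1.2.sum ∧ ¬ Dm q v p.1)
          (REIn.and (REIn.of_re (re_mem_su (by fun_prop) (by fun_prop))) ?_)
        exact (dp_dm hq (f := fun p : (ℕ × ((List ℕ × List ℕ) × (ℕ × ℕ))) × ℕ => p.2)
          (g := fun p => p.1.1) (by fun_prop) (by fun_prop)).2
  refine h1.of_eq fun x => ?_
  have hsum : ∀ l : List ℕ, l.Nodup → ∑ z ∈ l.toFinset, z = l.sum := by
    intro l hl
    have h3 := List.sum_toFinset (fun z : ℕ => z) hl
    rw [h3]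
    simp
  constructor
  · rintro ⟨⟨⟨l, l'⟩, ⟨M, t⟩⟩, ⟨a1, a2, a3⟩, ⟨b1, b2, b3⟩, h2, h3, h4, ⟨u, hu, hxu⟩, v, hv, hvx⟩ hD
    simp only at *
    apply hvx
    refine settled hY (F := l.toFinset) (F' := l'.toFinset) (fun z hz => a3 z (by simpa using hz))
      (List.toFinset_nonempty_iff l |>.2 a1) (fun z hz => b3 z (by simpa using hz))
      (List.toFinset_nonempty_iff l' |>.2 b1) ?_ (M := M) (t := t) ?_ ?_ (u' := u) ?_ hxu ?_ hD
    · intro z hz
      rw [hsum l a2]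
      exact h2 z (by simpa using hz)
    · rw [hsum l' b2]; exact h3
    · rw [hsum l a2]; exact h4
    · rw [hsum l a2]; exact hu
    · rw [hsum l' b2]; exact hv
  · intro hD
    obtain ⟨F, hF1, hF2, t, ht⟩ := exists_div hY.1 0 (x + 1)
    obtain ⟨F', hF'1, hF'2, t', ht'⟩ := exists_div hY.1 (∑ z ∈ F, z) (∑ z ∈ F, z)
    have hn := sum_pos_of hY.2.1 (fun z hz => (hF2 z hz).1) hF1
    have hn' := sum_pos_of hY.2.1 (fun z hz => (hF'2 z hz).1) hF'1
    have hne : ∀ F : Finset ℕ, F.Nonempty → F.toList ≠ [] := by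
      intro F hF h1
      rw [Finset.toList_eq_nil] at h1
      exact hF.ne_empty h1
    have hs : ∀ F : Finset ℕ, F.toList.sum = ∑ z ∈ F, z := fun F => Finset.sum_toList F
    refine ⟨((F.toList, F'.toList), (∑ z ∈ F, z, t')), ⟨hne F hF1, F.nodup_toList,
      fun z hz => (hF2 z (Finset.mem_toList.1 hz)).1⟩, ⟨hne F' hF'1, F'.nodup_toList,
      fun z hz => (hF'2 z (Finset.mem_toList.1 hz)).1⟩, fun z hz => ?_, ?_, ?_, ?_, ?_⟩
    · show F.toList.sum < z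
      rw [hs]
      exact (hF'2 z (Finset.mem_toList.1 hz)).2
    · show F'.toList.sum = _
      rw [hs]
      exact ht'
    · show F.toList.sum < _
      rw [hs]
      exact Nat.lt_two_pow_self
    · obtain ⟨u, hu⟩ := su_nonempty hn
      refine ⟨u, ?_, ?_⟩
      · show u ∈ su F.toList.sum
        rw [hs]
        exact hu
      · rw [ht] at hu
        exact le_of_mem_su hu
    · obtain ⟨v, hv⟩ := su_nonempty hn'
      refine ⟨v, ?_, fun h2 => hD h2.df⟩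
      show v ∈ su F'.toList.sum
      rw [hs]
      exact hv

theorem re_not_k {B Y : Set ℕ} (hq : Gr B fun p : ℕ × ℕ => q p.1 p.2) (hB : Dec B Y)
    (hY : Sol (cl q) Y) : REIn B fun x => ¬ ∃ n, q x n = true := by
  have h1 : REIn B fun x : ℕ => ∃ s, ¬ Df q s ∧ x < fe q s ∧ ¬ Ks q s x := by
    refine REIn.ex (S := fun (x s : ℕ) => ¬ Df q s ∧ x < fe q s ∧ ¬ Ks q s x) ?_
    refine REIn.and ?_ (REIn.and ?_ (dp_ks hq (by fun_prop) (by fun_prop)).2)
    · exact (re_not_df hq hB hY).comp (f := fun p : ℕ × ℕ => p.2) (by fun_prop)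
    · refine re_gr (S := fun u : ℕ × ℕ => u.1 < u.2) (f := fun x : ℕ × ℕ => (x.1, fe q x.2))
        (REIn.of_re (RE.lt (by fun_prop) (by fun_prop))) ?_
      exact (Gr.of_comp (by fun_prop)).pair
        ((gr_fe hq).pre (g := fun x : ℕ × ℕ => x.2) (by fun_prop))
  exact h1.of_eq fun x => (not_k_iff x).symm

end Pool.Agent.Y545.HM
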