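import Pool.Agent.Y545.HM.Ora

/-!
More on relative enumerability: change of oracle, iteration, decidable predicates, domains of
partial recursive functions, joins.
-/

namespace Pool.Agent.Y545.HM

open Encodable Pool.Agent.Helper446 Pool.Agent.Helper446.Defs Pool.Agent.Helper446.Oracle

variable {α β γ : Type*} [Primcodable α] [Primcodable β] [Primcodable γ] {A B : Set ℕ}

/-- `A` is decidable in `B` -/
def Dec (B A : Set ℕ) : Prop := REIn B (· ∈ A) ∧ REIn B (· ∉ A)

theorem Dec.rfl : Dec A A := ⟨REIn.mem Computable.id, REIn.not_mem Computable.id⟩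

theorem re_lift {S : α → Prop} (h : REIn A S) (hA : Dec B A) : REIn B S := by
  obtain ⟨R, hR, h1⟩ := h
  have h2 : REIn B fun a : α => ∃ c : List ℕ × List ℕ, R a c ∧
      ((∀ x ∈ c.1, x ∈ A) ∧ ∀ x ∈ c.2, x ∉ A) := by
    refine REIn.ex (S := fun (a : α) (c : List ℕ × List ℕ) => R a c ∧
      ((∀ x ∈ c.1, x ∈ A) ∧ ∀ x ∈ c.2, x ∉ A)) (REIn.and (REIn.of_re hR) (REIn.and ?_ ?_))
    · exact REIn.all_mem (S := fun (_ : α × (List ℕ × List ℕ)) (x : ℕ) => x ∈ A)
        (hA.1.comp (f := fun p : (α × (List ℕ × List ℕ)) × ℕ => p.2) (by fun_prop)) (by fun_prop)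
    · exact REIn.all_mem (S := fun (_ : α × (List ℕ × List ℕ)) (x : ℕ) => x ∉ A)
        (hA.2.comp (f := fun p : (α × (List ℕ × List ℕ)) × ℕ => p.2) (by fun_prop)) (by fun_prop)
  exact h2.of_eq fun a => (h1 a).symm

theorem Gr.lift {f : α → β} (h : Gr A f) (hA : Dec B A) : Gr B f := re_lift h hA

theorem Dec.trans {C : Set ℕ} (h1 : Dec B A) (h2 : Dec C B) : Dec C A :=
  ⟨re_lift h1.1 h2, re_lift h1.2 h2⟩

theorem Gr.iter' {f : α → α} (hf : Gr A f) : Gr A fun p : α × ℕ => f^[p.2] p.1 := by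
  have h1 : REIn A fun p : (α × ℕ) × α => ∃ l : List α, l[0]? = some p.1.1 ∧
      (∀ i < p.1.2, ∃ u : α × α, l[i]? = some u.1 ∧ l[i + 1]? = some u.2 ∧ f u.1 = u.2) ∧
      l[p.1.2]? = some p.2 := by
    refine REIn.ex (S := fun (p : (α × ℕ) × α) (l : List α) => l[0]? = some p.1.1 ∧
      (∀ i < p.1.2, ∃ u : α × α, l[i]? = some u.1 ∧ l[i + 1]? = some u.2 ∧ f u.1 = u.2) ∧
      l[p.1.2]? = some p.2) ?_
    refine REIn.and (REIn.of_re (RE.eq (by fun_prop) (by fun_prop)))
      (REIn.and ?_ (REIn.of_re (RE.eq (by fun_prop) (by fun_prop))))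
    refine REIn.all_lt (S := fun (x : ((α × ℕ) × α) × List α) (i : ℕ) =>
      ∃ u : α × α, x.2[i]? = some u.1 ∧ x.2[i + 1]? = some u.2 ∧ f u.1 = u.2) ?_ (by fun_prop)
    refine REIn.ex (S := fun (x : (((α × ℕ) × α) × List α) × ℕ) (u : α × α) =>
      x.1.2[x.2]? = some u.1 ∧ x.1.2[x.2 + 1]? = some u.2 ∧ f u.1 = u.2) ?_
    refine REIn.and (REIn.of_re (RE.eq (by fun_prop) (by fun_prop)))
      (REIn.and (REIn.of_re (RE.eq (by fun_prop) (by fun_prop))) ?_)
    exact REIn.comp hf (f := fun x : ((((α × ℕ) × α) × List α) × ℕ) × (α × α) => x.2)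
      (by fun_prop)
  refine h1.of_eq fun p => ?_
  obtain ⟨⟨x0, n⟩, y⟩ := p
  simp only
  constructor
  · rintro ⟨l, h0, h2, h3⟩
    have h4 : ∀ i ≤ n, l[i]? = some (f^[i] x0) := by
      intro i
      induction i with
      | zero => intro _; exact h0
      | succ i ih =>
        intro hi
        obtain ⟨u, hu1, hu2, hu3⟩ := h2 i (by omega)
        rw [ih (by omega)] at hu1
        rw [hu2, ← hu3, ← Option.some.inj hu1, Function.iterate_succ_apply']
    rw [h4 n le_rfl] at h3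
    exact Option.some.inj h3
  · rintro rfl
    refine ⟨(List.range (n + 1)).map fun i => f^[i] x0, ?_, ?_, ?_⟩
    · simp
    · intro i hi
      refine ⟨(f^[i] x0, f^[i + 1] x0), ?_, ?_, ?_⟩
      · rw [List.getElem?_map, List.getElem?_range (by omega)]; rfl
      · rw [List.getElem?_map, List.getElem?_range (by omega)]; rfl
      · exact (Function.iterate_succ_apply' f i x0).symm
    · rw [List.getElem?_map, List.getElem?_range (by omega)]; rfl

/-- decidable predicates -/
def DP (A : Set ℕ) (p : α → Prop) : Prop := REIn A p ∧ REIn A fun a => ¬ p a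

theorem DP.of_re {p : α → Prop} (h1 : REPred p) (h2 : REPred fun a => ¬ p a) : DP A p :=
  ⟨REIn.of_re h1, REIn.of_re h2⟩

theorem DP.not {p : α → Prop} (h : DP A p) : DP A fun a => ¬ p a :=
  ⟨h.2, h.1.of_eq fun _ => not_not.symm⟩

theorem DP.and {p q : α → Prop} (h : DP A p) (h' : DP A q) : DP A fun a => p a ∧ q a :=
  ⟨REIn.and h.1 h'.1, (REIn.or h.2 h'.2).of_eq fun _ => not_and_or.symm⟩

theorem DP.or {p q : α → Prop} (h : DP A p) (h' : DP A q) : DP A fun a => p a ∨ q a :=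
  ⟨REIn.or h.1 h'.1, (REIn.and h.2 h'.2).of_eq fun _ => not_or.symm⟩

theorem DP.comp {p : β → Prop} (h : DP A p) {f : α → β} (hf : Computable f) :
    DP A fun a => p (f a) := ⟨REIn.comp h.1 hf, REIn.comp h.2 hf⟩

theorem DP.gr {p : β → Prop} (h : DP A p) {f : α → β} (hf : Gr A f) :
    DP A fun a => p (f a) := ⟨re_gr h.1 hf, re_gr h.2 hf⟩

theorem DP.ex_lt {p : α → ℕ → Prop} (h : DP A fun x : α × ℕ => p x.1 x.2) {f : α → ℕ}
    (hf : Computable f) : DP A fun a => ∃ i, i < f a ∧ p a i := by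
  constructor
  · exact REIn.ex (S := fun a i => i < f a ∧ p a i)
      (REIn.and (REIn.of_re (RE.lt (by fun_prop) (by fun_prop))) h.1)
  · refine (REIn.all_lt (S := fun a i => ¬ p a i) h.2 hf).of_eq fun a => ?_
    push Not
    rfl

theorem DP.all_lt {p : α → ℕ → Prop} (h : DP A fun x : α × ℕ => p x.1 x.2) {f : α → ℕ}
    (hf : Computable f) : DP A fun a => ∀ i, i < f a → p a i := by
  have h1 := (DP.ex_lt (p := fun a i => ¬ p a i) h.not hf).not
  constructor
  · refine h1.1.of_eq fun a => ?_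
    push Not
    rfl
  · refine h1.2.of_eq fun a => ?_
    push Not
    rfl

theorem dp_lt {f g : α → ℕ} (hf : Computable f) (hg : Computable g) : DP A fun a => f a < g a :=
  DP.of_re (RE.lt hf hg) ((RE.le hg hf).of_eq fun _ => not_lt.symm)

theorem dp_le {f g : α → ℕ} (hf : Computable f) (hg : Computable g) : DP A fun a => f a ≤ g a :=
  DP.of_re (RE.le hf hg) ((RE.lt hg hf).of_eq fun _ => not_le.symm)

theorem dp_eq {f g : α → β} (hf : Computable f) (hg : Computable g) : DP A fun a => f a = g a :=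
  DP.of_re (RE.eq hf hg) (RE.ne hf hg)

/-- indicators -/
theorem gr_ind {p : α → Prop} [DecidablePred p] (hp : DP A p) :
    Gr A fun a => if p a then 1 else 0 := by
  have h : REIn A fun x : α × ℕ => (p x.1 ∧ x.2 = 1) ∨ (¬ p x.1 ∧ x.2 = 0) := by
    refine REIn.or (REIn.and ?_ (REIn.of_re (RE.eq (by fun_prop) (by fun_prop))))
      (REIn.and ?_ (REIn.of_re (RE.eq (by fun_prop) (by fun_prop))))
    · exact hp.1.comp (f := fun x : α × ℕ => x.1) (by fun_prop)
    · exact hp.2.comp (f := fun x : α × ℕ => x.1) (by fun_prop)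
  refine h.of_eq fun x => ?_
  by_cases hx : p x.1
  · simp [hx, eq_comm]
  · simp [hx, eq_comm]

/-- counting -/
theorem gr_count {p : α → ℕ → Prop} [∀ a, DecidablePred (p a)]
    (hp : DP A fun x : α × ℕ => p x.1 x.2) {f : α → ℕ} (hf : Computable f) :
    Gr A fun a => ((Finset.range (f a)).filter (p a)).card := by
  classical
  let F : α × (ℕ × ℕ) → α × (ℕ × ℕ) := fun y =>
    (y.1, (y.2.1 + 1, y.2.2 + (if p y.1 y.2.1 then 1 else 0)))
  have hF : Gr A F := by
    have h1 : Gr A fun y : α × (ℕ × ℕ) => (if p y.1 y.2.1 then 1 else 0 : ℕ) :=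
      (gr_ind hp).pre (g := fun y : α × (ℕ × ℕ) => (y.1, y.2.1)) (by fun_prop)
    have h2 := (Gr.of_comp (A := A) (f := fun y : α × (ℕ × ℕ) => y) (by fun_prop)).pair h1
    exact Gr.post (g := fun z : (α × (ℕ × ℕ)) × ℕ => (z.1.1, (z.1.2.1 + 1, z.1.2.2 + z.2)))
      (by fun_prop) h2
  have h3 : Gr A fun a : α => (F^[f a] (a, (0, 0))).2.2 :=
    Gr.post (g := fun z : α × (ℕ × ℕ) => z.2.2) (by fun_prop)
      (hF.iter'.pre (g := fun a : α => ((a, (0, 0)), f a)) (by fun_prop))
  refine h3.of_eq fun a => ?_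
  have h4 : ∀ n, F^[n] (a, (0, 0)) = (a, (n, ((Finset.range n).filter (p a)).card)) := by
    intro n
    induction n with
    | zero => simp
    | succ n ih =>
      rw [Function.iterate_succ_apply', ih]
      simp only [F]
      rw [Finset.range_add_one, Finset.filter_insert]
      by_cases hn : p a n
      · rw [if_pos hn, if_pos hn, Finset.card_insert_of_notMem (by simp)]
      · simp [hn]
  rw [h4]

theorem rfind_dom_iff {Φ : ℕ → ℕ} (hΦ : TotIn A Φ) : ∃ f : ℕ →. ℕ,
    Nat.RecursiveIn {chi A} f ∧ ∀ n, (f n).Dom ↔ ∃ k, Φ (Nat.pair n k) = 0 := by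
  have h5 := Nat.RecursiveIn.rfind hΦ
  refine ⟨fun n => Nat.rfind (fun k => Part.some (decide (Φ (Nat.pair n k) = 0))),
    h5.of_eq fun n => ?_, fun n => ?_⟩
  · congr 1
  · refine Nat.rfind_dom.trans ?_
    constructor
    · rintro ⟨k, hk, -⟩
      exact ⟨k, by simpa using hk⟩
    · rintro ⟨k, hk⟩
      exact ⟨k, by simp [hk], fun {m} _ => by simp⟩

/-- A set enumerable in `A` is the domain of a partial function recursive in `A`. -/
theorem dom_of_re {S : ℕ → Prop} (h : REIn A S) :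
    ∃ f : ℕ →. ℕ, Nat.RecursiveIn {chi A} f ∧ ∀ n, S n ↔ (f n).Dom := by
  obtain ⟨R, hR, hS⟩ := h
  obtain ⟨q, hq, hRq⟩ := RE.re_iff.1 hR
  let cc : ℕ → List ℕ × List ℕ := fun k =>
    (decode (α := List ℕ × List ℕ) k.unpair.1).getD ([], [])
  have hcc : Computable cc :=
    Primrec.option_getD.to_comp.comp (by fun_prop) (by fun_prop)
  let Φ : ℕ → ℕ := fun m =>
    (if q (m.unpair.1, cc m.unpair.2) m.unpair.2.unpair.2 = true then 0 else 1) +
    viol A (cc m.unpair.2) ((cc m.unpair.2).1.length + (cc m.unpair.2).2.length)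
  have hq' : Computable fun m : ℕ => q (m.unpair.1, cc m.unpair.2) m.unpair.2.unpair.2 :=
    hq.comp (g := fun m : ℕ => (m.unpair.1, cc m.unpair.2))
      (h := fun m : ℕ => m.unpair.2.unpair.2) (by fun_prop) (by fun_prop)
  have hΦ1 : TotIn A fun m : ℕ =>
      (if q (m.unpair.1, cc m.unpair.2) m.unpair.2.unpair.2 = true then 0 else 1) :=
    TotIn.of_comp (RE.cite (RE.cp_eq hq' (by fun_prop)) (by fun_prop) (by fun_prop))
  have hΦ2 : TotIn A fun m : ℕ => viol A (cc m.unpair.2)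
      ((cc m.unpair.2).1.length + (cc m.unpair.2).2.length) := by
    have h1 : Computable fun m : ℕ => Nat.pair m.unpair.2.unpair.1
        ((cc m.unpair.2).1.length + (cc m.unpair.2).2.length) := by fun_prop
    refine Nat.RecursiveIn.of_eq (TotIn.viol.comp (TotIn.of_comp h1)) fun m => ?_
    simp only [Nat.unpair_pair]
    rfl
  have hΦ : TotIn A Φ := by
    have h1 : Computable fun m : ℕ => m.unpair.1 + m.unpair.2 := by fun_prop
    refine Nat.RecursiveIn.of_eq ((TotIn.of_comp h1).comp (hΦ1.pair hΦ2)) fun m => ?_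
    simp only [Nat.unpair_pair]
    rfl
  have hkey : ∀ n k, Φ (Nat.pair n k) = 0 → S n := by
    intro n k h0
    simp only [Φ, Nat.unpair_pair] at h0
    have h1 : q (n, cc k) k.unpair.2 = true := by
      by_contra hcon
      rw [if_neg hcon] at h0
      omega
    have h2 : viol A (cc k) ((cc k).1.length + (cc k).2.length) = 0 := by omega
    exact (hS n).2 ⟨cc k, (hRq (n, cc k)).2 ⟨_, h1⟩, (viol_eq_zero _).1 h2⟩
  have hkey2 : ∀ n, S n → ∃ k, Φ (Nat.pair n k) = 0 := by
    intro n hn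
    obtain ⟨c, hc, hok⟩ := (hS n).1 hn
    obtain ⟨t, ht⟩ := (hRq (n, c)).1 hc
    have hck : cc (Nat.pair (encode c) t) = c := by
      simp only [cc, Nat.unpair_pair]
      rw [encodek, Option.getD_some]
    refine ⟨Nat.pair (encode c) t, ?_⟩
    simp only [Φ, Nat.unpair_pair, hck]
    rw [if_pos ht, (viol_eq_zero c).2 hok]
  clear_value Φ
  obtain ⟨f, hf, hf2⟩ := rfind_dom_iff hΦ
  refine ⟨f, hf, fun n => ?_⟩
  rw [hf2]
  exact ⟨hkey2 n, fun ⟨k, hk⟩ => hkey n k hk⟩

theorem re_of_dom {f : ℕ →. ℕ} (hf : Nat.RecursiveIn {chi A} f) :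
    REIn A fun n => (f n).Dom := by
  have h1 : REIn A fun n : ℕ => ∃ y, y ∈ f n :=
    REIn.ex (S := fun (n y : ℕ) => y ∈ f n) (graph_of_recursiveIn hf)
  exact h1.of_eq fun n => Part.dom_iff_mem.symm

/-- the join -/
def join (A B : Set ℕ) : Set ℕ := {n | (∃ a ∈ A, n = 2 * a) ∨ ∃ b ∈ B, n = 2 * b + 1}

theorem mem_join_left {n : ℕ} : 2 * n ∈ join A B ↔ n ∈ A := by
  constructor
  · rintro (⟨a, ha, h⟩ | ⟨b, hb, h⟩)
    · have : n = a := by omega
      rwa [this]
    · omega
  · intro h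
    exact Or.inl ⟨n, h, rfl⟩

theorem mem_join_right {n : ℕ} : 2 * n + 1 ∈ join A B ↔ n ∈ B := by
  constructor
  · rintro (⟨a, ha, h⟩ | ⟨b, hb, h⟩)
    · omega
    · have : n = b := by omega
      rwa [this]
  · intro h
    exact Or.inr ⟨n, h, rfl⟩

theorem dec_left : Dec (join A B) A := by
  constructor
  · exact (REIn.mem (f := fun n : ℕ => 2 * n) (by fun_prop)).of_eq fun n => mem_join_left
  · exact (REIn.not_mem (f := fun n : ℕ => 2 * n) (by fun_prop)).of_eq fun n =>
      not_congr mem_join_left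

theorem dec_right : Dec (join A B) B := by
  constructor
  · exact (REIn.mem (f := fun n : ℕ => 2 * n + 1) (by fun_prop)).of_eq fun n => mem_join_right
  · exact (REIn.not_mem (f := fun n : ℕ => 2 * n + 1) (by fun_prop)).of_eq fun n =>
      not_congr mem_join_right

end Pool.Agent.Y545.HM
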