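import Pool.Agent.Y545.HM.Bdd
import Pool.Agent.Y545.HM.Ora2

/-!
Bounded memory at infinitely many enumerable cuts gives solutions decidable in the oracle.
-/

namespace Pool.Agent.Y545.HM

open Encodable Pool.Agent.Helper446 Pool.Agent.Helper446.Defs Pool.Agent.Helper446.Oracle

variable {k : ℕ} {c : ℕ → Fin k} {A : Set ℕ}

/-- Eventual periodicity of the iterates of a self map of a finite set. -/
theorem exists_period {Q : Type*} [Finite Q] (f : Q → Q) :
    ∃ L, 1 ≤ L ∧ ∀ r, 1 ≤ r → f^[L * r - 1] = f^[L - 1] := by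
  have h0 : ¬ Function.Injective (fun i : ℕ => f^[i]) := not_injective_infinite_finite _
  rw [Function.Injective] at h0
  push Not at h0
  obtain ⟨a, b, hab, hne⟩ := h0
  wlog hlt : a < b generalizing a b
  · exact this b a hab.symm hne.symm (by omega)
  obtain ⟨d, rfl⟩ := Nat.exists_eq_add_of_lt hlt
  have h1 : ∀ m, a ≤ m → f^[m + (d + 1)] = f^[m] := by
    intro m hm
    obtain ⟨u, rfl⟩ := Nat.exists_eq_add_of_le hm
    have h2 : a + u + (d + 1) = u + (a + d + 1) := by ring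
    rw [h2, Function.iterate_add, ← hab, ← Function.iterate_add, Nat.add_comm u a]
  have h2 : ∀ m, a ≤ m → ∀ s, f^[m + (d + 1) * s] = f^[m] := by
    intro m hm s
    induction s with
    | zero => simp
    | succ s ih =>
      rw [Nat.mul_succ, ← Nat.add_assoc, h1 _ (by omega), ih]
  refine ⟨(d + 1) * (a + 1), Nat.mul_pos (by omega) (by omega), fun r hr => ?_⟩
  obtain ⟨r, rfl⟩ := Nat.exists_eq_add_of_le hr
  have h3 : a + 1 ≤ (d + 1) * (a + 1) := Nat.le_mul_of_pos_left _ (by omega)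
  have h4 : (d + 1) * (a + 1) * (1 + r) - 1 =
      ((d + 1) * (a + 1) - 1) + (d + 1) * ((a + 1) * r) := by
    have : (d + 1) * (a + 1) * (1 + r) = (d + 1) * (a + 1) + (d + 1) * ((a + 1) * r) := by ring
    omega
  rw [h4, h2 _ (by omega)]

section seq

/-- sums of chosen powers -/
def sg (P : ℕ → ℕ) (S : Finset ℕ) : ℕ := ∑ i ∈ S, 2 ^ P i

variable {P cut : ℕ → ℕ}

theorem sg_lt (h1 : ∀ n, cut n ≤ P n) (h2 : ∀ n, P n < cut (n + 1)) (n : ℕ) :
    ∀ S ⊆ Finset.range n, sg P S < 2 ^ cut n := by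
  induction n with
  | zero =>
    intro S hS
    have : S = ∅ := by simpa using hS
    rw [this]
    simp [sg]
  | succ n ih =>
    intro S hS
    have h3 : S.erase n ⊆ Finset.range n := by
      intro i hi
      have h4 := Finset.mem_range.1 (hS (Finset.mem_of_mem_erase hi))
      have h5 := Finset.ne_of_mem_erase hi
      exact Finset.mem_range.2 (by omega)
    have h4 := ih _ h3
    have h5 : (2 : ℕ) ^ cut n ≤ 2 ^ P n := Nat.pow_le_pow_right (by norm_num) (h1 n)
    have h6 : (2 : ℕ) ^ (P n + 1) ≤ 2 ^ cut (n + 1) :=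
      Nat.pow_le_pow_right (by norm_num) (h2 n)
    have h7 : sg P S ≤ sg P (S.erase n) + 2 ^ P n := by
      unfold sg
      by_cases hn : n ∈ S
      · rw [Finset.sum_erase_add _ _ hn]
      · rw [Finset.erase_eq_of_notMem hn]; omega
    rw [pow_succ] at h6
    omega

variable [Finite (Qt c)] {X : Qt c → Qt c} {γ : Qt c → Fin k} {i0 : Qt c}

omit [Finite (Qt c)] in
theorem seq_equiv (h1 : ∀ n, cut n ≤ P n) (h2 : ∀ n, P n < cut (n + 1))
    (h3 : ∀ n i, ¬ Dd c (cut (n + 1)) (i.out + 2 ^ P n) (X i).out)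
    (h0 : ¬ Dd c (cut 0) 0 i0.out) (n : ℕ) :
    ∀ S ⊆ Finset.range n, ¬ Dd c (cut n) (sg P S) (X^[S.card] i0).out := by
  induction n with
  | zero =>
    intro S hS
    have : S = ∅ := by simpa using hS
    rw [this]
    simpa [sg] using h0
  | succ n ih =>
    intro S hS
    have h4 : S.erase n ⊆ Finset.range n := by
      intro i hi
      have h4 := Finset.mem_range.1 (hS (Finset.mem_of_mem_erase hi))
      have h5 := Finset.ne_of_mem_erase hi
      exact Finset.mem_range.2 (by omega)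
    have h5 := ih _ h4
    have h6 := h1 n
    have h7 := h2 n
    by_cases hn : n ∈ S
    · have h8 : sg P S = sg P (S.erase n) + 2 ^ P n := by
        unfold sg
        rw [Finset.sum_erase_add _ _ hn]
      have h9 : S.card = (S.erase n).card + 1 := (Finset.card_erase_add_one hn).symm
      rw [h8, h9, Function.iterate_succ_apply']
      have h10 : (2 : ℕ) ^ P n = 2 ^ cut n * 2 ^ (P n - cut n) := by
        rw [← pow_add]
        congr 1
        omega
      refine ndd_trans ?_ (h3 n _)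
      rw [h10]
      exact ndd_add (by omega) h5
    · rw [Finset.erase_eq_of_notMem hn] at h5
      exact ndd_mono (by omega) h5

omit [Finite (Qt c)] in
theorem seq_colour (h1 : ∀ n, cut n ≤ P n) (h2 : ∀ n, P n < cut (n + 1))
    (h3 : ∀ n i, ¬ Dd c (cut (n + 1)) (i.out + 2 ^ P n) (X i).out)
    (h4 : ∀ n i, c (i.out + 2 ^ P n) = γ i)
    (h0 : ¬ Dd c (cut 0) 0 i0.out) {S : Finset ℕ} (hS : S.Nonempty) :
    c (sg P S) = γ (X^[S.card - 1] i0) := by
  let n := S.max' hS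
  have hn : n ∈ S := S.max'_mem hS
  have h5 : S.erase n ⊆ Finset.range n := by
    intro i hi
    have h6 := S.le_max' i (Finset.mem_of_mem_erase hi)
    have h7 := Finset.ne_of_mem_erase hi
    exact Finset.mem_range.2 (lt_of_le_of_ne h6 h7)
  have h6 := seq_equiv h1 h2 h3 h0 n _ h5
  rw [ndd_iff] at h6
  have h7 := h6 (2 ^ (P n - cut n)) Nat.one_le_two_pow
  have h8 : (2 : ℕ) ^ cut n * 2 ^ (P n - cut n) = 2 ^ P n := by
    rw [← pow_add]
    congr 1
    have := h1 n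
    omega
  rw [h8] at h7
  have h9 : sg P S = sg P (S.erase n) + 2 ^ P n := by
    unfold sg
    rw [Finset.sum_erase_add _ _ hn]
  rw [h9, h7, h4, Finset.card_erase_of_mem hn]

end seq

/-- block sums -/
def bs (P : ℕ → ℕ) (L n : ℕ) : ℕ := ∑ i ∈ Finset.range L, 2 ^ P (L * n + i)

theorem gr_bs {P : ℕ → ℕ} (hP : Gr A P) (L : ℕ) : Gr A (bs P L) := by
  have h : ∀ l, Gr A fun n => ∑ i ∈ Finset.range l, 2 ^ P (L * n + i) := by
    intro l
    induction l with
    | zero => exact (Gr.of_comp (f := fun _ : ℕ => 0) (by fun_prop)).of_eq fun n => by simp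
    | succ l ih =>
      have h1 : Gr A fun n => P (L * n + l) := hP.pre (g := fun n => L * n + l) (by fun_prop)
      have h2 := Gr.post (g := fun p : ℕ × ℕ => p.1 + 2 ^ p.2) (by fun_prop) (ih.pair h1)
      exact h2.of_eq fun n => by rw [Finset.sum_range_succ]
  exact h L

/-- the indices in the blocks of `G` -/
def blk (L : ℕ) (G : Finset ℕ) : Finset ℕ :=
  (G ×ˢ Finset.range L).image fun q => L * q.1 + q.2

theorem blk_inj (L : ℕ) (G : Finset ℕ) :
    Set.InjOn (fun q : ℕ × ℕ => L * q.1 + q.2) (G ×ˢ Finset.range L : Finset (ℕ × ℕ)) := by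
  rintro ⟨a, i⟩ hq ⟨b, j⟩ hq' h
  simp only [Finset.coe_product, Set.mem_prod, Finset.mem_coe, Finset.mem_range] at hq hq'
  have h : L * a + i = L * b + j := h
  have h1 : a = b := by
    have h2 : (L * a + i) / L = (L * b + j) / L := by rw [h]
    rwa [Nat.mul_add_div (by omega), Nat.mul_add_div (by omega), Nat.div_eq_of_lt hq.2,
      Nat.div_eq_of_lt hq'.2, Nat.add_zero, Nat.add_zero] at h2
  subst h1
  have : i = j := by omega
  rw [this]

theorem card_blk (L : ℕ) (G : Finset ℕ) : (blk L G).card = L * G.card := by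
  unfold blk
  rw [Finset.card_image_of_injOn (blk_inj L G), Finset.card_product, Finset.card_range,
    Nat.mul_comm]

theorem sg_blk (P : ℕ → ℕ) (L : ℕ) (G : Finset ℕ) : sg P (blk L G) = ∑ n ∈ G, bs P L n := by
  unfold sg blk bs
  rw [Finset.sum_image (blk_inj L G), Finset.sum_product]

/-- the relation of one step of the construction -/
def Rs (c : ℕ → Fin k) (C : Set ℕ) (n : ℕ) (X : Qt c → Qt c) (γ : Qt c → Fin k) (m : ℕ)
    (q : ℕ × ℕ) : Prop :=
  m ≤ q.1 ∧ q.1 < q.2 ∧ q.2 ∈ C ∧ (∀ i : Qt c, Ce c n q.2 (i.out + 2 ^ q.1) (X i).out) ∧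
    ∀ i : Qt c, c (i.out + 2 ^ q.1) = γ i

theorem re_rs [Finite (Qt c)] (hc : Gr A c) {C : Set ℕ} (hC : REIn A (· ∈ C)) (n : ℕ)
    (X : Qt c → Qt c) (γ : Qt c → Fin k) :
    REIn A fun x : ℕ × (ℕ × ℕ) => Rs c C n X γ x.1 x.2 := by
  unfold Rs
  refine REIn.and (REIn.of_re (RE.le (by fun_prop) (by fun_prop)))
    (REIn.and (REIn.of_re (RE.lt (by fun_prop) (by fun_prop))) (REIn.and ?_ (REIn.and ?_ ?_)))
  · exact hC.comp (f := fun x : ℕ × (ℕ × ℕ) => x.2.2) (by fun_prop)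
  · refine re_all_fin fun i => ?_
    exact (re_ce hc n).comp (f := fun x : ℕ × (ℕ × ℕ) =>
      (x.2.2, (i.out + 2 ^ x.2.1, (X i).out))) (by fun_prop)
  · refine re_all_fin fun i => ?_
    exact REIn.comp hc (f := fun x : ℕ × (ℕ × ℕ) => (i.out + 2 ^ x.2.1, γ i)) (by fun_prop)

/-- The construction from a search relation. -/
theorem build [Finite (Qt c)] {R : ℕ → ℕ × ℕ → Prop}
    (hR : REIn A fun x : ℕ × (ℕ × ℕ) => R x.1 x.2) (htot : ∀ m, ∃ q, R m q) {m0 : ℕ}
    {X : Qt c → Qt c} {γ : Qt c → Fin k}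
    (hs : ∀ m q, m0 ≤ m → R m q → m ≤ q.1 ∧ q.1 < q.2 ∧
      (∀ i : Qt c, ¬ Dd c q.2 (i.out + 2 ^ q.1) (X i).out) ∧
      ∀ i : Qt c, c (i.out + 2 ^ q.1) = γ i) :
    ∃ X : Set ℕ, Sol c X ∧ Dec A X := by
  obtain ⟨g, hg, hgR⟩ := choice hR htot
  -- the start
  let i0 : Qt c := ⟦0⟧
  obtain ⟨b0, hb0⟩ : ∃ b, ¬ Dd c b 0 i0.out := by
    have h2 : (⟦0⟧ : Qt c) = ⟦i0.out⟧ := by rw [Quotient.out_eq]
    exact Quotient.exact h2
  let M0 := max m0 b0
  let st : ℕ → ℕ × ℕ := fun j => (fun q : ℕ × ℕ => g q.2)^[j] (0, M0)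
  have hst : Gr A st := Gr.iter (f := fun q : ℕ × ℕ => g q.2)
    (hg.pre (g := fun q : ℕ × ℕ => q.2) (by fun_prop)) (0, M0)
  have hst_succ : ∀ j, st (j + 1) = g (st j).2 := fun j =>
    Function.iterate_succ_apply' (fun q : ℕ × ℕ => g q.2) j (0, M0)
  let cut : ℕ → ℕ := fun j => (st j).2
  let P : ℕ → ℕ := fun j => (st (j + 1)).1
  have hRj : ∀ j, R (cut j) (P j, cut (j + 1)) := by
    intro j
    have h1 := hgR (cut j)
    show R (cut j) (st (j + 1))
    rw [hst_succ]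
    exact h1
  have hcut : ∀ j, M0 ≤ cut j := by
    intro j
    induction j with
    | zero => exact le_rfl
    | succ j ih =>
      obtain ⟨h1, h2, -⟩ := hs _ _ ((le_max_left m0 b0).trans ih) (hRj j)
      exact ih.trans (h1.trans h2.le)
  have hs' : ∀ j, cut j ≤ P j ∧ P j < cut (j + 1) ∧
      (∀ i : Qt c, ¬ Dd c (cut (j + 1)) (i.out + 2 ^ P j) (X i).out) ∧
      ∀ i : Qt c, c (i.out + 2 ^ P j) = γ i := fun j =>
    hs _ _ ((le_max_left m0 b0).trans (hcut j)) (hRj j)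
  have h1 : ∀ j, cut j ≤ P j := fun j => (hs' j).1
  have h2 : ∀ j, P j < cut (j + 1) := fun j => (hs' j).2.1
  have h3 : ∀ j i, ¬ Dd c (cut (j + 1)) (i.out + 2 ^ P j) (X i).out := fun j i => (hs' j).2.2.1 i
  have h4 : ∀ j i, c (i.out + 2 ^ P j) = γ i := fun j i => (hs' j).2.2.2 i
  have h0 : ¬ Dd c (cut 0) 0 i0.out := ndd_mono (le_max_right m0 b0) hb0
  have hPgr : Gr A P := Gr.post (g := fun q : ℕ × ℕ => q.1) (by fun_prop)
    (hst.pre (g := fun j : ℕ => j + 1) (by fun_prop))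
  obtain ⟨L, hL, hLr⟩ := exists_period X
  let x : ℕ → ℕ := bs P L
  have hx : Gr A x := gr_bs hPgr L
  have hxsg : ∀ G : Finset ℕ, sg P (blk L G) = ∑ j ∈ G, x j := sg_blk P L
  have hxmono : StrictMono x := by
    refine strictMono_nat_of_lt_succ fun j => ?_
    have h5 : x j < 2 ^ cut (L * j + L) := by
      have h6 := hxsg {j}
      rw [Finset.sum_singleton] at h6
      rw [← h6]
      refine sg_lt h1 h2 _ _ ?_
      intro z hz
      unfold blk at hz
      obtain ⟨⟨a, b⟩, hab, rfl⟩ := Finset.mem_image.1 hz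
      rw [Finset.mem_product, Finset.mem_singleton, Finset.mem_range] at hab
      obtain ⟨rfl, hb⟩ := hab
      exact Finset.mem_range.2 (by simpa using hb)
    have h6 : (2 : ℕ) ^ cut (L * j + L) ≤ 2 ^ P (L * j + L) :=
      Nat.pow_le_pow_right (by norm_num) (h1 _)
    have h7 : 2 ^ P (L * j + L) ≤ x (j + 1) := by
      have h8 : 2 ^ P (L * (j + 1) + 0) ≤ ∑ i ∈ Finset.range L, 2 ^ P (L * (j + 1) + i) :=
        Finset.single_le_sum (f := fun i => 2 ^ P (L * (j + 1) + i))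
          (fun i _ => Nat.zero_le _) (Finset.mem_range.2 (show 0 < L by omega))
      exact h8
    omega
  have hxpos : ∀ j, 0 < x j := by
    intro j
    refine Finset.sum_pos (fun i _ => by positivity) ⟨0, Finset.mem_range.2 (by omega)⟩
  refine ⟨Set.range x, ⟨Set.infinite_range_of_injective hxmono.injective, ?_,
    γ (X^[L - 1] i0), ?_⟩, range_dec hx hxmono⟩
  · rintro ⟨j, hj⟩
    have := hxpos j
    omega
  · intro F hF hne
    rw [← Set.image_univ] at hF
    obtain ⟨G, -, rfl⟩ := Finset.subset_set_image_iff.1 hF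
    have hGne : G.Nonempty := Finset.image_nonempty.1 hne
    rw [Finset.sum_image (fun a _ b _ h => hxmono.injective h), ← hxsg]
    have h5 : (blk L G).Nonempty := by
      rw [← Finset.card_pos, card_blk]
      exact Nat.mul_pos (by omega) (Finset.card_pos.2 hGne)
    rw [seq_colour (i0 := i0) h1 h2 h3 h4 h0 h5, card_blk, hLr _ (Finset.card_pos.2 hGne)]

/-- The pigeonhole principle for powers of two. -/
theorem exists_types [Finite (Qt c)] : ∃ (X : Qt c → Qt c) (γ : Qt c → Fin k), ∀ m, ∃ p, m ≤ p ∧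
    (∀ i : Qt c, ∃ b, ¬ Dd c b (i.out + 2 ^ p) (X i).out) ∧
    ∀ i : Qt c, c (i.out + 2 ^ p) = γ i := by
  let Φ : ℕ → (Qt c → Qt c) × (Qt c → Fin k) := fun p =>
    (fun i => ⟦i.out + 2 ^ p⟧, fun i => c (i.out + 2 ^ p))
  obtain ⟨⟨X, γ⟩, hΦ⟩ := Finite.exists_infinite_fiber Φ
  have hΦ' : (Φ ⁻¹' {(X, γ)}).Infinite := Set.infinite_coe_iff.1 hΦ
  refine ⟨X, γ, fun m => ?_⟩
  obtain ⟨p, hp, hmp⟩ := exists_ge_mem hΦ' m
  have hp1 : ∀ i : Qt c, (⟦i.out + 2 ^ p⟧ : Qt c) = X i := fun i =>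
    congrFun (congrArg Prod.fst hp) i
  have hp2 : ∀ i : Qt c, c (i.out + 2 ^ p) = γ i := fun i =>
    congrFun (congrArg Prod.snd hp) i
  refine ⟨p, hmp, fun i => ?_, hp2⟩
  have h2 : (⟦i.out + 2 ^ p⟧ : Qt c) = ⟦(X i).out⟧ := by rw [hp1, Quotient.out_eq]
  exact Quotient.exact h2

/-- **Bounded memory at the cuts of an infinite set enumerable in `A`**: there is a solution
decidable in `A`. -/
theorem bounded (hc : Gr A c) {C : Set ℕ} (hC : REIn A (· ∈ C)) (hinf : C.Infinite) {W : ℕ}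
    (hW : ∀ m ∈ C, ¬ Sp c m (W + 1)) : ∃ X : Set ℕ, Sol c X ∧ Dec A X := by
  classical
  have hfin := finite_qt hinf hW
  have := Fintype.ofFinite (Qt c)
  -- the limit number of classes
  have hN : ∃ n, {m | m ∈ C ∧ Sp c m (n + 1)}.Infinite ∧ ¬ {m | m ∈ C ∧ Sp c m (n + 2)}.Infinite := by
    by_contra hcon
    push Not at hcon
    have h1 : ∀ n, {m | m ∈ C ∧ Sp c m (n + 1)}.Infinite := by
      intro n
      induction n with
      | zero => exact hinf.mono fun m hm => ⟨hm, sp_one m⟩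
      | succ n ih => exact hcon n ih
    obtain ⟨m, hm, -⟩ := exists_ge_mem (h1 W) 0
    exact hW m hm.1 hm.2
  obtain ⟨n, hn1, hn2⟩ := hN
  rw [Set.not_infinite] at hn2
  obtain ⟨m0, hm0⟩ : ∃ m0, ∀ m ∈ C, m0 ≤ m → ¬ Sp c m (n + 2) := by
    obtain ⟨b, hb⟩ := hn2.bddAbove
    refine ⟨b + 1, fun m hm hbm hs => ?_⟩
    have := hb ⟨hm, hs⟩
    omega
  obtain ⟨X, γ, hXγ⟩ := exists_types (c := c)
  have htot : ∀ m, ∃ q, Rs c C n X γ m q := by
    intro m
    obtain ⟨p, hmp, h1, hp2⟩ := hXγ m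
    choose b hb using h1
    obtain ⟨m', hm', hle⟩ := exists_ge_mem hn1 (m0 + p + 1 + Finset.univ.sup b +
      Finset.univ.sup (fun i : Qt c => i.out + 2 ^ p) +
      Finset.univ.sup (fun i : Qt c => (X i).out))
    refine ⟨(p, m'), hmp, by omega, hm'.1, fun i => ?_, hp2⟩
    have h3 : b i ≤ Finset.univ.sup b := Finset.le_sup (f := b) (Finset.mem_univ i)
    have h4 : i.out + 2 ^ p ≤ Finset.univ.sup (fun i : Qt c => i.out + 2 ^ p) :=
      Finset.le_sup (f := fun i : Qt c => i.out + 2 ^ p) (Finset.mem_univ i)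
    have h5 : (X i).out ≤ Finset.univ.sup (fun i : Qt c => (X i).out) :=
      Finset.le_sup (f := fun i : Qt c => (X i).out) (Finset.mem_univ i)
    have h6 : m' < 2 ^ m' := Nat.lt_two_pow_self
    have h7 : i.out + 2 ^ p < 2 ^ m' := by omega
    have h8 : (X i).out < 2 ^ m' := by omega
    exact ce_complete (hm0 m' hm'.1 (by omega)) hm'.2 h7 h8
      (ndd_mono (by omega) (hb i))
  refine build (re_rs hc hC n X γ) htot (m0 := m0) (X := X) (γ := γ) ?_
  rintro m q hm ⟨h1, h2, h3, h4, h5⟩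
  exact ⟨h1, h2, fun i => ce_sound (hm0 _ h3 (by omega)) (h4 i), h5⟩

/-- The eventual index is at most `W`: among any `W + 1` numbers, two are eventually
equivalent. -/
def Ix (c : ℕ → Fin k) (W : ℕ) : Prop :=
  ∀ v : Fin (W + 1) → ℕ, ∃ i j, i ≠ j ∧ ∃ m, ∀ t, 1 ≤ t →
    c (v i + 2 ^ m * t) = c (v j + 2 ^ m * t)

theorem ix_of_mem {W : ℕ} (h : {m | Mem c m W}.Infinite) : Ix c W := by
  intro v
  obtain ⟨m, hmC, hm⟩ := exists_ge_mem h (Finset.univ.sup v)
  obtain ⟨f, hf⟩ := hmC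
  obtain ⟨i, j, hij, he⟩ := Fintype.exists_ne_map_eq_of_card_lt (fun i => f (v i)) (by simp)
  have h1 : ∀ i, v i < 2 ^ m := fun i =>
    lt_of_le_of_lt ((Finset.le_sup (f := v) (Finset.mem_univ i)).trans hm) Nat.lt_two_pow_self
  exact ⟨i, j, hij, m, hf _ (h1 i) _ (h1 j) he⟩

theorem finite_of_ix {W : ℕ} (h : Ix c W) : Finite (Qt c) := by
  by_contra hcon
  rw [not_finite_iff_infinite] at hcon
  let e := Infinite.natEmbedding (Qt c)
  obtain ⟨i, j, hij, m, hm⟩ := h fun i => (e i).out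
  apply hij
  have h1 : (⟦(e i).out⟧ : Qt c) = ⟦(e j).out⟧ := Quotient.sound ⟨m, ndd_iff.2 hm⟩
  simp only [Quotient.out_eq] at h1
  exact Fin.ext (e.injective h1)

/-- **Finite eventual index**: solutions decidable in any oracle which decides the separation
relation. -/
theorem of_index (hc : Gr A c)
    (hd : REIn A fun x : ℕ × (ℕ × ℕ) => ¬ Dd c x.1 x.2.1 x.2.2) {W : ℕ} (hW : Ix c W) :
    ∃ X : Set ℕ, Sol c X ∧ Dec A X := by
  classical
  have hfin := finite_of_ix hW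
  have := Fintype.ofFinite (Qt c)
  obtain ⟨X, γ, hXγ⟩ := exists_types (c := c)
  refine build (R := fun m q => m ≤ q.1 ∧ q.1 < q.2 ∧
      (∀ i : Qt c, ¬ Dd c q.2 (i.out + 2 ^ q.1) (X i).out) ∧
      ∀ i : Qt c, c (i.out + 2 ^ q.1) = γ i) ?_ ?_ (m0 := 0) (X := X) (γ := γ)
      (fun m q _ h => h)
  · refine REIn.and (REIn.of_re (RE.le (by fun_prop) (by fun_prop)))
      (REIn.and (REIn.of_re (RE.lt (by fun_prop) (by fun_prop))) (REIn.and ?_ ?_))
    · refine re_all_fin fun i => ?_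
      exact hd.comp (f := fun x : ℕ × (ℕ × ℕ) =>
        (x.2.2, (i.out + 2 ^ x.2.1, (X i).out))) (by fun_prop)
    · refine re_all_fin fun i => ?_
      exact REIn.comp hc (f := fun x : ℕ × (ℕ × ℕ) => (i.out + 2 ^ x.2.1, γ i)) (by fun_prop)
  · intro m
    obtain ⟨p, hmp, h1, hp2⟩ := hXγ m
    choose b hb using h1
    refine ⟨(p, p + 1 + Finset.univ.sup b), hmp, by simp only; omega, fun i => ?_, hp2⟩
    have h3 : b i ≤ Finset.univ.sup b := Finset.le_sup (f := b) (Finset.mem_univ i)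
    exact ndd_mono (by simp only; omega) (hb i)

end Pool.Agent.Y545.HM
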