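import Pool.Agent.Y545.HM.Ideal

/-!
Slowly growing memory together with two states at infinitely many cuts.
-/

namespace Pool.Agent.Y545.HM

open Encodable Pool.Agent.Helper446 Pool.Agent.Helper446.Defs Pool.Agent.Helper446.Oracle

variable {A : Set ℕ}

theorem exists_slow {w : ℕ → ℕ} (hmono : Monotone w) (h2 : 2 ≤ w 0)
    (hw : ∃ w' : ℕ → ℕ, Gr A w' ∧ (∀ B, ∃ m, B ≤ w' m) ∧ ∀ m, w' m ≤ w m) :
    ∃ h : ℕ → ℕ, Gr A h ∧ Monotone h ∧ (∀ j, ∃ m, h m = j) ∧ ∀ m, 2 ^ (h m + 1) ≤ w m := by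
  obtain ⟨w', hw1, hw2, hw3⟩ := hw
  have hR : REIn A fun x : ℕ × ℕ => 2 ^ (x.1 + 2) ≤ w' x.2 := by
    refine re_gr (S := fun u : ℕ × ℕ => u.1 ≤ u.2) (f := fun x : ℕ × ℕ =>
      (2 ^ (x.1 + 2), w' x.2)) (REIn.of_re (RE.le (by fun_prop) (by fun_prop))) ?_
    exact (Gr.of_comp (by fun_prop)).pair (hw1.pre (g := fun x : ℕ × ℕ => x.2) (by fun_prop))
  obtain ⟨u, hu, huR⟩ := choice (R := fun n m : ℕ => 2 ^ (n + 2) ≤ w' m) hR (fun n => hw2 _)
  obtain ⟨h, hh1, hh2, hh3, hh4⟩ := exists_inv hu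
  refine ⟨h, hh1, hh2, hh3, fun m => ?_⟩
  rcases hn : h m with _ | n
  · have := hmono (Nat.zero_le m)
    simp only [Nat.zero_add, pow_one]
    omega
  · exact (huR n).trans ((hw3 _).trans (hmono (hh4 m n hn)))

theorem dvd_cd {s : Finset ℕ} {M : ℕ} (h : ∀ i ∈ s, M ≤ i) : 2 ^ M ∣ cd s :=
  Finset.dvd_sum fun i hi => pow_dvd_pow 2 (h i hi)

/-- The digit map does not increase the memory at the corresponding cuts. -/
theorem mem_comp {h : ℕ → ℕ} (hmono : Monotone h) {k : ℕ} {c : ℕ → Fin k} {m M W : ℕ}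
    (hM : h m = M) (hlt : ∀ i < m, h i < M) (hc : Mem c M W) : Mem (c ∘ ph h) m W := by
  obtain ⟨f, hf⟩ := hc
  have h1 : ∀ a < 2 ^ m, ph h a < 2 ^ M := by
    intro a ha
    refine cd_lt fun j hj => ?_
    obtain ⟨i, hi, rfl⟩ := Finset.mem_image.1 hj
    exact hlt i (lt_of_mem_su_of_lt hi ha)
  refine ⟨fun a => f (ph h a), fun a ha b hb hab t ht => ?_⟩
  have h2 : 2 ^ M ∣ ph h (2 ^ m * t) := by
    refine dvd_cd fun j hj => ?_
    obtain ⟨i, hi, rfl⟩ := Finset.mem_image.1 hj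
    rw [← hM]
    exact hmono (le_of_mem_su hi)
  obtain ⟨t', ht'⟩ := h2
  have h3 : 0 < ph h (2 ^ m * t) := ph_pos (by positivity)
  have h4 : 1 ≤ t' := by
    rcases Nat.eq_zero_or_pos t' with h5 | h5
    · rw [ht', h5] at h3
      simp at h3
    · exact h5
  have h5 : ∀ a < 2 ^ m, ph h (a + 2 ^ m * t) = ph h a + 2 ^ M * t' := by
    intro a ha
    rw [ph_add hmono ha fun i hi => by
      rw [hM]; exact hlt i (lt_of_mem_su_of_lt hi ha), ht']
  show c (ph h (a + 2 ^ m * t)) = c (ph h (b + 2 ^ m * t))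
  rw [h5 a ha, h5 b hb]
  exact hf _ (h1 a ha) _ (h1 b hb) hab t' h4

/-- The jump can be coded with slowly growing memory which is two infinitely often. -/
theorem lower_slow {S : Set ℕ} (hS : REIn A (· ∈ S)) {w : ℕ → ℕ} (hmono : Monotone w)
    (h2 : 2 ≤ w 0)
    (hw : ∃ w' : ℕ → ℕ, Gr A w' ∧ (∀ B, ∃ m, B ≤ w' m) ∧ ∀ m, w' m ≤ w m) :
    ∃ c : ℕ → Fin 2, Gr A c ∧ (∀ m, Mem c m (w m)) ∧ {m | Mem c m 2}.Infinite ∧
      ∀ B Y, Dec B A → Dec B Y → Sol c Y → Dec B S := by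
  classical
  obtain ⟨c, hc1, hc2, hc3⟩ := lower hS
  obtain ⟨h, hh1, hh2, hh3, hh4⟩ := exists_slow hmono h2 hw
  refine ⟨c ∘ ph h, hc1.comp (gr_ph hh1), fun m => ?_, ?_, fun B Y hBA hBY hY => ?_⟩
  · refine mem_ph c ?_ fun i hi => (hh4 i).trans (hmono hi.le)
    have := hmono (Nat.zero_le m)
    omega
  · let e : ℕ → ℕ := fun M => Nat.find (hh3 M)
    have he : ∀ M, h (e M) = M := fun M => Nat.find_spec (hh3 M)
    have he2 : ∀ M, ∀ i < e M, h i < M := by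
      intro M i hi
      have h5 := Nat.find_min (hh3 M) hi
      have h6 := hh2 hi.le
      rw [he] at h6
      omega
    have hinj : Function.Injective e := fun a b hab => by
      have h7 := congrArg h hab
      rwa [he, he] at h7
    refine (hc2.image hinj.injOn).mono ?_
    rintro _ ⟨M, hM, rfl⟩
    exact mem_comp hh2 (he M) (he2 M) hM
  · obtain ⟨X, hX, hXd⟩ := transfer (hh1.lift hBA) hBY hh2 (fun j => by
      obtain ⟨m, hm⟩ := hh3 (j + 1)
      exact ⟨m, by omega⟩) hY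
    exact hc3 B X hBA hXd hX

variable {I : Set (Set ℕ)} {w : ℕ → ℕ}

/-- Memory at all cuts at most `w` and infinitely often two: the jump or nothing. -/
theorem class_mix (hI : Idl I) (hmono : Monotone w) (h2 : 2 ≤ w 0) :
    (HTI I fun _ c => (∀ m, Mem c m (w m)) ∧ {m | Mem c m 2}.Infinite) ↔ (Dom I w → Jmp I) := by
  constructor
  · rintro h ⟨w', ⟨B, hB, hw1⟩, hw2, hw3⟩ A hA S hS
    have hAB := hI.2.2 A hA B hB
    obtain ⟨c, hc1, hc2, hc3, hc4⟩ := lower_slow (A := join A B) (re_lift hS dec_left) hmono h2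
      ⟨w', hw1.lift dec_right, hw2, hw3⟩
    obtain ⟨Y, hY, hYs⟩ := h 2 c ⟨_, hAB, hc1⟩ ⟨hc2, hc3⟩
    exact hI.2.1 _ (hI.2.2 _ hAB Y hY) _ (hc4 _ Y dec_left dec_right hYs)
  · intro h
    by_cases hw : Dom I w
    · exact (idl_index hI (h hw)).mono fun k c hc => ⟨2, ix_of_mem hc.2⟩
    · exact (idl_small hI hmono hw).mono fun k c hc => hc.1

end Pool.Agent.Y545.HM
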