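import Pool.Agent.Helper446.Oracle

/-!
Functions with a graph enumerable in an oracle: composition, iteration, selection.
-/

namespace Pool.Agent.Y545.HM

open Encodable Pool.Agent.Helper446 Pool.Agent.Helper446.Defs Pool.Agent.Helper446.Oracle

variable {α β γ : Type*} [Primcodable α] [Primcodable β] [Primcodable γ] {A : Set ℕ}

/-- The graph of `f` is c.e. in `A`. -/
def Gr (A : Set ℕ) (f : α → β) : Prop := REIn A fun p : α × β => f p.1 = p.2

theorem Gr.of_comp {f : α → β} (hf : Computable f) : Gr A f :=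
  REIn.of_re (RE.eq (by fun_prop) (by fun_prop))

theorem re_gr {S : β → Prop} (h : REIn A S) {f : α → β} (hf : Gr A f) :
    REIn A fun a => S (f a) := by
  have h1 : REIn A fun a : α => ∃ b : β, f a = b ∧ S b := by
    refine REIn.ex (S := fun (a : α) (b : β) => f a = b ∧ S b) (REIn.and ?_ ?_)
    · exact hf
    · exact h.comp (f := fun x : α × β => x.2) (by fun_prop)
  refine h1.of_eq fun a => ?_
  simp

theorem Gr.comp {f : β → γ} {g : α → β} (hf : Gr A f) (hg : Gr A g) :
    Gr A fun a => f (g a) := by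
  have h1 : REIn A fun p : α × γ => ∃ b : β, g p.1 = b ∧ f b = p.2 := by
    refine REIn.ex (S := fun (p : α × γ) (b : β) => g p.1 = b ∧ f b = p.2) (REIn.and ?_ ?_)
    · exact REIn.comp hg (f := fun x : (α × γ) × β => (x.1.1, x.2)) (by fun_prop)
    · exact REIn.comp hf (f := fun x : (α × γ) × β => (x.2, x.1.2)) (by fun_prop)
  refine h1.of_eq fun p => ?_
  simp

theorem Gr.pair {f : α → β} {g : α → γ} (hf : Gr A f) (hg : Gr A g) :
    Gr A fun a => (f a, g a) := by
  have h1 : REIn A fun p : α × (β × γ) => f p.1 = p.2.1 ∧ g p.1 = p.2.2 := by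
    refine REIn.and ?_ ?_
    · exact REIn.comp hf (f := fun x : α × (β × γ) => (x.1, x.2.1)) (by fun_prop)
    · exact REIn.comp hg (f := fun x : α × (β × γ) => (x.1, x.2.2)) (by fun_prop)
  refine h1.of_eq fun p => ?_
  rw [Prod.ext_iff]

theorem Gr.post {g : β → γ} (hg : Computable g) {f : α → β} (hf : Gr A f) :
    Gr A fun a => g (f a) := (Gr.of_comp hg).comp hf

theorem Gr.pre {f : β → γ} (hf : Gr A f) {g : α → β} (hg : Computable g) :
    Gr A fun a => f (g a) := hf.comp (Gr.of_comp hg)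

theorem Gr.of_eq {f g : α → β} (hf : Gr A f) (h : ∀ a, f a = g a) : Gr A g := by
  have : f = g := funext h
  rwa [← this]

theorem Gr.iter {f : α → α} (hf : Gr A f) (x0 : α) : Gr A fun n : ℕ => f^[n] x0 := by
  have h1 : REIn A fun p : ℕ × α => ∃ l : List α, l[0]? = some x0 ∧
      (∀ i < p.1, ∃ u : α × α, l[i]? = some u.1 ∧ l[i + 1]? = some u.2 ∧ f u.1 = u.2) ∧
      l[p.1]? = some p.2 := by
    refine REIn.ex (S := fun (p : ℕ × α) (l : List α) => l[0]? = some x0 ∧
      (∀ i < p.1, ∃ u : α × α, l[i]? = some u.1 ∧ l[i + 1]? = some u.2 ∧ f u.1 = u.2) ∧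
      l[p.1]? = some p.2) ?_
    refine REIn.and (REIn.of_re (RE.eq (by fun_prop) (by fun_prop)))
      (REIn.and ?_ (REIn.of_re (RE.eq (by fun_prop) (by fun_prop))))
    refine REIn.all_lt (S := fun (x : (ℕ × α) × List α) (i : ℕ) =>
      ∃ u : α × α, x.2[i]? = some u.1 ∧ x.2[i + 1]? = some u.2 ∧ f u.1 = u.2) ?_ (by fun_prop)
    refine REIn.ex (S := fun (x : ((ℕ × α) × List α) × ℕ) (u : α × α) =>
      x.1.2[x.2]? = some u.1 ∧ x.1.2[x.2 + 1]? = some u.2 ∧ f u.1 = u.2) ?_
    refine REIn.and (REIn.of_re (RE.eq (by fun_prop) (by fun_prop)))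
      (REIn.and (REIn.of_re (RE.eq (by fun_prop) (by fun_prop))) ?_)
    exact REIn.comp hf (f := fun x : (((ℕ × α) × List α) × ℕ) × (α × α) => x.2) (by fun_prop)
  refine h1.of_eq fun p => ?_
  obtain ⟨n, y⟩ := p
  simp only
  constructor
  · rintro ⟨l, h0, h2, h3⟩
    have h4 : ∀ i ≤ n, l[i]? = some (f^[i] x0) := by
      intro i
      induction i with
      | zero => intro _; exact h0
      | succ i ih =>
        intro hi
        obtain ⟨u, hu1, hu2, hu3⟩ := h2 i (by omega)
        rw [ih (by omega)] at hu1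
        rw [hu2, ← hu3, ← Option.some.inj hu1, Function.iterate_succ_apply']
    rw [h4 n le_rfl] at h3
    exact Option.some.inj h3
  · rintro rfl
    refine ⟨(List.range (n + 1)).map fun i => f^[i] x0, ?_, ?_, ?_⟩
    · simp
    · intro i hi
      refine ⟨(f^[i] x0, f^[i + 1] x0), ?_, ?_, ?_⟩
      · rw [List.getElem?_map, List.getElem?_range (by omega)]; rfl
      · rw [List.getElem?_map, List.getElem?_range (by omega)]; rfl
      · exact (Function.iterate_succ_apply' f i x0).symm
    · rw [List.getElem?_map, List.getElem?_range (by omega)]; rfl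

theorem re_ex_mem {S : α → β → Prop} (hS : REIn A fun x : α × β => S x.1 x.2)
    {l : α → List β} (hl : Computable l) : REIn A fun a => ∃ b ∈ l a, S a b := by
  refine REIn.ex (S := fun a b => b ∈ l a ∧ S a b) (REIn.and (REIn.of_re ?_) hS)
  exact RE.mem_list (f := fun x : α × β => x.2) (l := fun x : α × β => l x.1)
    (by fun_prop) (by fun_prop)

theorem re_ok {c : α → List ℕ × List ℕ} (hc : Computable c) : REIn A fun a => Ok A (c a) := by
  unfold Ok
  refine REIn.and ?_ ?_
  · refine REIn.all_mem (S := fun (_ : α) (x : ℕ) => x ∈ A) (l := fun a => (c a).1) ?_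
      (by fun_prop)
    exact REIn.mem (by fun_prop)
  · refine REIn.all_mem (S := fun (_ : α) (x : ℕ) => x ∉ A) (l := fun a => (c a).2) ?_
      (by fun_prop)
    exact REIn.not_mem (by fun_prop)

theorem re_not_ok {c : α → List ℕ × List ℕ} (hc : Computable c) :
    REIn A fun a => ¬ Ok A (c a) := by
  have h : REIn A fun a => (∃ x ∈ (c a).1, x ∉ A) ∨ (∃ x ∈ (c a).2, x ∈ A) := by
    refine REIn.or ?_ ?_
    · refine re_ex_mem (S := fun (_ : α) (x : ℕ) => x ∉ A) (l := fun a => (c a).1) ?_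
        (by fun_prop)
      exact REIn.not_mem (by fun_prop)
    · refine re_ex_mem (S := fun (_ : α) (x : ℕ) => x ∈ A) (l := fun a => (c a).2) ?_
        (by fun_prop)
      exact REIn.mem (by fun_prop)
  refine h.of_eq fun a => ?_
  unfold Ok
  rw [not_and_or]
  push Not
  rfl

/-- Selection for relations enumerable in an oracle. -/
theorem choice {R : α → β → Prop} (hR : REIn A fun x : α × β => R x.1 x.2)
    (h : ∀ a, ∃ b, R a b) : ∃ f : α → β, Gr A f ∧ ∀ a, R a (f a) := by
  classical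
  rcases isEmpty_or_nonempty α with he | ⟨⟨a0⟩⟩
  · refine ⟨fun a => (he.false a).elim, ?_, fun a => (he.false a).elim⟩
    refine (REIn.of_re (S := fun _ : α × β => True) (RE.const True)).of_eq fun p => ?_
    exact (he.false p.1).elim
  obtain ⟨b0, -⟩ := h a0
  obtain ⟨R0, hR0, h0⟩ := hR
  obtain ⟨q, hq, hq2⟩ := RE.re_iff.1 hR0
  let t0 : β × ((List ℕ × List ℕ) × ℕ) := (b0, (([], []), 0))
  let d : ℕ → β × ((List ℕ × List ℕ) × ℕ) := fun e =>
    (decode (α := β × ((List ℕ × List ℕ) × ℕ)) e).getD t0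
  have hd : Computable d := Primrec.option_getD.to_comp.comp (by fun_prop) (by fun_prop)
  have hq' : Computable fun x : α × ℕ => q ((x.1, (d x.2).1), (d x.2).2.1) (d x.2).2.2 :=
    hq.comp (g := fun x : α × ℕ => ((x.1, (d x.2).1), (d x.2).2.1))
      (h := fun x : α × ℕ => (d x.2).2.2) (by fun_prop) (by fun_prop)
  let Good : α → ℕ → Prop := fun a e =>
    q ((a, (d e).1), (d e).2.1) (d e).2.2 = true ∧ Ok A (d e).2.1
  have hex : ∀ a, ∃ e, Good a e := by
    intro a
    obtain ⟨b, hb⟩ := h a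
    obtain ⟨c, hc, hok⟩ := (h0 (a, b)).1 hb
    obtain ⟨t, ht⟩ := (hq2 ((a, b), c)).1 hc
    refine ⟨encode (b, (c, t)), ?_⟩
    have : d (encode (b, (c, t))) = (b, (c, t)) := by
      simp only [d]
      rw [encodek, Option.getD_some]
    simp only [Good, this]
    exact ⟨ht, hok⟩
  have hg1 : REIn A fun x : α × ℕ => Good x.1 x.2 := by
    refine REIn.and (REIn.of_re (RE.of_bool hq')) ?_
    exact re_ok (by fun_prop)
  have hg2 : REIn A fun x : α × ℕ => ¬ Good x.1 x.2 := by
    have h3 : REIn A fun x : α × ℕ => (q ((x.1, (d x.2).1), (d x.2).2.1) (d x.2).2.2 ≠ true) ∨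
        ¬ Ok A (d x.2).2.1 := by
      refine REIn.or (REIn.of_re (RE.ne hq' (by fun_prop))) ?_
      exact re_not_ok (by fun_prop)
    exact h3.of_eq fun x => not_and_or.symm
  refine ⟨fun a => (d (Nat.find (hex a))).1, ?_, ?_⟩
  · have h4 : REIn A fun p : α × β => ∃ e, Good p.1 e ∧ (∀ e' < e, ¬ Good p.1 e') ∧
        (d e).1 = p.2 := by
      refine REIn.ex (S := fun (p : α × β) (e : ℕ) => Good p.1 e ∧ (∀ e' < e, ¬ Good p.1 e') ∧
        (d e).1 = p.2) ?_
      refine REIn.and ?_ (REIn.and ?_ (REIn.of_re (RE.eq (by fun_prop) (by fun_prop))))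
      · exact hg1.comp (f := fun x : (α × β) × ℕ => (x.1.1, x.2)) (by fun_prop)
      · refine REIn.all_lt (S := fun (x : (α × β) × ℕ) (e' : ℕ) => ¬ Good x.1.1 e') ?_
          (by fun_prop)
        exact hg2.comp (f := fun x : ((α × β) × ℕ) × ℕ => (x.1.1.1, x.2)) (by fun_prop)
    refine h4.of_eq fun p => ?_
    constructor
    · rintro ⟨e, h5, h6, h7⟩
      have : Nat.find (hex p.1) = e := (Nat.find_eq_iff (hex p.1)).2 ⟨h5, h6⟩
      show (d (Nat.find (hex p.1))).1 = p.2
      rw [this, h7]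
    · intro h5
      exact ⟨Nat.find (hex p.1), Nat.find_spec (hex p.1),
        fun e' he' => Nat.find_min (hex p.1) he', h5⟩
  · intro a
    obtain ⟨h5, h6⟩ := Nat.find_spec (hex a)
    exact (h0 (a, (d (Nat.find (hex a))).1)).2 ⟨_, (hq2 ((a, (d (Nat.find (hex a))).1),
      (d (Nat.find (hex a))).2.1)).2 ⟨_, h5⟩, h6⟩

/-- Enumerable in the empty oracle means enumerable. -/
theorem re_of_empty {S : α → Prop} (h : REIn ∅ S) : REPred S := by
  obtain ⟨R, hR, h⟩ := h
  have h1 : REPred fun a : α => ∃ c : List ℕ × List ℕ, R a c ∧ c.1.length = 0 := by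
    refine RE.ex (p := fun (a : α) (c : List ℕ × List ℕ) => R a c ∧ c.1.length = 0)
      (RE.and hR (RE.eq (by fun_prop) (by fun_prop)))
  refine h1.of_eq fun a => ?_
  rw [h]
  constructor
  · rintro ⟨c, h2, h3⟩
    refine ⟨c, h2, ?_, ?_⟩
    · intro x hx
      rw [List.length_eq_zero_iff.1 h3] at hx
      simp at hx
    · intro x _ hx2
      exact hx2
  · rintro ⟨c, h2, h3, -⟩
    refine ⟨c, h2, ?_⟩
    rw [List.length_eq_zero_iff, List.eq_nil_iff_forall_not_mem]
    intro x hx
    exact h3 x hx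

theorem re_all_fin {ι : Type*} [Finite ι] {P : ι → α → Prop} (h : ∀ i, REIn A (P i)) :
    REIn A fun a => ∀ i, P i a := by
  classical
  have := Fintype.ofFinite ι
  have h1 : ∀ s : Finset ι, REIn A fun a => ∀ i ∈ s, P i a := by
    intro s
    induction s using Finset.induction_on with
    | empty =>
      refine (REIn.of_re (S := fun _ : α => True) (RE.const True)).of_eq fun a => ?_
      simp
    | insert i s hi ih =>
      refine ((h i).and ih).of_eq fun a => ?_
      simp
  refine (h1 Finset.univ).of_eq fun a => ?_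
  simp

/-- The range of a strictly increasing function with graph enumerable in `A` is decidable in
`A`. -/
theorem range_dec {x : ℕ → ℕ} (hx : Gr A x) (hmono : StrictMono x) :
    REIn A (fun n => n ∈ Set.range x) ∧ REIn A (fun n => n ∉ Set.range x) := by
  constructor
  · have h : REIn A fun n : ℕ => ∃ i : ℕ, x i = n := by
      refine REIn.ex (S := fun (n i : ℕ) => x i = n) ?_
      exact REIn.comp hx (f := fun p : ℕ × ℕ => (p.2, p.1)) (by fun_prop)
    exact h
  · have h : REIn A fun n : ℕ => ∀ i < n + 1, ∃ v : ℕ, x i = v ∧ v ≠ n := by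
      refine REIn.all_lt (S := fun (n i : ℕ) => ∃ v : ℕ, x i = v ∧ v ≠ n) ?_ (by fun_prop)
      refine REIn.ex (S := fun (p : ℕ × ℕ) (v : ℕ) => x p.2 = v ∧ v ≠ p.1) (REIn.and ?_ ?_)
      · exact REIn.comp hx (f := fun p : (ℕ × ℕ) × ℕ => (p.1.2, p.2)) (by fun_prop)
      · exact REIn.of_re (RE.ne (by fun_prop) (by fun_prop))
    refine h.of_eq fun n => ?_
    constructor
    · rintro h1 ⟨i, hi⟩
      have h2 : i ≤ x i := hmono.id_le i
      obtain ⟨v, h3, h4⟩ := h1 i (by omega)
      exact h4 (h3 ▸ hi)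
    · intro h1 i _
      exact ⟨x i, rfl, fun h2 => h1 ⟨i, h2⟩⟩

end Pool.Agent.Y545.HM
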