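import Pool.Agent.Y545.HM.Dich

/-!
Primitive recursive colourings.
-/

namespace Pool.Agent.Y545.HM

open Encodable Pool.Agent.Helper446 Pool.Agent.Helper446.Defs Pool.Agent.Helper446.Oracle
open Nat.Partrec (Code)

/-- one step of the slow function -/
def stp (e : Code) (m n : ℕ) : ℕ :=
  bif ((Code.evaln m e n).map fun v => decide (v ≤ m)).getD false then n + 1 else n

/-- the slow function -/
def slo (e : Code) : ℕ → ℕ
  | 0 => 0
  | m + 1 => stp e m (slo e m)

theorem stp_eq (e : Code) (m n : ℕ) : stp e m n = n + 1 ∨ stp e m n = n := by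
  unfold stp
  cases ((Code.evaln m e n).map fun v => decide (v ≤ m)).getD false <;> simp

theorem pr_slo (e : Code) : Primrec (slo e) := by
  have h1 : Primrec fun x : ℕ × (ℕ × ℕ) => Code.evaln x.2.1 e x.2.2 :=
    Code.primrec_evaln.comp (Primrec.pair (Primrec.pair (Primrec.fst.comp Primrec.snd)
      (Primrec.const e)) (Primrec.snd.comp Primrec.snd))
  have h2 : Primrec fun x : ℕ × (ℕ × ℕ) =>
      ((Code.evaln x.2.1 e x.2.2).map fun v => decide (v ≤ x.2.1)).getD false := by
    refine Primrec.option_getD.comp (Primrec.option_map h1 ?_) (Primrec.const false)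
    have h3 : Primrec fun y : (ℕ × (ℕ × ℕ)) × ℕ => decide (y.2 ≤ y.1.2.1) := by
      have h4 : PrimrecPred fun y : (ℕ × (ℕ × ℕ)) × ℕ => y.2 ≤ y.1.2.1 :=
        Primrec.nat_le.comp Primrec.snd (Primrec.fst.comp (Primrec.snd.comp Primrec.fst))
      exact h4.decide
    exact h3
  have h3 : Primrec fun x : ℕ × (ℕ × ℕ) => stp e x.2.1 x.2.2 := by
    unfold stp
    exact Primrec.cond h2 (Primrec.succ.comp (Primrec.snd.comp Primrec.snd))
      (Primrec.snd.comp Primrec.snd)
  refine (Primrec.nat_rec' (f := fun n : ℕ => n) (g := fun _ => 0)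
    (h := fun _ (y : ℕ × ℕ) => stp e y.1 y.2) Primrec.id (Primrec.const 0) h3).of_eq
    fun n => ?_
  induction n with
  | zero => rfl
  | succ n ih =>
    show stp e n _ = stp e n (slo e n)
    rw [← ih]

theorem slo_mono (e : Code) : Monotone (slo e) := monotone_nat_of_le_succ fun m => by
  show slo e m ≤ stp e m (slo e m)
  rcases stp_eq e m (slo e m) with h | h <;> omega

theorem slo_spec {e : Code} {T : ℕ → ℕ} (hT : ∀ n, Code.eval e n = Part.some (T n)) (m n : ℕ)
    (h : slo e m = n + 1) : T n ≤ m := by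
  induction m with
  | zero => simp [slo] at h
  | succ m ih =>
    have h1 : stp e m (slo e m) = n + 1 := h
    rcases stp_eq e m (slo e m) with h2 | h2
    · have h3 : slo e m = n := by omega
      rw [h3] at h1
      unfold stp at h1
      rcases hb : Code.evaln m e n with _ | v
      · rw [hb] at h1
        simp at h1
      · rw [hb] at h1
        have h4 : v ∈ Code.eval e n := Code.evaln_complete.2 ⟨m, hb⟩
        rw [hT, Part.mem_some_iff] at h4
        by_cases hv : v ≤ m
        · omega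
        · simp [hv] at h1
    · rw [h2] at h1
      have := ih h1
      omega

theorem slo_surj {e : Code} {T : ℕ → ℕ} (hT : ∀ n, Code.eval e n = Part.some (T n)) (j : ℕ) :
    ∃ m, slo e m = j := by
  induction j with
  | zero => exact ⟨0, rfl⟩
  | succ j ih =>
    obtain ⟨m0, hm0⟩ := ih
    by_contra hcon
    push Not at hcon
    have h1 : ∀ m, m0 ≤ m → slo e m = j := by
      intro m hm
      induction m, hm using Nat.le_induction with
      | base => exact hm0
      | succ m hm ih =>
        have h2 : slo e (m + 1) = stp e m (slo e m) := rfl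
        rcases stp_eq e m (slo e m) with h3 | h3
        · exact absurd (by rw [h2, h3, ih]) (hcon (m + 1))
        · rw [h2, h3, ih]
    have h2 : T j ∈ Code.eval e j := by rw [hT]; exact Part.mem_some _
    obtain ⟨s, hs⟩ := Code.evaln_complete.1 h2
    let m := max m0 (max s (T j))
    have hm1 : m0 ≤ m := le_max_left _ _
    have hm2 : s ≤ m := (le_max_left _ _).trans (le_max_right _ _)
    have hm3 : T j ≤ m := (le_max_right _ _).trans (le_max_right _ _)
    have hs' : Code.evaln m e j = some (T j) := Code.evaln_mono hm2 hs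
    have h3 : slo e (m + 1) = j + 1 := by
      show stp e m (slo e m) = j + 1
      rw [h1 m hm1]
      unfold stp
      rw [hs']
      simp [hm3]
    exact hcon _ h3

/-- accumulated digits -/
def acc (h : ℕ → ℕ) (n : ℕ) : ℕ → ℕ
  | 0 => 0
  | i + 1 => if n / 2 ^ i % 2 = 1 ∧ acc h n i / 2 ^ h i % 2 = 0 then acc h n i + 2 ^ h i
      else acc h n i

theorem acc_eq (h : ℕ → ℕ) (n i : ℕ) :
    acc h n i = cd (((su n).filter (· < i)).image h) := by
  induction i with
  | zero => simp [acc, cd]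
  | succ i ih =>
    have h0 : ((su n).filter (· < i + 1)) =
        if i ∈ su n then insert i ((su n).filter (· < i)) else (su n).filter (· < i) := by
      ext j
      split_ifs with hi
      · simp only [Finset.mem_filter, Finset.mem_insert]
        constructor
        · rintro ⟨h1, h2⟩
          rcases Nat.lt_succ_iff_lt_or_eq.1 h2 with h3 | h3
          · exact Or.inr ⟨h1, h3⟩
          · exact Or.inl h3
        · rintro (rfl | ⟨h1, h2⟩)
          · exact ⟨hi, Nat.lt_succ_self _⟩
          · exact ⟨h1, by omega⟩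
      · simp only [Finset.mem_filter]
        constructor
        · rintro ⟨h1, h2⟩
          rcases Nat.lt_succ_iff_lt_or_eq.1 h2 with h3 | h3
          · exact ⟨h1, h3⟩
          · exact absurd (h3 ▸ h1) hi
        · rintro ⟨h1, h2⟩
          exact ⟨h1, by omega⟩
    have h1 : ∀ j, (acc h n i / 2 ^ j % 2 = 0 ↔ j ∉ ((su n).filter (· < i)).image h) := by
      intro j
      have h2 : j ∈ su (acc h n i) ↔ j ∈ ((su n).filter (· < i)).image h := by
        rw [ih, su_cd]
      rw [← h2, mem_su']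
      omega
    rw [h0]
    unfold acc
    by_cases hi : i ∈ su n
    · rw [if_pos hi, Finset.image_insert]
      have hi' := mem_su'.1 hi
      by_cases hj : h i ∈ ((su n).filter (· < i)).image h
      · rw [if_neg (fun hc => (h1 (h i)).1 hc.2 hj), Finset.insert_eq_of_mem hj, ih]
      · rw [if_pos ⟨hi', (h1 (h i)).2 hj⟩]
        unfold cd at *
        rw [Finset.sum_insert hj, ih, Nat.add_comm]
    · rw [if_neg hi, if_neg (fun hc => hi (mem_su'.2 hc.1)), ih]

theorem acc_self (h : ℕ → ℕ) (n : ℕ) : acc h n n = ph h n := by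
  rw [acc_eq]
  unfold ph
  congr 2
  rw [Finset.filter_true_of_mem]
  exact fun i hi => lt_of_mem_su hi

theorem pr_ph {h : ℕ → ℕ} (hh : Primrec h) : Primrec (ph h) := by
  have hd : Primrec fun p : ℕ × ℕ => p.1 / 2 ^ p.2 % 2 :=
    Primrec.nat_mod.comp (Primrec.nat_div.comp Primrec.fst (pr_pow2.comp Primrec.snd))
      (Primrec.const 2)
  have h1 : Primrec fun x : ℕ × (ℕ × ℕ) => x.1 / 2 ^ x.2.1 % 2 :=
    hd.comp (Primrec.pair Primrec.fst (Primrec.fst.comp Primrec.snd))
  have hhi : Primrec fun x : ℕ × (ℕ × ℕ) => h x.2.1 := hh.comp (Primrec.fst.comp Primrec.snd)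
  have h2 : Primrec fun x : ℕ × (ℕ × ℕ) => x.2.2 / 2 ^ h x.2.1 % 2 :=
    hd.comp (Primrec.pair (Primrec.snd.comp Primrec.snd) hhi)
  have h3 : Primrec fun x : ℕ × (ℕ × ℕ) =>
      if x.1 / 2 ^ x.2.1 % 2 = 1 ∧ x.2.2 / 2 ^ h x.2.1 % 2 = 0 then x.2.2 + 2 ^ h x.2.1
        else x.2.2 := by
    refine Primrec.ite (PrimrecPred.and (Primrec.eq.comp h1 (Primrec.const 1))
      (Primrec.eq.comp h2 (Primrec.const 0))) ?_ (Primrec.snd.comp Primrec.snd)
    exact Primrec.nat_add.comp (Primrec.snd.comp Primrec.snd) (pr_pow2.comp hhi)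
  refine (Primrec.nat_rec' (f := fun n : ℕ => n) (g := fun _ => 0)
    (h := fun n (y : ℕ × ℕ) => if n / 2 ^ y.1 % 2 = 1 ∧ y.2 / 2 ^ h y.1 % 2 = 0
      then y.2 + 2 ^ h y.1 else y.2) Primrec.id (Primrec.const 0) h3).of_eq fun n => ?_
  rw [← acc_self]
  have h4 : ∀ i, (Nat.rec (motive := fun _ => ℕ) 0 (fun (y IH : ℕ) =>
      if n / 2 ^ y % 2 = 1 ∧ IH / 2 ^ h y % 2 = 0 then IH + 2 ^ h y else IH) i : ℕ) =
      acc h n i := by
    intro i
    induction i with
    | zero => rfl
    | succ i ih =>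
      simp only [acc]
      rw [ih]
  exact h4 n

/-- the colouring can be made primitive recursive -/
theorem prim {k : ℕ} {c : ℕ → Fin k} (hc : Computable c) {w : ℕ → ℕ} (hmono : Monotone w)
    (h2 : 2 ≤ w 0) (hw : ∃ w' : ℕ → ℕ, Computable w' ∧ (∀ B, ∃ m, B ≤ w' m) ∧ ∀ m, w' m ≤ w m) :
    ∃ φ : ℕ → ℕ, Primrec φ ∧ Primrec (c ∘ φ) ∧ (∀ n, 0 < n → 0 < φ n) ∧
      (∀ m, Mem (c ∘ φ) m (w m)) ∧
      (∀ Y, Sol (c ∘ φ) Y → ∃ X : Set ℕ, Sol c X ∧ Dec Y X) ∧
      ∀ X, Sol c X → ∃ Y : Set ℕ, Sol (c ∘ φ) Y ∧ Dec X Y := by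
  obtain ⟨w', hw1, hw2, hw3⟩ := hw
  -- a code for the colouring
  have hcv : Computable fun n => (c n).val := Primrec.fin_val.to_comp.comp hc
  obtain ⟨ec, hec⟩ := Code.exists_code.1 (Partrec.nat_iff.1 hcv)
  have hec' : ∀ n, Code.eval ec n = Part.some (c n).val := fun n => congrFun hec n
  have hev : ∀ s z, (Code.evaln s ec z).isSome = true → Code.evaln s ec z = some (c z).val := by
    intro s z hs
    obtain ⟨v, hv⟩ := Option.isSome_iff_exists.1 hs
    have h4 : v ∈ Code.eval ec z := Code.evaln_complete.2 ⟨s, hv⟩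
    rw [hec', Part.mem_some_iff] at h4
    rw [hv, h4]
  have hev2 : ∀ z, ∃ s, ∀ t, s ≤ t → (Code.evaln t ec z).isSome = true := by
    intro z
    have h2 : (c z).val ∈ Code.eval ec z := by rw [hec']; exact Part.mem_some _
    obtain ⟨s, hs⟩ := Code.evaln_complete.1 h2
    refine ⟨s, fun t ht => ?_⟩
    have h3 := Code.evaln_mono ht hs
    rw [Option.mem_def] at h3
    rw [h3]
    rfl
  -- the slowing function
  have hce : Computable fun x : ℕ × ℕ => (Code.evaln x.1 ec x.2).isSome := by
    have h3 : Primrec fun x : ℕ × ℕ => Code.evaln x.1 ec x.2 :=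
      Code.primrec_evaln.comp (Primrec.pair (Primrec.pair Primrec.fst (Primrec.const ec))
        Primrec.snd)
    exact (Primrec.option_isSome.comp h3).to_comp
  have hR : REPred fun x : ℕ × ℕ => 2 ^ (x.1 + 2) ≤ w' x.2.unpair.1 ∧ x.2.unpair.1 ≤ x.2 ∧
      ∀ z < 2 ^ (x.1 + 2), (Code.evaln x.2.unpair.2 ec z).isSome = true := by
    refine RE.and (RE.le (by fun_prop) (by fun_prop)) (RE.and (RE.le (by fun_prop)
      (by fun_prop)) ?_)
    refine RE.all_lt (p := fun (x : ℕ × ℕ) z => (Code.evaln x.2.unpair.2 ec z).isSome = true) ?_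
      (by fun_prop)
    exact RE.of_bool (hce.comp (g := fun y : (ℕ × ℕ) × ℕ => (y.1.2.unpair.2, y.2))
      (by fun_prop))
  obtain ⟨T, hT, hTR⟩ := choice (A := ∅) (R := fun n v : ℕ => 2 ^ (n + 2) ≤ w' v.unpair.1 ∧
      v.unpair.1 ≤ v ∧ ∀ z < 2 ^ (n + 2), (Code.evaln v.unpair.2 ec z).isSome = true)
      (REIn.of_re hR) (by
    intro n
    obtain ⟨m, hm⟩ := hw2 (2 ^ (n + 2))
    choose s hs using hev2
    refine ⟨Nat.pair m ((Finset.range (2 ^ (n + 2))).sup s), ?_, ?_, fun z hz => ?_⟩
    · rwa [Nat.unpair_pair]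
    · rw [Nat.unpair_pair]
      exact Nat.left_le_pair _ _
    · rw [Nat.unpair_pair]
      exact hs z _ (Finset.le_sup (f := s) (Finset.mem_range.2 hz)))
  have hTc : Computable T := RE.computable_of_graph (re_of_empty hT)
  obtain ⟨e, he⟩ := Code.exists_code.1 (Partrec.nat_iff.1 hTc)
  have he' : ∀ n, Code.eval e n = Part.some (T n) := fun n => congrFun he n
  let h := slo e
  have hh : Primrec h := pr_slo e
  have hhg : ∀ B : Set ℕ, Gr B h := fun B => Gr.of_comp hh.to_comp
  have hm1 : Monotone h := slo_mono e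
  have hs1 : ∀ j, ∃ m, h m = j := slo_surj he'
  have hsp : ∀ m n, h m = n + 1 → T n ≤ m := slo_spec he'
  obtain ⟨s0, hs0⟩ := hev2 0
  obtain ⟨s1, hs1'⟩ := hev2 1
  have h3 : ∀ m, 2 ^ (h m + 1) ≤ w m := by
    intro m
    rcases hn : h m with _ | n
    · have := hmono (Nat.zero_le m)
      simp only [Nat.zero_add, pow_one]
      omega
    · have h4 := hsp m n hn
      exact (hTR n).1.trans ((hw3 _).trans (hmono ((hTR n).2.1.trans h4)))
  have hval : ∀ n, ((Code.evaln (n + (s0 + s1)) ec (ph h n)).getD 0) = (c (ph h n)).val := by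
    intro n
    have h5 : ph h n < 2 ^ (h n + 1) := cd_lt fun j hj => by
      obtain ⟨i, hi, rfl⟩ := Finset.mem_image.1 hj
      exact Nat.lt_succ_of_le (hm1 (lt_of_mem_su hi).le)
    have h6 : (Code.evaln (n + (s0 + s1)) ec (ph h n)).isSome = true := by
      rcases hn : h n with _ | n'
      · rw [hn] at h5
        have h7 : ph h n = 0 ∨ ph h n = 1 := by
          simp only [Nat.zero_add, pow_one] at h5
          omega
        rcases h7 with h7 | h7
        · rw [h7]; exact hs0 _ (by omega)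
        · rw [h7]; exact hs1' _ (by omega)
      · have h7 := hsp n n' hn
        have h8 := (hTR n').2.2 (ph h n) (by rw [hn] at h5; exact h5)
        have h9 : (T n').unpair.2 ≤ n + (s0 + s1) :=
          (Nat.unpair_right_le _).trans (by omega)
        obtain ⟨v, hv⟩ := Option.isSome_iff_exists.1 h8
        have h10 := Code.evaln_mono h9 (Option.mem_def.2 hv)
        rw [Option.mem_def] at h10
        rw [h10]
        rfl
    rw [hev _ _ h6]
    rfl
  refine ⟨ph h, pr_ph hh, ?_, fun n hn => ph_pos hn, fun m => ?_, fun Y hY => ?_,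
    fun X hX => ?_⟩
  · rw [← Primrec.fin_val_iff]
    have h5 : Primrec fun n : ℕ => Code.evaln (n + (s0 + s1)) ec (ph h n) :=
      Code.primrec_evaln.comp (Primrec.pair (Primrec.pair (Primrec.nat_add.comp Primrec.id
        (Primrec.const (s0 + s1))) (Primrec.const ec)) (pr_ph hh))
    exact (Primrec.option_getD.comp h5 (Primrec.const 0)).of_eq hval
  · refine mem_ph c ?_ fun i hi => (h3 i).trans (hmono hi.le)
    have := hmono (Nat.zero_le m)
    omega
  · refine transfer (hhg Y) Dec.rfl hm1 (fun j => ?_) hY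
    obtain ⟨m, hm⟩ := hs1 (j + 1)
    exact ⟨m, by omega⟩
  · exact transfer_back (hhg X) Dec.rfl hm1 hs1 hX

end Pool.Agent.Y545.HM
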