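import Pool.Agent.Y545.HM.Main

/-!
Every slowly growing memory is enough to code every colouring.
-/

namespace Pool.Agent.Y545.HM

open Encodable Pool.Agent.Helper446 Pool.Agent.Helper446.Defs Pool.Agent.Helper446.Oracle

/-- the set of the exponents in the binary expansion -/
def su (n : ℕ) : Finset ℕ := n.bitIndices.toFinset

/-- the number with a given set of exponents -/
def cd (s : Finset ℕ) : ℕ := ∑ i ∈ s, 2 ^ i

theorem mem_su {n i : ℕ} : i ∈ su n ↔ n.testBit i = true := by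
  unfold su
  rw [List.mem_toFinset, Nat.mem_bitIndices]

theorem mem_su' {n i : ℕ} : i ∈ su n ↔ n / 2 ^ i % 2 = 1 := by
  rw [mem_su, Nat.testBit_eq_decide_div_mod_eq, decide_eq_true_iff]

theorem su_cd (s : Finset ℕ) : su (cd s) = s := Finset.toFinset_bitIndices_sum_two_pow s

theorem cd_su (n : ℕ) : cd (su n) = n := Finset.sum_toFinset_bitIndices_two_pow n

theorem lt_of_mem_su {n i : ℕ} (h : i ∈ su n) : i < n := by
  unfold su at h
  rw [List.mem_toFinset] at h
  exact lt_of_lt_of_le Nat.lt_two_pow_self (Nat.two_pow_le_of_mem_bitIndices h)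

theorem lt_of_mem_su_of_lt {n i m : ℕ} (h : i ∈ su n) (hn : n < 2 ^ m) : i < m := by
  unfold su at h
  rw [List.mem_toFinset] at h
  exact (Nat.pow_lt_pow_iff_right (by norm_num)).1
    (lt_of_le_of_lt (Nat.two_pow_le_of_mem_bitIndices h) hn)

theorem le_of_mem_su {m t i : ℕ} (h : i ∈ su (2 ^ m * t)) : m ≤ i := by
  rw [mem_su, Nat.testBit_two_pow_mul] at h
  simp only [ge_iff_le, Bool.and_eq_true, decide_eq_true_eq] at h
  exact h.1

theorem su_add {a m t : ℕ} (ha : a < 2 ^ m) : su (a + 2 ^ m * t) = su a ∪ su (2 ^ m * t) := by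
  ext i
  rw [Finset.mem_union, mem_su, mem_su, mem_su, Nat.add_comm, Nat.testBit_two_pow_mul_add _ ha,
    Nat.testBit_two_pow_mul]
  by_cases hi : i < m
  · rw [if_pos hi]
    have : ¬ m ≤ i := by omega
    simp [this]
  · rw [if_neg hi]
    have h1 : a.testBit i = false := Nat.testBit_lt_two_pow
      (lt_of_lt_of_le ha (Nat.pow_le_pow_right (by norm_num) (by omega)))
    have h2 : m ≤ i := by omega
    simp [h1, h2]

theorem su_nonempty {n : ℕ} (h : 0 < n) : (su n).Nonempty := by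
  rw [Finset.nonempty_iff_ne_empty]
  intro h1
  have h2 := cd_su n
  rw [h1] at h2
  simp [cd] at h2
  omega

theorem cd_lt {s : Finset ℕ} {B : ℕ} (h : ∀ i ∈ s, i < B) : cd s < 2 ^ B := by
  have h1 : cd s ≤ cd (Finset.range B) :=
    Finset.sum_le_sum_of_subset fun i hi => Finset.mem_range.2 (h i hi)
  have h2 : ∀ B, cd (Finset.range B) + 1 = 2 ^ B := by
    intro B
    induction B with
    | zero => rfl
    | succ B ih =>
      unfold cd at *
      rw [Finset.sum_range_succ, pow_succ]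
      omega
  have := h2 B
  omega

/-- The digit map. -/
def ph (h : ℕ → ℕ) (n : ℕ) : ℕ := cd ((su n).image h)

variable {h : ℕ → ℕ}

theorem ph_pos {n : ℕ} (hn : 0 < n) : 0 < ph h n := by
  obtain ⟨i, hi⟩ := su_nonempty hn
  exact Finset.sum_pos (fun i _ => by positivity) ⟨h i, Finset.mem_image_of_mem h hi⟩

theorem mem_ph {k : ℕ} (c : ℕ → Fin k) {m W : ℕ} (hW1 : 1 ≤ W)
    (hW : ∀ i < m, 2 ^ (h i + 1) ≤ W) : Mem (c ∘ ph h) m W := by
  refine ⟨fun a => ⟨ph h a % W, Nat.mod_lt _ hW1⟩, fun a ha b hb hab t ht => ?_⟩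
  have h1 : ∀ a < 2 ^ m, ph h a < W := by
    intro a ha
    rcases (su a).eq_empty_or_nonempty with he | hne
    · unfold ph
      rw [he]
      simp only [Finset.image_empty, cd, Finset.sum_empty]
      omega
    · let M := ((su a).image h).max' (hne.image h)
      have hM : M ∈ (su a).image h := Finset.max'_mem _ _
      obtain ⟨i, hi, hiM⟩ := Finset.mem_image.1 hM
      have h3 : ph h a < 2 ^ (M + 1) := cd_lt fun j hj =>
        Nat.lt_succ_of_le (Finset.le_max' _ _ hj)
      rw [← hiM] at h3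
      exact lt_of_lt_of_le h3 (hW i (lt_of_mem_su_of_lt hi ha))
  have h2 : ph h a = ph h b := by
    have h3 := congrArg Fin.val hab
    simp only at h3
    rwa [Nat.mod_eq_of_lt (h1 a ha), Nat.mod_eq_of_lt (h1 b hb)] at h3
  have h4 : (su a).image h = (su b).image h := by
    have h5 := congrArg su h2
    unfold ph at h5
    rwa [su_cd, su_cd] at h5
  show c (ph h (a + 2 ^ m * t)) = c (ph h (b + 2 ^ m * t))
  unfold ph
  rw [su_add ha, su_add hb, Finset.image_union, Finset.image_union, h4]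

theorem ph_add (hmono : Monotone h) {a m t : ℕ} (ha : a < 2 ^ m) (hh : ∀ i ∈ su a, h i < h m) :
    ph h (a + 2 ^ m * t) = ph h a + ph h (2 ^ m * t) := by
  unfold ph
  rw [su_add ha, Finset.image_union]
  unfold cd
  refine Finset.sum_union ?_
  rw [Finset.disjoint_left]
  intro j hj hj'
  obtain ⟨i, hi, rfl⟩ := Finset.mem_image.1 hj
  obtain ⟨i', hi', he⟩ := Finset.mem_image.1 hj'
  have h1 := hh i hi
  have h2 := hmono (le_of_mem_su hi')
  omega

theorem le_ph (hmono : Monotone h) {m n : ℕ} (hn : 0 < n) (hd : 2 ^ m ∣ n) :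
    2 ^ h m ≤ ph h n := by
  obtain ⟨t, rfl⟩ := hd
  obtain ⟨i, hi⟩ := su_nonempty hn
  have h1 : 2 ^ h i ≤ ph h (2 ^ m * t) :=
    Finset.single_le_sum (f := fun j => 2 ^ j) (fun j _ => Nat.zero_le _)
      (Finset.mem_image_of_mem h hi)
  exact (Nat.pow_le_pow_right (by norm_num) (hmono (le_of_mem_su hi))).trans h1

theorem c_dm {α : Type*} [Primcodable α] {f g : α → ℕ} (hf : Computable f) (hg : Computable g) :
    Computable fun x => f x / 2 ^ g x % 2 := by
  have h1 : Primrec fun p : ℕ × ℕ => p.1 / 2 ^ p.2 % 2 :=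
    Primrec.nat_mod.comp (Primrec.nat_div.comp Primrec.fst (pr_pow2.comp Primrec.snd))
      (Primrec.const 2)
  exact h1.to_comp.comp (hf.pair hg)

theorem re_mem_su {α : Type*} [Primcodable α] {f g : α → ℕ} (hf : Computable f)
    (hg : Computable g) : REPred fun x => g x ∈ su (f x) := by
  refine (RE.eq (c_dm hf hg) (g := fun _ => 1) (by fun_prop)).of_eq fun x => ?_
  rw [mem_su']

theorem re_not_mem_su {α : Type*} [Primcodable α] {f g : α → ℕ} (hf : Computable f)
    (hg : Computable g) : REPred fun x => g x ∉ su (f x) := by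
  refine (RE.ne (c_dm hf hg) (g := fun _ => 1) (by fun_prop)).of_eq fun x => ?_
  rw [mem_su']

theorem gr_ph {A : Set ℕ} (hh : Gr A h) : Gr A (ph h) := by
  have h1 : REIn A fun p : ℕ × ℕ => (∀ i < p.1, i ∉ su p.1 ∨ h i ∈ su p.2) ∧
      ∀ j < p.2, j ∉ su p.2 ∨ ∃ i, i ∈ su p.1 ∧ h i = j := by
    refine REIn.and ?_ ?_
    · refine REIn.all_lt (S := fun (p : ℕ × ℕ) i => i ∉ su p.1 ∨ h i ∈ su p.2) ?_ (by fun_prop)
      refine REIn.or (REIn.of_re (re_not_mem_su (f := fun x : (ℕ × ℕ) × ℕ => x.1.1)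
        (g := fun x => x.2) (by fun_prop) (by fun_prop))) ?_
      refine re_gr (S := fun u : ℕ × ℕ => u.1 ∈ su u.2) (f := fun x : (ℕ × ℕ) × ℕ =>
        (h x.2, x.1.2)) (REIn.of_re (re_mem_su (by fun_prop) (by fun_prop))) ?_
      exact (hh.pre (g := fun x : (ℕ × ℕ) × ℕ => x.2) (by fun_prop)).pair
        (Gr.of_comp (by fun_prop))
    · refine REIn.all_lt (S := fun (p : ℕ × ℕ) j => j ∉ su p.2 ∨ ∃ i, i ∈ su p.1 ∧ h i = j) ?_
        (by fun_prop)
      refine REIn.or (REIn.of_re (re_not_mem_su (f := fun x : (ℕ × ℕ) × ℕ => x.1.2)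
        (g := fun x => x.2) (by fun_prop) (by fun_prop))) ?_
      refine REIn.ex (S := fun (x : (ℕ × ℕ) × ℕ) i => i ∈ su x.1.1 ∧ h i = x.2) ?_
      refine REIn.and (REIn.of_re (re_mem_su (f := fun x : ((ℕ × ℕ) × ℕ) × ℕ => x.1.1.1)
        (g := fun x => x.2) (by fun_prop) (by fun_prop))) ?_
      exact REIn.comp hh (f := fun x : ((ℕ × ℕ) × ℕ) × ℕ => (x.2, x.1.2)) (by fun_prop)
  refine h1.of_eq fun p => ?_
  obtain ⟨n, y⟩ := p
  simp only
  have h2 : ph h n = y ↔ (su n).image h = su y := by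
    constructor
    · rintro rfl
      unfold ph
      rw [su_cd]
    · intro h3
      unfold ph
      rw [h3, cd_su]
  rw [h2]
  constructor
  · rintro ⟨h3, h4⟩
    ext j
    rw [Finset.mem_image]
    constructor
    · rintro ⟨i, hi, rfl⟩
      rcases h3 i (lt_of_mem_su hi) with h5 | h5
      exacts [absurd hi h5, h5]
    · intro hj
      rcases h4 j (lt_of_mem_su hj) with h5 | h5
      exacts [absurd hj h5, h5]
  · intro h3
    constructor
    · intro i _
      by_cases hi : i ∈ su n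
      · right
        rw [← h3]
        exact Finset.mem_image_of_mem h hi
      · exact Or.inl hi
    · intro j _
      by_cases hj : j ∈ su y
      · right
        rw [← h3] at hj
        exact Finset.mem_image.1 hj
      · exact Or.inl hj

theorem pr_sum : Primrec fun l : List ℕ => l.sum :=
  Primrec.list_foldr (f := fun a : List ℕ => a) (g := fun _ => 0)
    (h := fun _ (z : ℕ × ℕ) => z.1 + z.2) Primrec.id (Primrec.const 0)
    (Primrec.nat_add.comp (Primrec.fst.comp Primrec.snd) (Primrec.snd.comp Primrec.snd))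

@[fun_prop] theorem c_sum {α : Type*} [Primcodable α] {f : α → List ℕ} (hf : Computable f) :
    Computable (fun x => (f x).sum) := pr_sum.to_comp.comp hf

/-- Far finite subsets with a sum divisible by a given power. -/
theorem exists_div {Y : Set ℕ} (hY : Y.Infinite) (a M : ℕ) :
    ∃ F : Finset ℕ, F.Nonempty ∧ (∀ x ∈ F, x ∈ Y ∧ a < x) ∧ 2 ^ M ∣ ∑ x ∈ F, x := by
  have h1 : {y | y ∈ Y ∧ a < y}.Infinite := by
    intro hf
    apply hY
    refine (hf.union (Set.finite_Iic a)).subset fun y hy => ?_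
    by_cases h2 : a < y
    · exact Or.inl ⟨hy, h2⟩
    · exact Or.inr (by simpa using h2)
  have := h1.to_subtype
  obtain ⟨r, hr⟩ := Finite.exists_infinite_fiber
    (fun y : {y | y ∈ Y ∧ a < y} => (⟨(y : ℕ) % 2 ^ M, Nat.mod_lt _ (by positivity)⟩ :
      Fin (2 ^ M)))
  let e := Infinite.natEmbedding ((fun y : {y | y ∈ Y ∧ a < y} =>
    (⟨(y : ℕ) % 2 ^ M, Nat.mod_lt _ (by positivity)⟩ : Fin (2 ^ M))) ⁻¹' {r})
  let u : ℕ → ℕ := fun i => ((e i).1 : ℕ)
  have hu : Function.Injective u := fun i j hij =>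
    e.injective (Subtype.ext (Subtype.ext hij))
  have hur : ∀ i, u i % 2 ^ M = r.1 := fun i => congrArg Fin.val (e i).2
  refine ⟨(Finset.range (2 ^ M)).image u, ?_, ?_, ?_⟩
  · exact ⟨u 0, Finset.mem_image_of_mem u (Finset.mem_range.2 (by positivity))⟩
  · intro x hx
    obtain ⟨i, -, rfl⟩ := Finset.mem_image.1 hx
    exact (e i).1.2
  · rw [Finset.sum_image fun i _ j _ hij => hu hij, Nat.dvd_iff_mod_eq_zero,
      Finset.sum_nat_mod, Finset.sum_congr rfl fun i _ => hur i]
    simp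

/-- the selection relation -/
def Rl (h : ℕ → ℕ) (Y : Set ℕ) (a : ℕ) (l : List ℕ) : Prop :=
  l ≠ [] ∧ l.Nodup ∧ (∀ x ∈ l, x ∈ Y) ∧ (∀ x ∈ l, a < x) ∧
    ∃ M, (∃ t, l.sum = 2 ^ M * t) ∧ h a < h M

theorem re_rl {B Y : Set ℕ} (hh : Gr B h) (hB : Dec B Y) :
    REIn B fun x : ℕ × List ℕ => Rl h Y x.1 x.2 := by
  unfold Rl
  refine REIn.and (REIn.of_re (RE.ne (by fun_prop) (by fun_prop)))
    (REIn.and (REIn.of_re (RE.cp_nodup (by fun_prop))) (REIn.and ?_ (REIn.and ?_ ?_)))
  · exact REIn.all_mem (S := fun (_ : ℕ × List ℕ) (x : ℕ) => x ∈ Y)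
      (hB.1.comp (f := fun p : (ℕ × List ℕ) × ℕ => p.2) (by fun_prop)) (by fun_prop)
  · refine REIn.of_re (RE.all_mem (p := fun (y : ℕ × List ℕ) (x : ℕ) => y.1 < x) ?_
      (by fun_prop))
    exact RE.lt (by fun_prop) (by fun_prop)
  · refine REIn.ex (S := fun (y : ℕ × List ℕ) (M : ℕ) =>
      (∃ t, y.2.sum = 2 ^ M * t) ∧ h y.1 < h M) (REIn.and (REIn.of_re ?_) ?_)
    · exact RE.exN (p := fun (y : (ℕ × List ℕ) × ℕ) (t : ℕ) =>
        y.1.2.sum = 2 ^ y.2 * t) (RE.eq (by fun_prop) (by fun_prop))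
    · refine re_gr (S := fun u : ℕ × ℕ => u.1 < u.2) (f := fun x : (ℕ × List ℕ) × ℕ =>
        (h x.1.1, h x.2)) (REIn.of_re (RE.lt (by fun_prop) (by fun_prop))) ?_
      exact (hh.pre (g := fun x : (ℕ × List ℕ) × ℕ => x.1.1) (by fun_prop)).pair
        (hh.pre (g := fun x : (ℕ × List ℕ) × ℕ => x.2) (by fun_prop))

/-- **Transfer**: every solution of `c ∘ ph h` computes a solution of `c`. -/
theorem transfer {B Y : Set ℕ} (hh : Gr B h) (hB : Dec B Y) (hmono : Monotone h)
    (hunb : ∀ B, ∃ m, B < h m) {k : ℕ} {c : ℕ → Fin k} (hY : Sol (c ∘ ph h) Y) :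
    ∃ X : Set ℕ, Sol c X ∧ Dec B X := by
  classical
  obtain ⟨hYi, hY0, j, hYc⟩ := hY
  have htot : ∀ a, ∃ l, Rl h Y a l := by
    intro a
    obtain ⟨M, hM⟩ := hunb (h a)
    obtain ⟨F, hF1, hF2, hF3⟩ := exists_div hYi a M
    obtain ⟨t, ht⟩ := hF3
    refine ⟨F.toList, ?_, F.nodup_toList, fun x hx => (hF2 x (Finset.mem_toList.1 hx)).1,
      fun x hx => (hF2 x (Finset.mem_toList.1 hx)).2, M, ⟨t, ?_⟩, hM⟩
    · intro h1
      rw [Finset.toList_eq_nil] at h1
      exact hF1.ne_empty h1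
    · rw [← ht, Finset.sum_toList]
  obtain ⟨f, hf, hfR⟩ := choice (re_rl hh hB) htot
  let nx : ℕ → ℕ := fun a => a + (f a).sum
  have hnx : Gr B nx := (Gr.post (g := fun p : ℕ × List ℕ => p.1 + p.2.sum) (by fun_prop)
    ((Gr.of_comp Computable.id).pair hf)).of_eq fun a => rfl
  let av : ℕ → ℕ := fun n => nx^[n] 0
  have hav : Gr B av := Gr.iter hnx 0
  have hav_succ : ∀ n, av (n + 1) = av n + (f (av n)).sum := fun n =>
    Function.iterate_succ_apply' nx n 0
  let s : ℕ → ℕ := fun n => (f (av n)).sum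
  let Fs : ℕ → Finset ℕ := fun n => (f (av n)).toFinset
  let z : ℕ → ℕ := fun n => ph h (s n)
  have hz : Gr B z := (gr_ph hh).comp (Gr.post (g := fun l : List ℕ => l.sum)
    (by fun_prop) (hf.comp hav))
  have hs : ∀ n, s n = ∑ x ∈ Fs n, x := by
    intro n
    have h1 := List.sum_toFinset (fun x : ℕ => x) (hfR (av n)).2.1
    show (f (av n)).sum = _
    rw [h1]
    simp
  have hFY : ∀ n, ∀ x ∈ Fs n, x ∈ Y := fun n x hx => (hfR (av n)).2.2.1 x (List.mem_toFinset.1 hx)
  have hFa : ∀ n, ∀ x ∈ Fs n, av n < x := fun n x hx =>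
    (hfR (av n)).2.2.2.1 x (List.mem_toFinset.1 hx)
  have hFne : ∀ n, (Fs n).Nonempty := by
    intro n
    rw [List.toFinset_nonempty_iff]
    exact (hfR (av n)).1
  have hspos : ∀ n, 0 < s n := by
    intro n
    rw [hs]
    refine Finset.sum_pos (fun x hx => ?_) (hFne n)
    have := hFa n x hx
    omega
  have hM : ∀ n, ∃ M, 2 ^ M ∣ s n ∧ h (av n) < h M := by
    intro n
    obtain ⟨M, ⟨t, ht⟩, hM⟩ := (hfR (av n)).2.2.2.2
    exact ⟨M, ⟨t, ht⟩, hM⟩
  have hle : ∀ n, ∀ G ⊆ Finset.range n, ∑ i ∈ G, s i ≤ av n := by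
    have h1 : ∀ n, ∑ i ∈ Finset.range n, s i = av n := by
      intro n
      induction n with
      | zero => rfl
      | succ n ih => rw [Finset.sum_range_succ, ih, hav_succ]
    intro n G hG
    rw [← h1 n]
    exact Finset.sum_le_sum_of_subset hG
  have hadd : ∀ n, ∀ G ⊆ Finset.range n, ph h (∑ i ∈ G, s i) = ∑ i ∈ G, z i := by
    intro n
    induction n with
    | zero =>
      intro G hG
      have : G = ∅ := by simpa using hG
      rw [this]
      simp [ph, su, cd]
    | succ n ih =>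
      intro G hG
      have h3 : G.erase n ⊆ Finset.range n := by
        intro i hi
        have h4 := Finset.mem_range.1 (hG (Finset.mem_of_mem_erase hi))
        have h5 := Finset.ne_of_mem_erase hi
        exact Finset.mem_range.2 (by omega)
      by_cases hn : n ∈ G
      · rw [← Finset.sum_erase_add _ _ hn, ← Finset.sum_erase_add _ _ hn, ← ih _ h3]
        obtain ⟨M, ⟨t, ht⟩, hM⟩ := hM n
        have h4 := hle n _ h3
        have h5 : av n < M := by
          by_contra hcon
          have := hmono (Nat.le_of_not_lt hcon)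
          omega
        have h6 : M < 2 ^ M := Nat.lt_two_pow_self
        show ph h (_ + s n) = _ + ph h (s n)
        rw [ht]
        refine ph_add hmono (by omega) fun i hi => ?_
        have h7 := lt_of_mem_su hi
        exact lt_of_le_of_lt (hmono (by omega)) hM
      · rw [Finset.erase_eq_of_notMem hn] at h3
        exact ih _ h3
  have havmono : Monotone av := monotone_nat_of_le_succ fun n => by
    rw [hav_succ]; omega
  have hzmono : StrictMono z := by
    refine strictMono_nat_of_lt_succ fun n => ?_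
    obtain ⟨M, hM1, hM2⟩ := hM (n + 1)
    have h1 : z n < 2 ^ h M := by
      refine cd_lt fun j hj => ?_
      obtain ⟨i, hi, rfl⟩ := Finset.mem_image.1 hj
      have h2 := lt_of_mem_su hi
      have h3 : s n ≤ av (n + 1) := by
        rw [hav_succ]
        exact Nat.le_add_left _ _
      exact lt_of_le_of_lt (hmono (by omega)) hM2
    exact lt_of_lt_of_le h1 (le_ph hmono (hspos (n + 1)) hM1)
  have hdisj : ∀ i i', i < i' → Disjoint (Fs i) (Fs i') := by
    intro i i' hii
    rw [Finset.disjoint_left]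
    intro x hx hx'
    have h1 := hFa i' x hx'
    have h2 : x ≤ s i := by
      rw [hs]
      exact Finset.single_le_sum (f := fun x => x) (fun _ _ => Nat.zero_le _) hx
    have h3 := havmono (show i + 1 ≤ i' by omega)
    rw [hav_succ] at h3
    have h4 : s i = (f (av i)).sum := rfl
    omega
  refine ⟨Set.range z, ⟨Set.infinite_range_of_injective hzmono.injective, ?_, j, ?_⟩,
    range_dec hz hzmono⟩
  · rintro ⟨n, hn⟩
    have := ph_pos (h := h) (hspos n)
    have hn : ph h (s n) = 0 := hn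
    omega
  · intro F hF hne
    rw [← Set.image_univ] at hF
    obtain ⟨G, -, rfl⟩ := Finset.subset_set_image_iff.1 hF
    have hGne : G.Nonempty := Finset.image_nonempty.1 hne
    rw [Finset.sum_image (fun a _ b _ h => hzmono.injective h)]
    have h1 : G ⊆ Finset.range (G.sup id + 1) := fun i hi =>
      Finset.mem_range.2 (Nat.lt_succ_of_le (Finset.le_sup (f := id) hi))
    rw [← hadd _ G h1]
    have h2 : ∑ i ∈ G, s i = ∑ x ∈ G.biUnion Fs, x := by
      rw [Finset.sum_biUnion]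
      · exact Finset.sum_congr rfl fun i _ => hs i
      · intro a _ b _ hab
        rcases Nat.lt_or_gt_of_ne hab with h | h
        · exact hdisj a b h
        · exact (hdisj b a h).symm
    rw [h2]
    refine hYc _ ?_ ?_
    · intro x hx
      obtain ⟨i, -, hxi⟩ := Finset.mem_biUnion.1 (Finset.mem_coe.1 hx)
      exact hFY i x hxi
    · obtain ⟨i, hi⟩ := hGne
      obtain ⟨x, hx⟩ := hFne i
      exact ⟨x, Finset.mem_biUnion.2 ⟨i, hi, hx⟩⟩

end Pool.Agent.Y545.HM
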