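import Pool.Agent.Y545.HM.Mix
import Pool.Agent.Y545.HM.Prim

/-!
The definitions used in the statements on Hindman's theorem for colourings of bounded memory, in
terms of Turing reducibility as defined in Mathlib, and their translations.
-/

namespace Pool.Agent.Y545.HM.St

open Pool.Agent.Y545.HM Pool.Agent.Helper446.Oracle

/-- The characteristic function of a set of natural numbers, as a (total) partial function. -/
noncomputable def char (B : Set ℕ) : ℕ →. ℕ := by
  classical exact fun n => Part.some (if n ∈ B then 1 else 0)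

/-- The partial function `f` is Turing reducible to the set `A`. -/
def Computes (A : Set ℕ) (f : ℕ →. ℕ) : Prop := TuringReducible f (char A)

/-- The set `S` is computably enumerable in `A`: it is the domain of a partial function which is
Turing reducible to `A`. -/
def Enum (A S : Set ℕ) : Prop := ∃ f : ℕ →. ℕ, Computes A f ∧ S = {n | (f n).Dom}

/-- The join of two sets of natural numbers. -/
def Join (A B : Set ℕ) : Set ℕ := {n | (∃ a ∈ A, n = 2 * a) ∨ ∃ b ∈ B, n = 2 * b + 1}

/-- The colouring `c` has one-way memory at most `W` at the cut `m`: the numbers below `2 ^ m`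
can be divided into at most `W` classes such that for `t ≥ 1` the colour of `a + 2 ^ m * t`
depends only on `t` and on the class of `a < 2 ^ m`. -/
def Memory {k : ℕ} (c : ℕ → Fin k) (m W : ℕ) : Prop :=
  ∃ f : ℕ → Fin W, ∀ a < 2 ^ m, ∀ b < 2 ^ m, f a = f b →
    ∀ t, 1 ≤ t → c (a + 2 ^ m * t) = c (b + 2 ^ m * t)

/-- There are at most `W` eventual classes of numbers below `2 ^ m`: among any `W + 1` numbers
below `2 ^ m` there are two, `x` and `y`, such that for some `n`, `x + 2 ^ n * t` and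
`y + 2 ^ n * t` have the same colour for all `t ≥ 1`. -/
def Eventual {k : ℕ} (c : ℕ → Fin k) (m W : ℕ) : Prop :=
  ∀ v : Fin (W + 1) → ℕ, (∀ i, v i < 2 ^ m) → ∃ i j, i ≠ j ∧ ∃ n, ∀ t, 1 ≤ t →
    c (v i + 2 ^ n * t) = c (v j + 2 ^ n * t)

/-- `X` is a solution of Hindman's theorem for the colouring `c`. -/
def Solution {k : ℕ} (c : ℕ → Fin k) (X : Set ℕ) : Prop :=
  X.Infinite ∧ 0 ∉ X ∧ ∃ j, ∀ F : Finset ℕ, (F : Set ℕ) ⊆ X → F.Nonempty → c (∑ x ∈ F, x) = j

/-- An unbounded function computable from `A` lies below `w`. -/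
def Dominates (A : Set ℕ) (w : ℕ → ℕ) : Prop :=
  ∃ w' : ℕ → ℕ, Computes A (fun n => Part.some (w' n)) ∧ (∀ B, ∃ m, B ≤ w' m) ∧
    ∀ m, w' m ≤ w m

/-- Turing ideals, that is, the second order parts of the `ω`-models of `RCA₀`. -/
def Ideal (I : Set (Set ℕ)) : Prop :=
  (∃ A, A ∈ I) ∧ (∀ A ∈ I, ∀ B, Computes A (char B) → B ∈ I) ∧ ∀ A ∈ I, ∀ B ∈ I, Join A B ∈ I

/-- The Turing ideal `I` is an `ω`-model of `ACA₀`: every set which is enumerable in a member is
a member. -/
def ACA (I : Set (Set ℕ)) : Prop := ∀ A ∈ I, ∀ S, Enum A S → S ∈ I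

/-- Hindman's theorem holds in `I` for the colourings with the property `P`. -/
def HT (I : Set (Set ℕ)) (P : ∀ k : ℕ, (ℕ → Fin k) → Prop) : Prop :=
  ∀ (k : ℕ) (c : ℕ → Fin k), (∃ A ∈ I, Computes A (fun n => Part.some (c n).val)) → P k c →
    ∃ X ∈ I, Solution c X

theorem computes_set {A B : Set ℕ} : Computes A (char B) ↔ Dec A B := by
  classical
  exact turingReducible_iff

theorem computes_fun {A : Set ℕ} {g : ℕ → ℕ} :
    Computes A (fun n => Part.some (g n)) ↔ Gr A g := by
  classical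
  exact turingReducible_fun_iff

theorem gr_fin {A : Set ℕ} {k : ℕ} {c : ℕ → Fin k} :
    Gr A (fun n => (c n).val) ↔ Gr A c := by
  constructor
  · intro h
    refine (REIn.comp h (f := fun p : ℕ × Fin k => (p.1, p.2.val)) ?_).of_eq fun p => ?_
    · exact Computable.fst.pair (Primrec.fin_val.to_comp.comp Computable.snd)
    · exact Fin.ext_iff.symm
  · intro h
    exact Gr.post (g := fun i : Fin k => i.val) Primrec.fin_val.to_comp h

theorem computes_col {A : Set ℕ} {k : ℕ} {c : ℕ → Fin k} :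
    Computes A (fun n => Part.some (c n).val) ↔ Gr A c := computes_fun.trans gr_fin

theorem enum_iff {A S : Set ℕ} : Enum A S ↔ REIn A (· ∈ S) := by
  classical
  constructor
  · rintro ⟨f, hf, rfl⟩
    have h1 : Nat.RecursiveIn {Pool.Agent.Helper446.Defs.chi A} f := by
      unfold Computes at hf
      rw [TuringReducible, RecursiveIn.iff_nat] at hf
      exact hf
    exact re_of_dom h1
  · intro h
    obtain ⟨f, hf, hf2⟩ := dom_of_re h
    refine ⟨f, ?_, Set.ext hf2⟩
    unfold Computes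
    rw [TuringReducible, RecursiveIn.iff_nat]
    exact hf

theorem dominates_iff {A : Set ℕ} {w : ℕ → ℕ} : Dominates A w ↔
    ∃ w' : ℕ → ℕ, Gr A w' ∧ (∀ B, ∃ m, B ≤ w' m) ∧ ∀ m, w' m ≤ w m := by
  unfold Dominates
  simp only [computes_fun]

theorem ideal_iff {I : Set (Set ℕ)} : Ideal I ↔ Idl I := by
  unfold Ideal Idl
  simp only [computes_set]
  rfl

theorem aca_iff {I : Set (Set ℕ)} : ACA I ↔ Jmp I := by
  unfold ACA Jmp
  simp only [enum_iff]

theorem ht_iff {I : Set (Set ℕ)} {P : ∀ k : ℕ, (ℕ → Fin k) → Prop} : HT I P ↔ HTI I P := by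
  unfold HT HTI InI
  simp only [computes_col]
  rfl

theorem dom_iff {I : Set (Set ℕ)} {w : ℕ → ℕ} : (∃ A ∈ I, Dominates A w) ↔ Dom I w := by
  constructor
  · rintro ⟨A, hA, h⟩
    obtain ⟨w', h1, h2, h3⟩ := dominates_iff.1 h
    exact ⟨w', ⟨A, hA, h1⟩, h2, h3⟩
  · rintro ⟨w', ⟨A, hA, h1⟩, h2, h3⟩
    exact ⟨A, hA, dominates_iff.2 ⟨w', h1, h2, h3⟩⟩

end Pool.Agent.Y545.HM.St
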